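import Mathlib

/-!
# MP_475aca_co : burnt pancakes, common definitions

* a signed permutation of `[n]` is a list of integers `a` with `IsSP n a`;
* `lp v`, `rp v` : left and right port of the (signed) entry `v`; the ports of the value `v > 0` are
  `2 v` and `2 v + 1`; `par` pairs `2 v + 1` with `2 v + 2`;
* `st n a = (top, gaps)` : the port of the left end, and the list of the pairs (port above, port
  below) of the `n` gaps; the last lower port is `2 n + 2`.
* a gap is open if its two ports are not partners; `dd` counts the open gaps.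
-/

namespace BP

/-! ### signed permutations -/

/-- `a` is a signed permutation of `[n] = {1, …, n}` -/
def IsSP (n : ℕ) (a : List ℤ) : Prop := (a.map Int.natAbs).Perm (List.range' 1 n)

/-- flip of length `k` -/
def pflip (k : ℕ) (a : List ℤ) : List ℤ := ((a.take k).map fun v => -v).reverse ++ a.drop k

/-- the sequence of flips `ks` -/
def pflips (ks : List ℕ) (a : List ℤ) : List ℤ := ks.foldl (fun b k => pflip k b) a

/-- the sorted list `(1, …, n)` -/
def ident (n : ℕ) : List ℤ := (List.range' 1 n).map fun i => (i : ℤ)

/-! ### ports and states -/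

/-- partner of a port -/
def par (p : ℕ) : ℕ := if p % 2 = 1 then p + 1 else p - 1

/-- left port -/
def lp (v : ℤ) : ℕ := if 0 < v then 2 * v.natAbs else 2 * v.natAbs + 1

/-- right port -/
def rp (v : ℤ) : ℕ := if 0 < v then 2 * v.natAbs + 1 else 2 * v.natAbs

/-- (port above, port below) -/
abbrev Gap := ℕ × ℕ

/-- (top port, gaps) -/
abbrev St := ℕ × List Gap

/-- the gaps of the list `a` -/
def gaps (n : ℕ) : List ℤ → List Gap
  | [] => []
  | [v] => [(rp v, 2 * n + 2)]
  | v :: w :: l => (rp v, lp w) :: gaps n (w :: l)

/-- the state of `a` -/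
def st (n : ℕ) (a : List ℤ) : St := (match a with | [] => 2 | v :: _ => lp v, gaps n a)

/-- flip at the gap number `k` (counted from `0`) -/
def sflip (k : ℕ) (s : St) : St :=
  match s.2.drop k with
  | [] => s
  | (u, v) :: G2 => (u, ((s.2.take k).map Prod.swap).reverse ++ (s.1, v) :: G2)

/-- sequence of flips of states -/
def sflips (ks : List ℕ) (s : St) : St := ks.foldl (fun b k => sflip k b) s

/-- open gap -/
def opn (g : Gap) : Bool := par g.1 != g.2

/-- number of open gaps -/
def dd (G : List Gap) : ℕ := G.countP opn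

/-- a state coming from a signed permutation of `[n]` -/
def IsSt (n : ℕ) (s : St) : Prop := ∃ a, IsSP n a ∧ s = st n a

/-- port above / below the gap number `k` -/
def up (s : St) (k : ℕ) : ℕ := (s.2.getD k (0, 0)).1

def lo (s : St) (k : ℕ) : ℕ := (s.2.getD k (0, 0)).2

/-- the gap number `k` exists and is open -/
def Opn (s : St) (k : ℕ) : Prop := k < s.2.length ∧ par (up s k) ≠ lo s k

/-- a profitable sequence of flips at rate `15/8` -/
def Prof (s : St) : Prop := ∃ ks : List ℕ, ks ≠ [] ∧ (∀ k ∈ ks, k < s.2.length) ∧
  8 * ks.length + 15 * dd (sflips ks s).2 ≤ 15 * dd s.2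

/-! ### patterns -/

/-- a pattern: list of bundles (direction, roles in column order) -/
abbrev Pat := List (Bool × List ℕ)

/-- the columns of a bundle in their order of position -/
def cols (d : Bool) (m : ℕ) : List ℕ := if d then List.range m else (List.range m).reverse

/-- the (role, column) pairs in their order of position -/
def word (P : Pat) (m : ℕ) : List (ℕ × ℕ) :=
  P.flatMap fun b => (cols b.1 m).flatMap fun i => b.2.map fun r => (r, i)

/-- roles of a pattern -/
def rls (P : Pat) : List ℕ := P.flatMap fun b => b.2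

/-- the positions `g r i` (role `r`, column `i < m`) are ordered as in the pattern -/
def Emb (P : Pat) (m : ℕ) (g : ℕ → ℕ → ℕ) : Prop :=
  ((word P m).map fun q => g q.1 q.2).Pairwise (· < ·)

/-- pattern with chords; the side `2 r` (`2 r + 1`) is the port above (below) the gap of role `r`;
`R` is a bound for the roles -/
structure Pt where
  R : ℕ
  P : Pat
  ch : List (ℕ × ℕ)

/-- the port of the side `σ` in the column `i` -/
def port (s : St) (g : ℕ → ℕ → ℕ) (σ i : ℕ) : ℕ :=
  if σ % 2 = 0 then up s (g (σ / 2) i) else lo s (g (σ / 2) i)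

/-- the state `s` contains `m` columns of the pattern `Q` at the positions `g` -/
structure ContG (s : St) (Q : Pt) (m : ℕ) (g : ℕ → ℕ → ℕ) : Prop where
  emb : Emb Q.P m g
  opn : ∀ r ∈ rls Q.P, ∀ i < m, Opn s (g r i)
  ch : ∀ c ∈ Q.ch, ∀ i < m, par (port s g c.1 i) = port s g c.2 i

def Cont (s : St) (Q : Pt) (m : ℕ) : Prop := ∃ g, ContG s Q m g

/-- well formed -/
structure WF (Q : Pt) : Prop where
  nodup : (rls Q.P).Nodup
  lt : ∀ r ∈ rls Q.P, r < Q.R
  mem : ∀ c ∈ Q.ch, c.1 / 2 ∈ rls Q.P ∧ c.2 / 2 ∈ rls Q.P

/-- every state with sufficiently many columns of `Q` has a profitable sequence -/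
def Win (Q : Pt) : Prop := ∃ N, ∀ n s, IsSt n s → Cont s Q N → Prof s

end BP
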