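import Pool.Agent.Work.MP_475aca_co.Defs

/-! # Flips of signed permutations and of states -/

namespace BP

variable {n k k' p q : ℕ} {a : List ℤ} {s : St}

/-! ### ModelB : flips -/

theorem isSP_pflip (ha : IsSP n a) (k : ℕ) : IsSP n (pflip k a) := by
  unfold IsSP pflip at *
  refine List.Perm.trans ?_ ha
  have h1 : ((((a.take k).map fun v => -v).reverse ++ a.drop k).map Int.natAbs) =
      ((a.take k).map Int.natAbs).reverse ++ (a.drop k).map Int.natAbs := by
    simp [List.map_reverse, Function.comp_def]
  rw [h1]
  have h2 : a.map Int.natAbs = (a.take k).map Int.natAbs ++ (a.drop k).map Int.natAbs := by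
    rw [← List.map_append, List.take_append_drop]
  rw [h2]
  exact (List.reverse_perm _).append_right _

theorem modelB_lp_neg {v : ℤ} (hv : v ≠ 0) : lp (-v) = rp v := by
  unfold lp rp
  split_ifs <;> omega

theorem modelB_rp_neg {v : ℤ} (hv : v ≠ 0) : rp (-v) = lp v := by
  unfold lp rp
  split_ifs <;> omega

/-- the inner gaps -/
def modelB_ig : List ℤ → List Gap
  | [] => []
  | [_] => []
  | v :: w :: l => (rp v, lp w) :: modelB_ig (w :: l)

/-- the port below -/
def modelB_hd (n : ℕ) : List ℤ → ℕ
  | [] => 2 * n + 2
  | v :: _ => lp v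

theorem modelB_gaps_cons (n : ℕ) (x : ℤ) (B : List ℤ) :
    gaps n (x :: B) = (rp x, modelB_hd n B) :: gaps n B := by
  cases B <;> simp [gaps, modelB_hd]

theorem modelB_gaps_append (n : ℕ) (x : ℤ) (B : List ℤ) : ∀ l : List ℤ,
    gaps n (l ++ x :: B) = modelB_ig (l ++ [x]) ++ (rp x, modelB_hd n B) :: gaps n B
  | [] => by
    rw [List.nil_append, modelB_gaps_cons]
    simp [modelB_ig]
  | [v] => by
    have := modelB_gaps_append n x B []
    simp only [List.cons_append, List.nil_append, gaps, modelB_ig] at this ⊢
    rw [this]
  | v :: w :: l => by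
    have := modelB_gaps_append n x B (w :: l)
    simp only [List.cons_append, gaps, modelB_ig] at this ⊢
    rw [this]

theorem modelB_ig_snoc (x y : ℤ) : ∀ l : List ℤ,
    modelB_ig (l ++ [y, x]) = modelB_ig (l ++ [y]) ++ [(rp y, lp x)]
  | [] => by simp [modelB_ig]
  | [v] => by simp [modelB_ig]
  | v :: w :: l => by
    have := modelB_ig_snoc x y (w :: l)
    simp only [List.cons_append, modelB_ig] at this ⊢
    rw [this]

theorem modelB_ig_length : ∀ l : List ℤ, (modelB_ig l).length = l.length - 1
  | [] => rfl
  | [_] => rfl
  | v :: w :: l => by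
    have := modelB_ig_length (w :: l)
    simp only [modelB_ig, List.length_cons] at this ⊢
    omega

theorem modelB_ig_rev : ∀ l : List ℤ, (∀ v ∈ l, v ≠ 0) →
    modelB_ig ((l.map fun v => -v).reverse) = ((modelB_ig l).map Prod.swap).reverse
  | [], _ => rfl
  | [v], _ => by simp [modelB_ig]
  | v :: w :: l, h => by
    have ih := modelB_ig_rev (w :: l) fun u hu => h u (List.mem_cons_of_mem _ hu)
    have hv : v ≠ 0 := h v (by simp)
    have hw : w ≠ 0 := h w (by simp)
    have e : (((v :: w :: l).map fun v => -v).reverse) =
        ((l.map fun v => -v).reverse) ++ [-w, -v] := by simp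
    have e2 : (((w :: l).map fun v => -v).reverse) =
        ((l.map fun v => -v).reverse) ++ [-w] := by simp
    rw [e2] at ih
    rw [e, modelB_ig_snoc, ih, modelB_rp_neg hw, modelB_lp_neg hv]
    simp [modelB_ig]

theorem modelB_ne_zero (ha : IsSP n a) : ∀ v ∈ a, v ≠ 0 := by
  intro v hv e
  have h1 : v.natAbs ∈ a.map Int.natAbs := List.mem_map_of_mem hv
  rw [ha.mem_iff, List.mem_range'_1] at h1
  rw [e] at h1
  simp at h1

theorem modelB_length (ha : IsSP n a) : a.length = n := by
  have := ha.length_eq
  simpa using this

theorem st_pflip (ha : IsSP n a) (hk : k < n) : st n (pflip (k + 1) a) = sflip k (st n a) := by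
  have h0 := modelB_ne_zero ha
  have hl := modelB_length ha
  have hk' : k < a.length := by omega
  -- decompositions
  have hA : a.take (k + 1) = a.take k ++ [a[k]] := by
    rw [List.take_add_one, List.getElem?_eq_getElem hk']
    rfl
  have hA0 : a = a.take k ++ a[k] :: a.drop (k + 1) := by
    rw [List.getElem_cons_drop hk', List.take_append_drop]
  obtain ⟨A, x, B, hx, hAk⟩ : ∃ A x B, a = A ++ x :: B ∧ A.length = k :=
    ⟨a.take k, a[k], a.drop (k + 1), hA0, by rw [List.length_take]; omega⟩
  subst hx
  have hx0 : x ≠ 0 := h0 x (by simp)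
  have htake : (A ++ x :: B).take (k + 1) = A ++ [x] := by
    subst hAk
    have : A ++ x :: B = (A ++ [x]) ++ B := by simp
    rw [this, List.take_left' (by simp)]
  have hdrop : (A ++ x :: B).drop (k + 1) = B := by
    subst hAk
    have : A ++ x :: B = (A ++ [x]) ++ B := by simp
    rw [this, List.drop_left' (by simp)]
  have hF : pflip (k + 1) (A ++ x :: B) = -x :: ((A.map fun v => -v).reverse ++ B) := by
    unfold pflip
    rw [htake, hdrop]
    simp
  -- the right hand side
  have hig : (modelB_ig (A ++ [x])).length = k := by
    rw [modelB_ig_length]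
    simp [hAk]
  have hR : sflip k (st n (A ++ x :: B)) =
      (rp x, ((modelB_ig (A ++ [x])).map Prod.swap).reverse ++
        ((st n (A ++ x :: B)).1, modelB_hd n B) :: gaps n B) := by
    unfold sflip
    have h1 : (st n (A ++ x :: B)).2 =
        modelB_ig (A ++ [x]) ++ (rp x, modelB_hd n B) :: gaps n B :=
      modelB_gaps_append n x B A
    have h2 : (st n (A ++ x :: B)).2.drop k = (rp x, modelB_hd n B) :: gaps n B := by
      rw [h1, List.drop_left' hig]
    have h3 : (st n (A ++ x :: B)).2.take k = modelB_ig (A ++ [x]) := by
      rw [h1, List.take_left' hig]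
    rw [h2, h3]
  rw [hR, hF]
  -- the left hand side
  have hrev := modelB_ig_rev (A ++ [x]) (by
    intro v hv
    apply h0
    rcases List.mem_append.1 hv with h | h
    · exact List.mem_append_left _ h
    · rw [List.mem_singleton] at h
      subst h
      simp)
  simp only [st]
  refine Prod.ext (modelB_lp_neg hx0) ?_
  simp only
  cases A with
  | nil =>
    simp only [List.map_nil, List.reverse_nil, List.nil_append]
    rw [modelB_gaps_cons, modelB_rp_neg hx0]
    simp [modelB_ig]
  | cons h t =>
    have hh : h ≠ 0 := h0 h (by simp)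
    have e1 : -x :: ((((h :: t).map fun v => -v)).reverse ++ B) =
        (-x :: (t.map fun v => -v).reverse) ++ -h :: B := by simp
    have e2 : ((((h :: t) ++ [x]).map fun v => -v)).reverse =
        (-x :: (t.map fun v => -v).reverse) ++ [-h] := by simp
    rw [e1, modelB_gaps_append, ← e2, hrev, modelB_rp_neg hh]
    simp

theorem IsSt.sflip (h : IsSt n s) (hk : k < n) : IsSt n (sflip k s) := by
  obtain ⟨a, ha, rfl⟩ := h
  exact ⟨pflip (k + 1) a, isSP_pflip ha _, (st_pflip ha hk).symm⟩

theorem modelB_sorted (m : ℕ) : ∀ l : List ℤ, l.length ≤ m → dd (gaps m l) = 0 →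
    l = List.map (fun i : ℕ => (i : ℤ)) (List.range' (m + 1 - l.length) l.length)
  | [], _, _ => by simp
  | [v], hm, h => by
    have h1 : par (rp v) = 2 * m + 2 := by
      simpa [dd, gaps, opn, List.countP_cons] using h
    have h2 : v = m := by
      unfold rp par at h1
      split_ifs at h1 <;> omega
    simp [h2]
  | v :: w :: l, hm, h => by
    have hm' : (w :: l).length ≤ m := by
      simp only [List.length_cons] at hm ⊢
      omega
    have h1 : par (rp v) = lp w ∧ dd (gaps m (w :: l)) = 0 := by
      simp only [dd, gaps, List.countP_cons] at h ⊢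
      refine ⟨?_, by omega⟩
      by_contra hne
      have : opn (rp v, lp w) = true := by simpa [opn] using hne
      rw [if_pos this] at h
      omega
    have ih := modelB_sorted m (w :: l) hm' h1.2
    have hw : w = ((m + 1 - (w :: l).length : ℕ) : ℤ) := by
      have h3 := congrArg List.head? ih
      simp only [List.length_cons, List.range'_succ, List.map_cons, List.head?_cons,
        Option.some.injEq] at h3 ⊢
      exact h3
    have hv : v = ((m + 1 - (v :: w :: l).length : ℕ) : ℤ) := by
      have h4 := h1.1
      simp only [List.length_cons] at hw hm ⊢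
      unfold rp lp par at h4
      split_ifs at h4 <;> omega
    have e : List.range' (m + 1 - (v :: w :: l).length) (v :: w :: l).length =
        (m + 1 - (v :: w :: l).length) ::
          List.range' (m + 1 - (w :: l).length) (w :: l).length := by
      have : (v :: w :: l).length = (w :: l).length + 1 := rfl
      rw [this, List.range'_succ]
      congr 2
      simp only [List.length_cons] at hm ⊢
      omega
    rw [e, List.map_cons, ← ih, ← hv]

/-- sorted if there is no open gap -/
theorem eq_ident_of_dd (ha : IsSP n a) (h : dd (gaps n a) = 0) : a = ident n := by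
  have hl := modelB_length ha
  have := modelB_sorted n a hl.le h
  rw [hl] at this
  have h1 : n + 1 - n = 1 := by omega
  rw [h1] at this
  rw [this]
  have h2 : ∀ l : List ℕ, List.map (fun i : ℕ => (i : ℤ)) l =
      List.flatMap (fun i : ℕ => [(i : ℤ)]) l := by
    intro l
    induction l with
    | nil => rfl
    | cons i l ih =>
      rw [List.map_cons, List.flatMap_cons, ih]
      rfl
  simp [ident, h2]

end BP
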