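import Pool.Agent.Work.MP_475aca_co.Model

/-! # The basic bound, and the main induction -/

namespace BP

/-! ### the effect of a flip -/

theorem bs_sflip {s : St} {k : ℕ} (hk : k < s.2.length) :
    sflip k s = (up s k, ((s.2.take k).map Prod.swap).reverse ++
      (s.1, lo s k) :: s.2.drop (k + 1)) := by
  unfold sflip up lo
  rw [List.drop_eq_getElem_cons hk, List.getD_eq_getElem _ _ hk]

theorem bs_len {s : St} {k : ℕ} (hk : k < s.2.length) : (sflip k s).2.length = s.2.length := by
  rw [bs_sflip hk]
  simp only [List.length_append, List.length_reverse, List.length_map, List.length_take,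
    List.length_cons, List.length_drop]
  omega

theorem bs_gt {s : St} {k j : ℕ} (hk : k < s.2.length) (hj : k < j) :
    (sflip k s).2.getD j (0, 0) = s.2.getD j (0, 0) := by
  rw [bs_sflip hk]
  simp only
  rw [List.getD_append_right _ _ _ _ (by simp; omega)]
  have h1 : j - ((s.2.take k).map Prod.swap).reverse.length = (j - k - 1) + 1 := by
    simp only [List.length_reverse, List.length_map, List.length_take]
    omega
  rw [h1, List.getD_cons_succ]
  simp only [List.getD_eq_getElem?_getD, List.getElem?_drop]
  congr 2
  omega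

theorem bs_eq {s : St} {k : ℕ} (hk : k < s.2.length) :
    (sflip k s).2.getD k (0, 0) = (s.1, lo s k) := by
  rw [bs_sflip hk]
  simp only
  rw [List.getD_append_right _ _ _ _ (by simp)]
  have h1 : k - ((s.2.take k).map Prod.swap).reverse.length = 0 := by
    simp only [List.length_reverse, List.length_map, List.length_take]
    omega
  rw [h1, List.getD_cons_zero]

theorem bs_lt {s : St} {k j : ℕ} (hk : k < s.2.length) (hj : j < k) :
    (sflip k s).2.getD j (0, 0) = (lo s (k - 1 - j), up s (k - 1 - j)) := by
  rw [bs_sflip hk]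
  simp only
  have hlen : ((s.2.take k).map Prod.swap).reverse.length = k := by
    simp only [List.length_reverse, List.length_map, List.length_take]
    omega
  rw [List.getD_append _ _ _ _ (by rw [hlen]; exact hj),
    List.getD_eq_getElem _ _ (by rw [hlen]; exact hj), List.getElem_reverse, List.getElem_map,
    List.getElem_take]
  have h2 : ((s.2.take k).map Prod.swap).length - 1 - j = k - 1 - j := by
    simp only [List.length_map, List.length_take]
    omega
  simp only [h2]
  unfold lo up
  rw [List.getD_eq_getElem _ _ (by omega)]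
  rfl

/-! ### the number of open gaps -/

theorem bs_opn_swap {g : Gap} (h1 : 1 ≤ g.1) (h2 : 1 ≤ g.2) : opn g.swap = opn g := by
  unfold opn
  have : (par g.2 = g.1) ↔ (par g.1 = g.2) := by
    constructor
    · rintro h
      rw [← h]
      exact par_par h2
    · rintro h
      rw [← h]
      exact par_par h1
  simp only [Prod.fst_swap, Prod.snd_swap]
  rw [Bool.eq_iff_iff, bne_iff_ne, bne_iff_ne]
  exact not_congr this

theorem bs_dd_swap {G : List Gap} (h : ∀ g ∈ G, 1 ≤ g.1 ∧ 1 ≤ g.2) :
    dd (G.map Prod.swap).reverse = dd G := by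
  unfold dd
  rw [List.countP_reverse, List.countP_map]
  refine List.countP_congr fun g hg => ?_
  simp only [Function.comp]
  rw [bs_opn_swap (h g hg).1 (h g hg).2]

theorem bs_ports {n : ℕ} {s : St} (h : IsSt n s) : ∀ g ∈ s.2, 1 ≤ g.1 ∧ 1 ≤ g.2 := by
  intro g hg
  obtain ⟨k, hk, rfl⟩ := List.getElem_of_mem hg
  have hk' : k < n := by rw [← h.length]; exact hk
  have h1 := h.two_le_up hk'
  have h2 := h.two_le_lo hk'
  unfold up at h1
  unfold lo at h2
  rw [List.getD_eq_getElem _ _ hk] at h1 h2
  omega

theorem bs_dd {n : ℕ} {s : St} (h : IsSt n s) {k : ℕ} (hk : Opn s k) :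
    dd (sflip k s).2 + 1 = dd s.2 + (if par s.1 = lo s k then 0 else 1) := by
  have h1 : dd (sflip k s).2 = dd (s.2.take k) + ((if par s.1 = lo s k then 0 else 1) +
      dd (s.2.drop (k + 1))) := by
    rw [bs_sflip hk.1]
    simp only
    have e : dd (((s.2.take k).map Prod.swap).reverse ++ (s.1, lo s k) :: s.2.drop (k + 1)) =
        dd ((s.2.take k).map Prod.swap).reverse + dd ((s.1, lo s k) :: s.2.drop (k + 1)) :=
      List.countP_append
    rw [e, bs_dd_swap fun g hg => bs_ports h g (List.mem_of_mem_take hg)]
    congr 1
    unfold dd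
    rw [List.countP_cons]
    unfold opn
    simp only [bne_iff_ne, ne_eq, ite_not]
    rw [add_comm]
  have h2 : dd s.2 = dd (s.2.take k) + (1 + dd (s.2.drop (k + 1))) := by
    conv_lhs => rw [← List.take_append_drop k s.2, List.drop_eq_getElem_cons hk.1]
    have e : dd (s.2.take k ++ s.2[k]'hk.1 :: s.2.drop (k + 1)) =
        dd (s.2.take k) + dd (s.2[k]'hk.1 :: s.2.drop (k + 1)) := List.countP_append
    rw [e]
    congr 1
    unfold dd
    rw [List.countP_cons]
    have h3 : opn (s.2[k]'hk.1) = true := by
      have h4 := hk.2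
      unfold up lo at h4
      rw [List.getD_eq_getElem _ _ hk.1] at h4
      unfold opn
      rw [bne_iff_ne]
      exact h4
    rw [h3]
    simp only [if_true]
    rw [add_comm]
  omega

theorem bs_dd_le {n : ℕ} {s : St} (h : IsSt n s) {k : ℕ} (hk : Opn s k) :
    dd (sflip k s).2 ≤ dd s.2 := by
  have := bs_dd h hk
  split_ifs at this <;> omega

theorem bs_dd_lt {n : ℕ} {s : St} (h : IsSt n s) {k : ℕ} (hk : Opn s k)
    (hp : par (lo s k) = s.1) : dd (sflip k s).2 + 1 = dd s.2 := by
  have h1 : par s.1 = lo s k := by
    rw [← hp]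
    have hkn : k < n := by rw [← h.length]; exact hk.1
    exact par_par (by have := h.two_le_lo hkn; omega)
  have := bs_dd h hk
  rw [if_pos h1] at this
  exact this

/-! ### the entries -/

theorem bs_gaps (n : ℕ) (a : List ℤ) (j : ℕ) (hj : j + 1 < a.length) :
    (gaps n a).getD j (0, 0) = (rp (a.getD j 0), lp (a.getD (j + 1) 0)) := by
  induction a generalizing j with
  | nil => simp at hj
  | cons v a ih =>
    cases a with
    | nil => simp at hj
    | cons w l =>
      cases j with
      | zero => rfl
      | succ j =>
        simp only [gaps, List.getD_cons_succ]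
        exact ih j (by simpa using hj)

theorem bs_gaps_last (n : ℕ) (a : List ℤ) (ha : a ≠ []) :
    (gaps n a).getD (a.length - 1) (0, 0) = (rp (a.getD (a.length - 1) 0), 2 * n + 2) := by
  induction a with
  | nil => exact absurd rfl ha
  | cons v a ih =>
    cases a with
    | nil => rfl
    | cons w l =>
      have h1 : (v :: w :: l).length - 1 = ((w :: l).length - 1) + 1 := by simp
      rw [h1]
      simp only [gaps, List.getD_cons_succ]
      exact ih (by simp)

theorem bs_sp_len {n : ℕ} {a : List ℤ} (ha : IsSP n a) : a.length = n := by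
  have := ha.length_eq
  simpa using this

/-- an entry with left port `2 c` has right port `2 c + 1` (`c ≥ 1`) -/
theorem bs_rp {v : ℤ} {c : ℕ} (h : lp v = 2 * c) : rp v = 2 * c + 1 := by
  unfold lp at h
  unfold rp
  split_ifs at h ⊢ with h1
  · omega
  · omega

theorem bs_no_one {n : ℕ} {s : St} (h : IsSt n s) {k : ℕ} (hk : Opn s k)
    (hlast : ∀ j, k < j → ¬Opn s j) : par (lo s k) ≠ 1 := by
  intro hp
  obtain ⟨a, ha, rfl⟩ := h
  have hs : IsSt n (st n a) := ⟨a, ha, rfl⟩
  have hlen : a.length = n := bs_sp_len ha
  have hkn : k < n := by rw [← hs.length]; exact hk.1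
  have h2 : lo (st n a) k = 2 := by
    have h3 := hs.two_le_lo hkn
    have h4 : par (par (lo (st n a) k)) = par 1 := by rw [hp]
    rw [par_par (by omega)] at h4
    rw [h4]
    rfl
  have key : ∀ i, k + i < n → lo (st n a) (k + i) = 2 * (i + 1) := by
    intro i
    induction i with
    | zero => intro _; exact h2
    | succ i ih =>
      intro hi
      have h3 := ih (by omega)
      have h4 : lo (st n a) (k + i) = lp (a.getD (k + i + 1) 0) := by
        show ((gaps n a).getD (k + i) (0, 0)).2 = _
        rw [bs_gaps n a (k + i) (by omega)]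
      rw [h4] at h3
      have h5 := bs_rp h3
      have h6 : up (st n a) (k + (i + 1)) = rp (a.getD (k + i + 1) 0) := by
        show ((gaps n a).getD (k + (i + 1)) (0, 0)).1 = _
        by_cases hlt : k + i + 1 + 1 < a.length
        · have := bs_gaps n a (k + i + 1) hlt
          rw [show k + (i + 1) = k + i + 1 from rfl, this]
        · have h7 : a.length - 1 = k + i + 1 := by omega
          have := bs_gaps_last n a (by
            intro h0
            rw [h0] at hlen
            simp at hlen
            omega)
          rw [h7] at this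
          rw [show k + (i + 1) = k + i + 1 from rfl, this]
      have h8 : ¬Opn (st n a) (k + (i + 1)) := hlast _ (by omega)
      have h9 : par (up (st n a) (k + (i + 1))) = lo (st n a) (k + (i + 1)) := by
        by_contra h10
        exact h8 ⟨by rw [hs.length]; exact hi, h10⟩
      rw [← h9, h6, h5]
      unfold par
      rw [if_pos (by omega)]
      omega
  have h3 := key (n - 1 - k) (by omega)
  have h4 : k + (n - 1 - k) = a.length - 1 := by omega
  have h5 : lo (st n a) (a.length - 1) = 2 * n + 2 := by
    show ((gaps n a).getD (a.length - 1) (0, 0)).2 = _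
    rw [bs_gaps_last n a (by
      intro h0
      rw [h0] at hlen
      simp at hlen
      omega)]
  rw [h4, h5] at h3
  omega

/-- Hint: let `k` be the last open gap, `p = lo s k`. If `par p = s.1`, flip at `k`. If
`par p = up s k'` (`k' < k` open): flip at `k'`, then at `k`. If `par p = lo s k'`: flip at `k`,
then at the mirror image `k - 1 - k'` of `k'`, then at `k`. `par p = 1` is impossible: then
`lo s k = 2`, the entries below are `1, 2, …` (all later gaps are closed) and the last one is
`n - k - 1 < n`. A flip at an open gap does not increase `dd`. -/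
theorem basic_step {n : ℕ} {s : St} (h : IsSt n s) (hd : 0 < dd s.2) :
    ∃ ks : List ℕ, ks ≠ [] ∧ (∀ k ∈ ks, k < s.2.length) ∧
      ks.length + 3 * dd (sflips ks s).2 ≤ 3 * dd s.2 := by
  classical
  -- the last open gap
  have hex : ∃ k, Opn s k := by
    have h1 := hd
    unfold dd at h1
    rw [List.countP_pos_iff] at h1
    obtain ⟨g, hg, hg2⟩ := h1
    obtain ⟨k, hk, rfl⟩ := List.getElem_of_mem hg
    refine ⟨k, hk, ?_⟩
    unfold up lo
    rw [List.getD_eq_getElem _ _ hk]
    unfold opn at hg2
    rw [bne_iff_ne] at hg2
    exact hg2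
  obtain ⟨k, hk, hlast⟩ : ∃ k, Opn s k ∧ ∀ j, k < j → ¬Opn s j := by
    have hfin : {k | Opn s k}.Finite := (Set.finite_lt_nat s.2.length).subset fun k hk => hk.1
    obtain ⟨k, hk, hmax⟩ := hfin.exists_maximal hex
    refine ⟨k, hk, fun j hj hj2 => ?_⟩
    have := hmax hj2 hj.le
    omega
  have hkn : k < n := by rw [← h.length]; exact hk.1
  rcases h.partner_cases hk (Or.inr rfl) with hp | hp | ⟨k', hk', hne, hp⟩
  · -- the top port
    refine ⟨[k], by simp, by simpa using hk.1, ?_⟩
    have := bs_dd_lt h hk hp
    simp only [sflips, List.foldl_cons, List.foldl_nil, List.length_singleton]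
    omega
  · exact absurd hp (bs_no_one h hk hlast)
  · have hk'k : k' < k := by
      by_contra hcon
      exact hlast k' (by omega) hk'
    have hk'n : k' < n := by omega
    rcases hp with hp | hp
    · -- an upper port
      have h1 : IsSt n (sflip k' s) := h.sflip hk'n
      have e1 : lo (sflip k' s) k = lo s k := by
        unfold lo
        rw [bs_gt hk'.1 hk'k]
      have e2 : up (sflip k' s) k = up s k := by
        unfold up
        rw [bs_gt hk'.1 hk'k]
      have e3 : (sflip k' s).1 = up s k' := by rw [bs_sflip hk'.1]
      have ho : Opn (sflip k' s) k := ⟨by rw [bs_len hk'.1]; exact hk.1, by rw [e1, e2]; exact hk.2⟩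
      have h2 := bs_dd_lt h1 ho (by rw [e1, e3]; exact hp)
      have h3 := bs_dd_le h hk'
      refine ⟨[k', k], by simp, ?_, ?_⟩
      · intro j hj
        simp only [List.mem_cons, List.not_mem_nil, or_false] at hj
        rcases hj with rfl | rfl
        · exact hk'.1
        · exact hk.1
      · simp only [sflips, List.foldl_cons, List.foldl_nil, List.length_cons, List.length_nil]
        omega
    · -- a lower port
      have h1 : IsSt n (sflip k s) := h.sflip hkn
      have h4 := bs_dd_le h hk
      set j := k - 1 - k' with hj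
      have hjk : j < k := by omega
      have ej : (sflip k s).2.getD j (0, 0) = (lo s k', up s k') := by
        rw [bs_lt hk.1 hjk]
        have : k - 1 - j = k' := by omega
        rw [this]
      have ho1 : Opn (sflip k s) j := by
        refine ⟨by rw [bs_len hk.1]; exact lt_trans hjk hk.1, ?_⟩
        unfold up lo
        rw [ej]
        simp only
        intro hcon
        refine hk'.2 ?_
        rw [← hcon]
        exact par_par (by have := h.two_le_lo hk'n; omega)
      have h2 : IsSt n (sflip j (sflip k s)) := h1.sflip (by omega)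
      have h5 := bs_dd_le h1 ho1
      have e1 : (sflip j (sflip k s)).2.getD k (0, 0) = (s.1, lo s k) := by
        rw [bs_gt ho1.1 hjk, bs_eq hk.1]
      have e2 : (sflip j (sflip k s)).1 = lo s k' := by
        rw [bs_sflip ho1.1]
        show ((sflip k s).2.getD j (0, 0)).1 = _
        rw [ej]
      have ho2 : Opn (sflip j (sflip k s)) k := by
        refine ⟨by rw [bs_len ho1.1, bs_len hk.1]; exact hk.1, ?_⟩
        unfold up lo
        rw [e1]
        simp only
        intro hcon
        have h6 : par (lo s k) = s.1 := by
          rw [← hcon]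
          exact par_par (by have := h.two_le_top; omega)
        rw [hp] at h6
        exact h.top_ne_lo hk'n h6.symm
      have h6 := bs_dd_lt h2 ho2 (by
        rw [e2]
        have : lo (sflip j (sflip k s)) k = lo s k := by
          unfold lo
          rw [e1]
          rfl
        rw [this]
        exact hp)
      refine ⟨[k, j, k], by simp, ?_, ?_⟩
      · intro i hi
        simp only [List.mem_cons, List.not_mem_nil, or_false] at hi
        rcases hi with rfl | rfl | rfl
        · exact hk.1
        · have := hk.1
          omega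
        · exact hk.1
      · simp only [sflips, List.foldl_cons, List.foldl_nil, List.length_cons, List.length_nil]
        omega

/-- flips of the list and of the state -/
theorem bs_pflips {n : ℕ} {a : List ℤ} (ha : IsSP n a) (ks : List ℕ) (hks : ∀ k ∈ ks, k < n) :
    IsSP n (pflips (ks.map (· + 1)) a) ∧
      st n (pflips (ks.map (· + 1)) a) = sflips ks (st n a) := by
  induction ks generalizing a with
  | nil => exact ⟨ha, rfl⟩
  | cons k ks ih =>
    have h1 := isSP_pflip ha (k + 1)
    have h2 := ih h1 fun j hj => hks j (List.mem_cons_of_mem _ hj)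
    have h3 := st_pflip ha (hks k (by simp))
    rw [h3] at h2
    exact h2

theorem bs_reduce (D : ℕ) (hD : ∀ n s, IsSt n s → D ≤ dd s.2 → Prof s) (n : ℕ) (d : ℕ) :
    ∀ a : List ℤ, IsSP n a → dd (gaps n a) = d → ∃ ks : List ℕ, (∀ k ∈ ks, 1 ≤ k ∧ k ≤ n) ∧
      pflips ks a = ident n ∧ 8 * ks.length ≤ 15 * d + 9 * min d D := by
  induction d using Nat.strong_induction_on with
  | _ d ih =>
    intro a ha hd
    rcases Nat.eq_zero_or_pos d with h0 | h0
    · have h1 : a = ident n := eq_ident_of_dd ha (by rw [hd, h0])
      exact ⟨[], by simp, h1, by simp⟩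
    · have hs : IsSt n (st n a) := ⟨a, ha, rfl⟩
      have hd' : dd (st n a).2 = d := hd
      obtain ⟨ks, hne, hks, hle⟩ : ∃ ks : List ℕ, ks ≠ [] ∧ (∀ k ∈ ks, k < n) ∧
          dd (sflips ks (st n a)).2 < d ∧ 8 * ks.length + (15 * dd (sflips ks (st n a)).2 +
            9 * min (dd (sflips ks (st n a)).2) D) ≤ 15 * d + 9 * min d D := by
        by_cases hDd : D ≤ d
        · obtain ⟨ks, h1, h2, h3⟩ := hD n _ hs (by rw [hd']; exact hDd)
          rw [hd'] at h3
          have h4 : 0 < ks.length := List.length_pos_iff.2 h1
          refine ⟨ks, h1, fun k hk => by rw [← hs.length]; exact h2 k hk, by omega, ?_⟩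
          have h5 : min (dd (sflips ks (st n a)).2) D ≤ min d D := min_le_min_right _ (by omega)
          omega
        · obtain ⟨ks, h1, h2, h3⟩ := basic_step hs (by rw [hd']; exact h0)
          rw [hd'] at h3
          have h4 : 0 < ks.length := List.length_pos_iff.2 h1
          refine ⟨ks, h1, fun k hk => by rw [← hs.length]; exact h2 k hk, by omega, ?_⟩
          have h5 : min d D = d := by omega
          have h6 : min (dd (sflips ks (st n a)).2) D = dd (sflips ks (st n a)).2 := by omega
          omega
      obtain ⟨h1, h2⟩ := bs_pflips ha ks hks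
      obtain ⟨hlt, hle⟩ := hle
      have h3 : dd (gaps n (pflips (ks.map (· + 1)) a)) = dd (sflips ks (st n a)).2 := by
        rw [← h2]
        rfl
      obtain ⟨ls, g1, g2, g3⟩ := ih _ hlt _ h1 h3
      refine ⟨ks.map (· + 1) ++ ls, fun k hk => ?_, ?_, ?_⟩
      · rw [List.mem_append, List.mem_map] at hk
        rcases hk with ⟨k0, hk0, rfl⟩ | hk
        · have := hks k0 hk0
          omega
        · exact g1 k hk
      · unfold pflips at g2 ⊢
        rw [List.foldl_append]
        exact g2
      · rw [List.length_append, List.length_map]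
        omega

theorem final_bound (D : ℕ) (hD : ∀ n s, IsSt n s → D ≤ dd s.2 → Prof s) (n : ℕ) (a : List ℤ)
    (ha : IsSP n a) : ∃ ks : List ℕ, (∀ k ∈ ks, 1 ≤ k ∧ k ≤ n) ∧ pflips ks a = ident n ∧
      8 * ks.length ≤ 15 * n + 24 * D := by
  obtain ⟨ks, h1, h2, h3⟩ := bs_reduce D hD n _ a ha rfl
  refine ⟨ks, h1, h2, ?_⟩
  have h4 : dd (gaps n a) ≤ n := by
    have hs : IsSt n (st n a) := ⟨a, ha, rfl⟩
    have h5 : dd (gaps n a) ≤ (gaps n a).length := List.countP_le_length
    have h6 : (gaps n a).length = n := hs.length
    omega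
  have h5 : min (dd (gaps n a)) D ≤ D := min_le_right _ _
  omega

end BP
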