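import Pool.Agent.Work.MP_475aca_co.SoundB

/-! # Coverage of the words -/

namespace BP

/-- `w 0 < … < w (L - 1)` are consecutive open gaps with chords of type `LU` only -/
structure Win0 (s : St) (L : ℕ) (w : ℕ → ℕ) : Prop where
  mono : ∀ i j, i < j → j < L → w i < w j
  lu : ∀ i < L, LUg s (w i)
  consec : ∀ k, Opn s k → w 0 ≤ k → k ≤ w (L - 1) → ∃ i < L, k = w i

/-- Hint: `par (lo s (w j)) = up s (w (j + 1))` is impossible by `IsSt.cross` for the set of the
entries in `(w j, w (j + 1)]` : all gaps strictly between are closed. -/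
theorem Win0.ne {n : ℕ} {s : St} {L : ℕ} {w : ℕ → ℕ} (hs : IsSt n s) (hw : Win0 s L w) {j : ℕ}
    (hj : j + 1 < L) : par (lo s (w j)) ≠ up s (w (j + 1)) := by
  intro he
  have hlen := hs.length
  have hlt : w j < w (j + 1) := hw.mono _ _ (by omega) hj
  have hn : w (j + 1) < n := by rw [← hlen]; exact (hw.lu _ hj).1.1
  have h0 : w 0 ≤ w j := SoundB_mono hw.mono (Nat.zero_le j) (by omega)
  have h1 : w (j + 1) ≤ w (L - 1) := SoundB_mono hw.mono (by omega) (by omega)
  have hcl : ∀ k, w j < k → k < w (j + 1) → par (up s k) = lo s k := by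
    intro k hk hk'
    by_contra hc
    obtain ⟨i, hi, rfl⟩ := hw.consec k ⟨by omega, hc⟩ (by omega) (by omega)
    have h2 := SoundB_lt hw.mono (by omega) hk
    have h3 := SoundB_lt hw.mono hi hk'
    omega
  obtain ⟨j0, hj0, p, hp, hp', -⟩ := hs.cross (J := Finset.Ioc (w j) (w (j + 1)))
    ⟨w (j + 1), Finset.mem_Ioc.2 ⟨hlt, le_rfl⟩⟩
    (fun i hi => by rw [Finset.mem_Ioc] at hi; omega)
  rw [Finset.mem_Ioc] at hj0
  rcases hp with rfl | rfl
  · by_cases hc : j0 - 1 = w j
    · refine (hp' (w (j + 1)) (Finset.mem_Ioc.2 ⟨hlt, le_rfl⟩)).2 ?_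
      rw [hc, he]
    · refine (hp' (j0 - 1) (Finset.mem_Ioc.2 ⟨by omega, by omega⟩)).2 ?_
      rw [← hcl (j0 - 1) (by omega) (by omega)]
      exact par_par (le_trans (by norm_num) (hs.two_le_up (by omega)))
  · by_cases hc : j0 = w (j + 1)
    · refine (hp' (w j + 1) (Finset.mem_Ioc.2 ⟨by omega, by omega⟩)).1 ?_
      rw [hc, ← he, Nat.add_sub_cancel]
      exact par_par (le_trans (by norm_num) (hs.two_le_lo (by omega)))
    · refine (hp' (j0 + 1) (Finset.mem_Ioc.2 ⟨by omega, by omega⟩)).1 ?_
      rw [Nat.add_sub_cancel]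
      exact hcl j0 (by omega) (by omega)

theorem CovB_trunc_length : ∀ (l : List ℕ) (i : ℕ), (trunc i l).length = l.length := by
  intro l
  induction l with
  | nil => intro i; simp [trunc]
  | cons d l ih => intro i; simp [trunc, ih]

theorem CovB_trunc_getD : ∀ (l : List ℕ) (i j : ℕ), j < l.length →
    (trunc i l).getD j 0 = if l.getD j 0 ≤ i + j then l.getD j 0 else 0 := by
  intro l
  induction l with
  | nil => intro i j hj; simp at hj
  | cons d l ih =>
    intro i j hj
    rcases j with _ | j
    · rw [trunc]
      rcases hb : Nat.ble d i with _ | _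
      · have hc : ¬ d ≤ i := by
          intro hc
          rw [Nat.ble_eq_true_of_le hc] at hb
          exact absurd hb (by decide)
        simp [hc]
      · have hc : d ≤ i := Nat.le_of_ble_eq_true hb
        simp [hc]
    · rw [trunc]
      have h1 := ih (Nat.succ i) j (by simpa using hj)
      simp only [List.getD_cons_succ]
      rw [h1, show Nat.succ i + j = i + (j + 1) by rw [Nat.succ_eq_add_one]; omega]

theorem CovB_suf_length (i : ℕ) (V : List ℕ) : (suf i V).length = V.length - i := by
  rw [suf, CovB_trunc_length, List.length_drop]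

theorem CovB_suf_getD {i j : ℕ} {V : List ℕ} (h : i + j < V.length) :
    (suf i V).getD j 0 = if V.getD (i + j) 0 ≤ j then V.getD (i + j) 0 else 0 := by
  have h1 : (V.drop i).getD j 0 = V.getD (i + j) 0 := by
    simp [List.getD_eq_getElem?_getD, List.getElem?_drop]
  rw [suf, CovB_trunc_getD _ _ _ (by rw [List.length_drop]; omega), h1, Nat.zero_add]

theorem Wd.suf {s : St} {V : List ℕ} {w : ℕ → ℕ} (h : Wd s V w) {i : ℕ} (hi : i < V.length) :
    Wd s (suf i V) fun j => w (i + j) := by
  refine ⟨?_, ?_, ?_, ?_, ?_⟩
  · intro a b hab hb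
    rw [CovB_suf_length] at hb
    exact h.mono _ _ (by omega) (by omega)
  · intro a ha
    rw [CovB_suf_length] at ha
    exact h.lu _ (by omega)
  · intro k hk h1 h2
    rw [CovB_suf_length] at h2
    simp only [Nat.add_zero] at h1
    have h0 : w 0 ≤ w i := SoundB_mono h.mono (Nat.zero_le i) hi
    have h2' : k ≤ w (V.length - 1) := by
      rw [show V.length - 1 = i + (V.length - i - 1) by omega]
      exact h2
    obtain ⟨t, ht, rfl⟩ := h.consec k hk (by omega) h2'
    have hit : i ≤ t := by
      by_contra hc
      have := h.mono t i (by omega) hi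
      omega
    refine ⟨t - i, by rw [CovB_suf_length]; omega, ?_⟩
    rw [show i + (t - i) = t by omega]
  · intro j hj hne
    rw [CovB_suf_length] at hj
    rw [CovB_suf_getD (by omega)] at hne ⊢
    split at hne
    · rename_i hle
      rw [if_pos hle]
      obtain ⟨h1, h2⟩ := h.ch (i + j) (by omega) hne
      refine ⟨hle, ?_⟩
      rw [show i + (j - V.getD (i + j) 0) = i + j - V.getD (i + j) 0 by omega]
      exact h2
    · exact absurd rfl hne
  · intro a b hab hb he
    rw [CovB_suf_length] at hb
    rw [CovB_suf_getD (by omega)]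
    have h1 := h.conv (i + a) (i + b) (by omega) (by omega) he
    rw [h1, if_pos (by omega)]
    omega

theorem CovB_hasNext_true {j : ℕ} : ∀ {l : List ℕ} {i : ℕ}, hasNext j i l = true →
    ∃ t < l.length, l.getD t 0 ≠ 0 ∧ j + l.getD t 0 = i + t := by
  intro l
  induction l with
  | nil => intro i h; simp [hasNext] at h
  | cons d l ih =>
    intro i h
    rw [hasNext] at h
    rcases hc : (!Nat.beq d 0 && Nat.beq (Nat.add j d) i) with _ | _
    · rw [hc] at h
      obtain ⟨t, ht, h1, h2⟩ := ih h
      refine ⟨t + 1, by simpa using ht, by simpa using h1, ?_⟩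
      rw [List.getD_cons_succ, h2, Nat.succ_eq_add_one]
      omega
    · rw [Bool.and_eq_true, Bool.not_eq_true'] at hc
      refine ⟨0, by simp, ?_, ?_⟩
      · intro h0
        have h0' : d = 0 := by simpa using h0
        rw [h0', Nat.beq_refl] at hc
        exact absurd hc.1 (by decide)
      · have := Nat.eq_of_beq_eq_true hc.2
        simpa using this

theorem CovB_getD_append {V : List ℕ} {d j : ℕ} (h : j < V.length) :
    (V ++ [d]).getD j 0 = V.getD j 0 := by
  simp [List.getD_eq_getElem?_getD, List.getElem?_append_left h]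

theorem CovB_getD_last {V : List ℕ} {d : ℕ} : (V ++ [d]).getD V.length 0 = d := by
  simp [List.getD_eq_getElem?_getD]

/-- a window with one more gap -/
theorem CovB_ext {s : St} {V : List ℕ} {w : ℕ → ℕ} {L d : ℕ} (hw : Win0 s L w) (h : Wd s V w)
    (h2 : V.length < L)
    (hch : d ≠ 0 → d ≤ V.length ∧ par (lo s (w (V.length - d))) = up s (w V.length))
    (hconv : ∀ i < V.length, par (lo s (w i)) = up s (w V.length) → d = V.length - i) :
    Wd s (V ++ [d]) w := by
  have hl : (V ++ [d]).length = V.length + 1 := by simp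
  refine ⟨?_, ?_, ?_, ?_, ?_⟩
  · intro i j hij hj
    rw [hl] at hj
    exact hw.mono i j hij (by omega)
  · intro i hi
    rw [hl] at hi
    exact hw.lu i (by omega)
  · intro k hk h3 h4
    rw [hl, Nat.add_sub_cancel] at h4
    have h5 : w V.length ≤ w (L - 1) := SoundB_mono hw.mono (by omega) (by omega)
    obtain ⟨i, hi, rfl⟩ := hw.consec k hk h3 (by omega)
    refine ⟨i, ?_, rfl⟩
    rw [hl]
    by_contra hc
    have := hw.mono V.length i (by omega) hi
    omega
  · intro j hj hne
    rw [hl] at hj
    by_cases hjV : j < V.length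
    · rw [CovB_getD_append hjV] at hne ⊢
      exact h.ch j hjV hne
    · have hjV' : j = V.length := by omega
      subst hjV'
      rw [CovB_getD_last] at hne ⊢
      exact hch hne
  · intro i j hij hj he
    rw [hl] at hj
    by_cases hjV : j < V.length
    · rw [CovB_getD_append hjV]
      exact h.conv i j hij hjV he
    · have hjV' : j = V.length := by omega
      subst hjV'
      rw [CovB_getD_last]
      exact hconv i hij he

/-- the next gap of the window -/
theorem Wd.exts {n : ℕ} {s : St} {V : List ℕ} {w : ℕ → ℕ} {L : ℕ} (hs : IsSt n s)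
    (hw : Win0 s L w) (h : Wd s V w) (h1 : 1 ≤ V.length) (h2 : V.length < L) :
    ∃ V' ∈ exts V, Wd s V' w := by
  have hlen := hs.length
  obtain ⟨k, hkj, hk, hpar⟩ := (hw.lu V.length h2).2.1
  have hkn : k < n := by rw [← hlen]; exact hk.1
  have hVn : w V.length < n := by rw [← hlen]; exact (hw.lu _ h2).1.1
  have hpar' : par (lo s k) = up s (w V.length) := by
    rw [← hpar, par_par (le_trans (by norm_num) (hs.two_le_up hVn))]
  have huniq : ∀ i < V.length, par (lo s (w i)) = up s (w V.length) → w i = k := by
    intro i hi he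
    have hin : w i < n := by rw [← hlen]; exact (hw.lu i (by omega)).1.1
    refine hs.lo_inj hin hkn (par_inj ?_ ?_ (he.trans hpar'.symm))
    · exact le_trans (by norm_num) (hs.two_le_lo hin)
    · exact le_trans (by norm_num) (hs.two_le_lo hkn)
  by_cases hk0 : k < w 0
  · refine ⟨V ++ [0], by rw [BP.exts]; exact List.mem_cons_self, CovB_ext hw h h2 ?_ ?_⟩
    · intro hc; exact absurd rfl hc
    · intro i hi he
      have h3 := huniq i hi he
      have h4 := SoundB_mono hw.mono (Nat.zero_le i) (by omega)
      omega
  · have h5 : w V.length ≤ w (L - 1) := SoundB_mono hw.mono (by omega) (by omega)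
    obtain ⟨j, hj, rfl⟩ := hw.consec k hk (by omega) (by omega)
    have hjV : j < V.length := SoundB_lt hw.mono hj hkj
    have hj1 : j + 1 ≠ V.length := by
      intro hc
      refine hw.ne hs (j := j) (by omega) ?_
      rw [hc]
      exact hpar'
    have hj2 : hasNext j 0 V = false := by
      rcases hb : hasNext j 0 V with _ | _
      · rfl
      · obtain ⟨t, ht, h3, h4⟩ := CovB_hasNext_true hb
        obtain ⟨h6, h7⟩ := h.ch t ht h3
        rw [show t - V.getD t 0 = j by omega, hpar'] at h7
        have htn : w t < n := by rw [← hlen]; exact (hw.lu t (by omega)).1.1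
        have h8 := hs.up_inj hVn htn h7
        have h9 := hw.mono t V.length ht h2
        omega
    refine ⟨V ++ [V.length - j], ?_, CovB_ext hw h h2 ?_ ?_⟩
    · rw [BP.exts]
      refine List.mem_cons_of_mem _ (List.mem_map.2 ⟨j, List.mem_filter.2
        ⟨List.mem_range.2 hjV, ?_⟩, rfl⟩)
      rw [hj2]
      have : Nat.beq (Nat.succ j) V.length = false := by
        rcases hb : Nat.beq (Nat.succ j) V.length with _ | _
        · rfl
        · exact absurd (Nat.eq_of_beq_eq_true hb) hj1
      rw [this]
      rfl
    · intro _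
      refine ⟨by omega, ?_⟩
      rw [show V.length - (V.length - j) = j by omega]
      exact hpar'
    · intro i hi he
      have h3 := SoundB_inj hw.mono (by omega) hj (huniq i hi he)
      rw [h3]

theorem CovB_eqL : ∀ {a b : List ℕ}, eqL a b = true → a = b := by
  intro a
  induction a with
  | nil =>
    intro b h
    rcases b with _ | ⟨y, b⟩
    · rfl
    · simp [eqL] at h
  | cons x a ih =>
    intro b h
    rcases b with _ | ⟨y, b⟩
    · simp [eqL] at h
    · rw [eqL] at h
      rcases hb : Nat.beq x y with _ | _
      · rw [hb] at h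
        simp at h
      · rw [hb] at h
        rw [Nat.eq_of_beq_eq_true hb, ih h]

theorem CovB_exts_length {V V' : List ℕ} (h : V' ∈ exts V) : 1 ≤ V'.length := by
  rw [BP.exts] at h
  rcases List.mem_cons.1 h with rfl | h
  · simp
  · obtain ⟨j, -, rfl⟩ := List.mem_map.1 h
    simp

theorem CovB_getD_mem {C : List (List ℕ)} {m : ℕ} (h : 1 ≤ (C.getD m []).length) :
    C.getD m [] ∈ C := by
  rw [List.getD_eq_getElem?_getD] at h ⊢
  rcases ho : C[m]? with _ | x
  · rw [ho] at h
    simp at h
  · simp only [Option.getD_some]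
    exact List.mem_of_getElem? ho

theorem covR_sound {L : ℕ} {C : List (List ℕ)} (hC : ∀ V ∈ C, WinB ⟨[], V, []⟩) {f : ℕ}
    {l : List ℕ} {todo : List (List ℕ)} (h : covR L C f l todo = true) :
    ∀ V ∈ todo, 1 ≤ V.length → ∀ n s w, IsSt n s → Win0 s L w → Wd s V w → Prof s := by
  induction f generalizing l todo with
  | zero =>
    rcases todo with _ | ⟨V, todo⟩
    · intro V hV; simp at hV
    · simp [covR] at h
  | succ f ih =>
    rcases todo with _ | ⟨V, todo⟩
    · intro V hV; simp at hV
    · unfold covR at h
      split at h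
      · split at h
        · rename_i hcond
          rw [Bool.and_eq_true] at hcond
          obtain ⟨hc1, hc2⟩ := hcond
          have hc1' := Nat.le_of_ble_eq_true hc1
          have hc2' := CovB_eqL hc2
          intro V' hV' hlen n s w hs hw hWd
          rcases List.mem_cons.1 hV' with rfl | hV'
          · have hmem := CovB_getD_mem (C := C) (by rw [← hc2', CovB_suf_length]; omega)
            rw [← hc2'] at hmem
            refine hC _ hmem n s hs ⟨?_, _, w, w, hWd.suf (by omega), ?_, ?_, ?_, ?_⟩
            · simp only []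
              rw [CovB_suf_length]
              omega
            · intro i j _ hj; simp at hj
            · intro i hi; simp at hi
            · intro i j _ hj; simp at hj
            · intro i hi; simp at hi
          · exact ih h V' hV' hlen n s w hs hw hWd
        · exact absurd h (by simp)
      · split at h
        · rename_i hcond
          have hc1 := Nat.le_of_ble_eq_true hcond
          intro V' hV' hlen n s w hs hw hWd
          rcases List.mem_cons.1 hV' with rfl | hV'
          · obtain ⟨V2, hV2, hW2⟩ := hWd.exts hs hw hlen (by omega)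
            exact ih h V2 (List.mem_append_left _ hV2) (CovB_exts_length hV2) n s w hs hw hW2
          · exact ih h V' (List.mem_append_right _ hV') hlen n s w hs hw hWd
        · exact absurd h (by simp)
      · exact absurd h (by simp)

theorem cov_sound {L : ℕ} (hL : 1 ≤ L) {C : List (List ℕ)} (hC : ∀ V ∈ C, WinB ⟨[], V, []⟩)
    {f : ℕ} {l : List ℕ} (h : covR L C f l [[0]] = true) {n : ℕ} {s : St} {w : ℕ → ℕ}
    (hs : IsSt n s) (hw : Win0 s L w) : Prof s := by
  refine covR_sound hC h [0] (by simp) (by simp) n s w hs hw ⟨?_, ?_, ?_, ?_, ?_⟩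
  · intro i j hij hj
    simp at hj
    omega
  · intro i hi
    simp at hi
    subst hi
    exact hw.lu 0 (by omega)
  · intro k _ h1 h2
    simp at h2
    exact ⟨0, by simp, by omega⟩
  · intro j hj hne
    simp at hj
    subst hj
    simp at hne
  · intro i j hij hj
    simp at hj
    omega

end BP
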