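import Pool.Agent.Work.MP_475aca_co.RootA
import Pool.Agent.Work.MP_475aca_co.CovB

/-! # Case B : few joinable gaps -/

namespace BP

theorem CountB_one {O : Finset ℕ} {n : ℕ} {f : ℕ → ℕ} {v : ℕ} (hO : ∀ k ∈ O, k < n)
    (hf : ∀ k < n, ∀ k' < n, par (f k) = par (f k') → k = k') :
    (O.filter fun k => par (f k) = v).card ≤ 1 := by
  rw [Finset.card_le_one]
  intro a ha b hb
  rw [Finset.mem_filter] at ha hb
  exact hf a (hO a ha.1) b (hO b hb.1) (ha.2.trans hb.2.symm)

theorem CountB_inj {A B : Finset ℕ} {n : ℕ} {f g : ℕ → ℕ} (hA : ∀ k ∈ A, k < n)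
    (hf : ∀ k < n, ∀ k' < n, par (f k) = par (f k') → k = k')
    (hAB : ∀ k ∈ A, ∃ k' ∈ B, par (f k) = g k') : A.card ≤ B.card := by
  refine Finset.card_le_card_of_forall_subsingleton (fun k k' => par (f k) = g k')
    (fun k hk => by
      obtain ⟨k', h1, h2⟩ := hAB k hk
      exact ⟨k', h1, h2⟩) ?_
  intro b _ x hx y hy
  exact hf x (hA x hx.1) y (hA y hy.1) (hx.2.trans hy.2.symm)

theorem CountB_card4 (A B C D : Finset ℕ) :
    (A ∪ B ∪ C ∪ D).card ≤ A.card + B.card + C.card + D.card := by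
  have h1 := Finset.card_union_le (A ∪ B ∪ C) D
  have h2 := Finset.card_union_le (A ∪ B) C
  have h3 := Finset.card_union_le A B
  omega

/-- Hint: an open gap which is not `LUg` has a bad upper port or a bad lower port. Upper port `u` of
`k`: `par u` is `s.1` or `1` (at most two gaps), the upper port of `k' < k` (then `Jn s k'`), a
port of `k' > k` (then `Jn s k`) : at most `2 J + 2` bad upper ports, `J = {k | Jn s k}.ncard`.
Lower port of `k`: partner `s.1` or `1` (at most two), an upper port of `k' < k` (then `Jn s k'`),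
a lower port: the number of the lower ports with partner a lower port or `s.1` or `1` is the number
of the upper ports with partner an upper port or `s.1` or `1` (the numbers of upper ports, of lower
ports are equal, and the chords between upper and lower ports cancel), which is `≤ 2 J + 2`. -/
theorem count_bad {n : ℕ} {s : St} (h : IsSt n s) :
    {k | Opn s k ∧ ¬LUg s k}.ncard ≤ 8 * {k | Jn s k}.ncard + 8 := by
  classical
  have hlen := h.length
  have hup1 : ∀ k < n, 1 ≤ up s k := fun k hk => le_trans (by norm_num) (h.two_le_up hk)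
  have hlo1 : ∀ k < n, 1 ≤ lo s k := fun k hk => le_trans (by norm_num) (h.two_le_lo hk)
  have hup : ∀ k < n, ∀ k' < n, par (up s k) = par (up s k') → k = k' := fun k hk k' hk' e =>
    h.up_inj hk hk' (par_inj (hup1 k hk) (hup1 k' hk') e)
  have hlo : ∀ k < n, ∀ k' < n, par (lo s k) = par (lo s k') → k = k' := fun k hk k' hk' e =>
    h.lo_inj hk hk' (par_inj (hlo1 k hk) (hlo1 k' hk') e)
  -- the sets
  obtain ⟨O, hO⟩ : ∃ O : Finset ℕ, O = (Finset.range n).filter (Opn s) := ⟨_, rfl⟩
  obtain ⟨JF, hJF⟩ : ∃ JF : Finset ℕ, JF = (Finset.range n).filter (Jn s) := ⟨_, rfl⟩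
  have mO : ∀ k, k ∈ O ↔ Opn s k := by
    intro k
    rw [hO, Finset.mem_filter, Finset.mem_range]
    exact ⟨fun h => h.2, fun h => ⟨by rw [← hlen]; exact h.1, h⟩⟩
  have hOn : ∀ k ∈ O, k < n := by
    intro k hk
    rw [hO, Finset.mem_filter, Finset.mem_range] at hk
    exact hk.1
  have mJ : ∀ k, k ∈ JF ↔ Jn s k := by
    intro k
    rw [hJF, Finset.mem_filter, Finset.mem_range]
    exact ⟨fun h => h.2, fun h => ⟨by rw [← hlen]; exact h.1.1, h⟩⟩
  have hJc : {k | Jn s k}.ncard = JF.card := by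
    have : {k | Jn s k} = (JF : Set ℕ) := by
      ext k
      rw [Finset.mem_coe, mJ]
      rfl
    rw [this, Set.ncard_coe_finset]
  -- the parts of the upper ports
  have hS1 := CountB_one (v := s.1) hOn hup
  have hS2 := CountB_one (v := 1) hOn hup
  have hT1 := CountB_one (v := s.1) hOn hlo
  have hT2 := CountB_one (v := 1) hOn hlo
  obtain ⟨S1, eS1⟩ : ∃ S : Finset ℕ, S = O.filter fun k => par (up s k) = s.1 := ⟨_, rfl⟩
  obtain ⟨S2, eS2⟩ : ∃ S : Finset ℕ, S = O.filter fun k => par (up s k) = 1 := ⟨_, rfl⟩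
  obtain ⟨T1, eT1⟩ : ∃ S : Finset ℕ, S = O.filter fun k => par (lo s k) = s.1 := ⟨_, rfl⟩
  obtain ⟨T2, eT2⟩ : ∃ S : Finset ℕ, S = O.filter fun k => par (lo s k) = 1 := ⟨_, rfl⟩
  obtain ⟨U2, eU2⟩ : ∃ S : Finset ℕ, S = O.filter fun k => ∃ k' ∈ O, k' < k ∧
    par (up s k) = up s k' := ⟨_, rfl⟩
  obtain ⟨T3, eT3⟩ : ∃ S : Finset ℕ, S = O.filter fun k => ∃ k' ∈ O, k' < k ∧
    par (lo s k) = up s k' := ⟨_, rfl⟩
  obtain ⟨U, eU⟩ : ∃ S : Finset ℕ, S = O.filter fun k => ∃ k' ∈ O,
    par (up s k) = lo s k' := ⟨_, rfl⟩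
  obtain ⟨L', eL'⟩ : ∃ S : Finset ℕ, S = O.filter fun k => ∃ k' ∈ O,
    par (lo s k) = up s k' := ⟨_, rfl⟩
  obtain ⟨LL, eLL⟩ : ∃ S : Finset ℕ, S = O.filter fun k => ∃ k' ∈ O,
    par (lo s k) = lo s k' := ⟨_, rfl⟩
  rw [← eS1] at hS1
  rw [← eS2] at hS2
  rw [← eT1] at hT1
  rw [← eT2] at hT2
  have hU2 : U2.card ≤ JF.card := by
    refine CountB_inj (n := n) (f := up s) (g := up s) ?_ hup ?_
    · intro k hk
      rw [eU2, Finset.mem_filter] at hk
      exact hOn k hk.1
    · intro k hk
      rw [eU2, Finset.mem_filter] at hk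
      obtain ⟨hk, k', hk', hlt, he⟩ := hk
      refine ⟨k', (mJ k').2 ⟨(mO k').1 hk', k, hlt, (mO k).1 hk, Or.inl ?_⟩, he⟩
      rw [← he, par_par (hup1 k (hOn k hk))]
  have hT3 : T3.card ≤ JF.card := by
    refine CountB_inj (n := n) (f := lo s) (g := up s) ?_ hlo ?_
    · intro k hk
      rw [eT3, Finset.mem_filter] at hk
      exact hOn k hk.1
    · intro k hk
      rw [eT3, Finset.mem_filter] at hk
      obtain ⟨hk, k', hk', hlt, he⟩ := hk
      refine ⟨k', (mJ k').2 ⟨(mO k').1 hk', k, hlt, (mO k).1 hk, Or.inr ?_⟩, he⟩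
      rw [← he, par_par (hlo1 k (hOn k hk))]
  have hUL : U.card ≤ L'.card := by
    refine CountB_inj (n := n) (f := up s) (g := lo s) ?_ hup ?_
    · intro k hk
      rw [eU, Finset.mem_filter] at hk
      exact hOn k hk.1
    · intro k hk
      rw [eU, Finset.mem_filter] at hk
      obtain ⟨hk, k', hk', he⟩ := hk
      refine ⟨k', ?_, he⟩
      rw [eL', Finset.mem_filter]
      exact ⟨hk', k, hk, by rw [← he, par_par (hup1 k (hOn k hk))]⟩
  have hLLL : LL.card + L'.card ≤ O.card := by
    rw [← Finset.card_union_of_disjoint]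
    · refine Finset.card_le_card (Finset.union_subset ?_ ?_)
      · rw [eLL]; exact Finset.filter_subset _ _
      · rw [eL']; exact Finset.filter_subset _ _
    · rw [Finset.disjoint_left]
      intro k hk hk'
      rw [eLL, Finset.mem_filter] at hk
      rw [eL', Finset.mem_filter] at hk'
      obtain ⟨-, k1, h1, e1⟩ := hk
      obtain ⟨-, k2, h2, e2⟩ := hk'
      exact h.up_ne_lo (hOn k2 h2) (hOn k1 h1) (e2.symm.trans e1)
  have hOU : O.card ≤ U.card + (S1.card + S2.card + U2.card + JF.card) := by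
    have hsub : O ⊆ U ∪ (S1 ∪ S2 ∪ U2 ∪ JF) := by
      intro k hk
      rcases h.partner_cases ((mO k).1 hk) (Or.inl rfl) with e | e | ⟨k', hk', hne, e | e⟩
      · refine Finset.mem_union_right _ (Finset.mem_union_left _ (Finset.mem_union_left _
          (Finset.mem_union_left _ ?_)))
        rw [eS1, Finset.mem_filter]
        exact ⟨hk, e⟩
      · refine Finset.mem_union_right _ (Finset.mem_union_left _ (Finset.mem_union_left _
          (Finset.mem_union_right _ ?_)))
        rw [eS2, Finset.mem_filter]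
        exact ⟨hk, e⟩
      · rcases lt_or_gt_of_ne hne with hlt | hlt
        · refine Finset.mem_union_right _ (Finset.mem_union_left _ (Finset.mem_union_right _ ?_))
          rw [eU2, Finset.mem_filter]
          exact ⟨hk, k', (mO k').2 hk', hlt, e⟩
        · refine Finset.mem_union_right _ (Finset.mem_union_right _ ?_)
          rw [mJ]
          exact ⟨(mO k).1 hk, k', hlt, hk', Or.inl e⟩
      · refine Finset.mem_union_left _ ?_
        rw [eU, Finset.mem_filter]
        exact ⟨hk, k', (mO k').2 hk', e⟩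
    have h1 := Finset.card_le_card hsub
    have h2 := Finset.card_union_le U (S1 ∪ S2 ∪ U2 ∪ JF)
    have h3 := CountB_card4 S1 S2 U2 JF
    omega
  -- the bad gaps
  have hB : {k | Opn s k ∧ ¬LUg s k} ⊆
      (((S1 ∪ S2 ∪ U2 ∪ JF) ∪ (T1 ∪ T2 ∪ T3 ∪ LL) : Finset ℕ) : Set ℕ) := by
    rintro k ⟨hk, hb⟩
    rw [Finset.mem_coe]
    have hkO := (mO k).2 hk
    by_cases hu : ∃ k', k' < k ∧ Opn s k' ∧ par (up s k) = lo s k'
    · have hl : ¬∃ k', k < k' ∧ Opn s k' ∧ par (lo s k) = up s k' := fun hl => hb ⟨hk, hu, hl⟩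
      refine Finset.mem_union_right _ ?_
      rcases h.partner_cases hk (Or.inr rfl) with e | e | ⟨k', hk', hne, e | e⟩
      · refine Finset.mem_union_left _ (Finset.mem_union_left _ (Finset.mem_union_left _ ?_))
        rw [eT1, Finset.mem_filter]
        exact ⟨hkO, e⟩
      · refine Finset.mem_union_left _ (Finset.mem_union_left _ (Finset.mem_union_right _ ?_))
        rw [eT2, Finset.mem_filter]
        exact ⟨hkO, e⟩
      · rcases lt_or_gt_of_ne hne with hlt | hlt
        · refine Finset.mem_union_left _ (Finset.mem_union_right _ ?_)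
          rw [eT3, Finset.mem_filter]
          exact ⟨hkO, k', (mO k').2 hk', hlt, e⟩
        · exact absurd ⟨k', hlt, hk', e⟩ hl
      · refine Finset.mem_union_right _ ?_
        rw [eLL, Finset.mem_filter]
        exact ⟨hkO, k', (mO k').2 hk', e⟩
    · refine Finset.mem_union_left _ ?_
      rcases h.partner_cases hk (Or.inl rfl) with e | e | ⟨k', hk', hne, e | e⟩
      · refine Finset.mem_union_left _ (Finset.mem_union_left _ (Finset.mem_union_left _ ?_))
        rw [eS1, Finset.mem_filter]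
        exact ⟨hkO, e⟩
      · refine Finset.mem_union_left _ (Finset.mem_union_left _ (Finset.mem_union_right _ ?_))
        rw [eS2, Finset.mem_filter]
        exact ⟨hkO, e⟩
      · rcases lt_or_gt_of_ne hne with hlt | hlt
        · refine Finset.mem_union_left _ (Finset.mem_union_right _ ?_)
          rw [eU2, Finset.mem_filter]
          exact ⟨hkO, k', (mO k').2 hk', hlt, e⟩
        · refine Finset.mem_union_right _ ?_
          rw [mJ]
          exact ⟨hk, k', hlt, hk', Or.inl e⟩
      · rcases lt_or_gt_of_ne hne with hlt | hlt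
        · exact absurd ⟨k', hlt, hk', e⟩ hu
        · refine Finset.mem_union_right _ ?_
          rw [mJ]
          exact ⟨hk, k', hlt, hk', Or.inr e⟩
  have h1 := Set.ncard_le_ncard hB (Finset.finite_toSet _)
  rw [Set.ncard_coe_finset] at h1
  have h2 := Finset.card_union_le (S1 ∪ S2 ∪ U2 ∪ JF) (T1 ∪ T2 ∪ T3 ∪ LL)
  have h3 := CountB_card4 S1 S2 U2 JF
  have h4 := CountB_card4 T1 T2 T3 LL
  rw [hJc]
  omega

/-- Hint: enumerate the open gaps increasingly, cut into `b + 1` blocks of length `L`. -/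
theorem window_exists {n : ℕ} {s : St} (h : IsSt n s) {b L : ℕ} (hL : 1 ≤ L)
    (hb : {k | Opn s k ∧ ¬LUg s k}.ncard ≤ b) (hd : L * (b + 1) ≤ dd s.2) :
    ∃ w, Win0 s L w := by
  classical
  have hlen := h.length
  have hf : (Set.ofPred (Opn s)).Finite := (Set.finite_lt_nat n).subset fun k hk => by
    show k < n
    rw [← hlen]
    exact hk.1
  have hD : dd s.2 = hf.toFinset.card := by
    rw [h.dd_eq, ← Set.ncard_eq_toFinset_card _ hf]
  obtain ⟨e, he⟩ : ∃ e : ℕ → ℕ, e = Nat.nth (Opn s) := ⟨_, rfl⟩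
  have emem : ∀ i, i < dd s.2 → Opn s (e i) := by
    intro i hi
    rw [he]
    exact Nat.nth_mem_of_lt_card hf (by rw [← hD]; exact hi)
  have emono : ∀ i j, i < j → j < dd s.2 → e i < e j := by
    intro i j hij hj
    rw [he]
    exact Nat.nth_lt_nth_of_lt_card hf hij (by rw [← hD]; exact hj)
  have esurj : ∀ k, Opn s k → ∃ i < dd s.2, e i = k := by
    intro k hk
    obtain ⟨i, hi, h1⟩ := Nat.exists_lt_card_finite_nth_eq hf hk
    exact ⟨i, by rw [hD]; exact hi, by rw [he]; exact h1⟩
  have hblk : ∀ t j, t ≤ b → j < L → t * L + j < dd s.2 := by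
    intro t j ht hj
    have : t * L + j < L * (b + 1) := by nlinarith
    omega
  obtain ⟨t, ht, hgood⟩ : ∃ t ≤ b, ∀ j < L, LUg s (e (t * L + j)) := by
    by_contra hcon
    have hcon' : ∀ t, ∃ j, t ≤ b → j < L ∧ ¬LUg s (e (t * L + j)) := by
      intro t
      by_cases ht : t ≤ b
      · by_contra hc
        refine hcon ⟨t, ht, fun j hj => ?_⟩
        by_contra hc'
        exact hc ⟨j, fun _ => ⟨hj, hc'⟩⟩
      · exact ⟨0, fun h => absurd h ht⟩
    choose J hJ using hcon'
    have hinj : Set.InjOn (fun t => e (t * L + J t)) (Finset.range (b + 1) : Finset ℕ) := by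
      intro t ht t' ht' hee
      rw [Finset.mem_coe, Finset.mem_range] at ht ht'
      have hee' : e (t * L + J t) = e (t' * L + J t') := hee
      have h1 := (hJ t (by omega)).1
      have h2 := (hJ t' (by omega)).1
      have h3 := SoundB_inj emono (hblk t (J t) (by omega) h1) (hblk t' (J t') (by omega) h2) hee'
      have h4 : (t * L + J t) / L = t := by
        rw [Nat.add_comm, Nat.add_mul_div_right _ _ (by omega), Nat.div_eq_of_lt h1, Nat.zero_add]
      have h5 : (t' * L + J t') / L = t' := by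
        rw [Nat.add_comm, Nat.add_mul_div_right _ _ (by omega), Nat.div_eq_of_lt h2, Nat.zero_add]
      rw [← h4, ← h5, h3]
    have hsub : (((Finset.range (b + 1)).image fun t => e (t * L + J t) : Finset ℕ) : Set ℕ) ⊆
        {k | Opn s k ∧ ¬LUg s k} := by
      intro k hk
      rw [Finset.mem_coe, Finset.mem_image] at hk
      obtain ⟨t, ht, rfl⟩ := hk
      rw [Finset.mem_range] at ht
      have h1 := hJ t (by omega)
      exact ⟨emem _ (hblk t (J t) (by omega) h1.1), h1.2⟩
    have hfin : {k | Opn s k ∧ ¬LUg s k}.Finite := hf.subset fun k hk => hk.1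
    have h6 := Set.ncard_le_ncard hsub hfin
    rw [Set.ncard_coe_finset, Finset.card_image_of_injOn hinj, Finset.card_range] at h6
    omega
  refine ⟨fun j => e (t * L + j), ?_, ?_, ?_⟩
  · intro i j hij hj
    exact emono _ _ (by omega) (hblk t j ht hj)
  · intro i hi
    exact hgood i hi
  · intro k hk h1 h2
    obtain ⟨i, hi, rfl⟩ := esurj k hk
    have h3 : t * L ≤ i := by
      by_contra hc
      have h4 := emono i (t * L) (by omega) (by simpa using hblk t 0 ht (by omega))
      simp only [Nat.add_zero] at h1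
      omega
    have h5 : i ≤ t * L + (L - 1) := by
      by_contra hc
      have h4 := emono (t * L + (L - 1)) i (by omega) hi
      omega
    exact ⟨i - t * L, by omega, by rw [show t * L + (i - t * L) = i by omega]⟩

/-- all together -/
theorem all_prof {C : List (List ℕ)} (hA : ∀ Q ∈ rootsA, Win Q)
    (hC : ∀ V ∈ C, WinB ⟨[], V, []⟩) {L f : ℕ} (hL : 1 ≤ L) {l : List ℕ}
    (h : covR L C f l [[0]] = true) : ∃ D, ∀ n s, IsSt n s → D ≤ dd s.2 → Prof s := by
  obtain ⟨N, hN⟩ := rootA hA
  refine ⟨L * (8 * N + 8 + 1), fun n s hs hd => ?_⟩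
  by_cases hJ : N ≤ {k | Jn s k}.ncard
  · exact hN n s hs hJ
  · have h1 := count_bad hs
    obtain ⟨w, hw⟩ := window_exists hs (b := 8 * N + 8) hL (by omega) hd
    exact cov_sound hL hC h hs hw

end BP
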