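import Pool.Agent.Work.MP_475aca_co.RunA
import Pool.Agent.Work.MP_475aca_co.CountB
import Pool.Agent.Work.MP_475aca_co.Basic

/-! # The final statement from the certificates -/

namespace BP

theorem final {C : List (List ℕ)} (hA : ∀ Q ∈ rootsA, Win Q)
    (hC : ∀ V ∈ C, WinB ⟨[], V, []⟩) {L f : ℕ} (hL : 1 ≤ L) {l : List ℕ}
    (h : covR L C f l [[0]] = true) : ∃ B : ℕ, ∀ (n : ℕ) (a : List ℤ), IsSP n a →
      ∃ ks : List ℕ, (∀ k ∈ ks, 1 ≤ k ∧ k ≤ n) ∧ pflips ks a = ident n ∧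
        8 * ks.length ≤ 15 * n + B := by
  obtain ⟨D, hD⟩ := all_prof hA hC hL h
  exact ⟨24 * D, fun n a ha => final_bound D hD n a ha⟩

end BP
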