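import Pool.Agent.Work.MP_475aca_co.WordsB

namespace BP

def certB2 : ℕ :=
  0x10608186080c3890c085d090e182840608080028003060820108084040e145d8a121c305080c10102800208100830c0c28810283011b6284870c142030404001600105080818712182090e2ec509101c305080c10102c004040c1040c101870a08283176283860a1018202000a00082050808207080c30510186d8a121c305080c1010005800414202061c486082438bb14244070c1420304000b0010102020820302142020c24301174243860a1018202000a000810106181820c24301174243860a1018202000a000420304142020c24302174243860a1018202000a0008081040810104182020e24302174243860a1018202000a000c103081c2821028383176284070c1420304040016001820818282081c388082f05080e1828404040014001020a18202081c388082f05080e18284040400140008306140840418185042f05880e18282020009000c084061438406203020a0c5d8a101c305080c10100058006082060a082070e2020bb14203860a10101000500040828608082070e2020bb14203860a10101000500060c30404182830a1c38b1037058a12203860a101010006000604185080410712182090e2ec509101c305080c08002c004040c18208042021010385176284870c1420302000a000c1030a14106101c48814186e0b14203860a10182020580020c2860a0c2870e2020bb14203860a101010005000410283020c08302202880c37058a101c305080808002c003061410406082870a202891b82c5080e1828404040016001810414202061c486082438bb14244070c1420302000b0010102020418208181820c24302174243860a1018202000a000828606182820e24383176284070c1420304040016001820818282081c388082f05880e1828404040014000840a103080e10308062ec5080e1828304040014000830a101861018109d14244070c1410102400106142030c20302138284880e18282020480020c28406184060426c509101c3050404090008104080418606043090c086e0b14203860a080800280030410102080c285041840612185d8a101c305080808002800208141820210385121c5d8a101c30508080800280030208205060c1040c14405176284870c1420302000a000828506103850e28302176284870c14203040400160008304143830418507061828dc16284880e18284060808180018506143840e2448a0c2840dc16284880e1828404040018000840a101820a1c2890e2f05880e18284040400140018304102010a203090c2f05880e182840404001400181080810102080810008001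

theorem runB2 : runB 1077 (dig 1077 certB2)
    ((wordsB.getD 2 []).map fun V => (⟨[], V, []⟩ : Cfg)) = true := by decide +kernel

end BP
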