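import Pool.Agent.Work.MP_475aca_co.WordsB

namespace BP

def certB5 : ℕ :=
  0x10608186080c3890c085d09101c284060808002800106143061018105101c5071b6284880e182840608080030002080c2071014105101c5071b6284880e182840608080030002080c204041440712185d8a12203050808080028002080c0850e100840e0c5d8910182840608080028004020c1050c144060210407141c6d8a12203860a1018202000c001018206184050210407141c6d8a12203860a1018202000c000420304143850414383176244060a1018202000a000c18202103850210383176244060a1018202000a0010082020820302142020c24301174244070a1018202000a000810106181820c24301174244070a1018202000a000420304142020c24302174244070a1018202000a0008081040810104182020e24302174244070a1018202000a000c103081c2821028383176284870c1420304040016001820818282081c388082f05090e1828404040014001820818282081c388082ec5090e1828404040014001040a0c101081c3880c2438de1a284880e1820202000b000820506080840e1c406121c6f0d14244070c0c101000580060c28404042870c203090e37868a1220386060808002c0020814182021038510185f0d14244070c0c1010280020814182021038510185f0d14244070c0c100028004020c103080c0851020487141c6f0d14244070c1010100058006081840604288102438a0e37868a1220386060808002c003060420608182020e283821bc34509101c303040400160018206101810a203090c2f868a1220386060808140018206101810a203090c2f868a122038606080014002010410283020c384041c5070437460b121c305080808002c002041020106181810c243021ba2c5090e1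828202000a000c105040420508103050410386121c6e0b14243860a10101000580041018408082870c2430bc16244070c14101000500041018408082870c2430bc14244070c1410100050006081830a101860a041870c2438dc16284870c1420202000b000820206141820c243021782c4880e1828202000a000820206141820c24302178284880e1828202000a000c103020c18208042021010385176284880e1420302000a000c1030a14106101c48814186e0b14243860a10182020580020c2860a0c2870e2020bb14243860a101010005000410283020c08302202880c37058a121c305080808002c003061410406082870a202891b82c5090e182840404001600181060c101081c2830e141860637460b0e18284060808002c001080018500144010e280091ba305890e18284040400160008308142020c20309102840dd182c4870c1420202000b0008205060c305020c386121c6e8c16243860a101010005800604083000c2841008282080c301063f460b121c305080c101000600021028406082870a2040a1037460a1220385080c10002c0030214302100c3820e280891bc3460a12203860a0c0800300030618186000c3010c281081ba30509101c30506080800300020814187100c08510144871bc3460a12203860a0c101030003040c203021440612185f0d14244070c0c0800280040204205080c1050e1440814206e8c14244070a10181000580020c2020e144810e103810837868a1220386080c10100060002102840e202020c202890e37868c14244070c14182020600060c2840e201810a202890e37868c14244070c14182020600060818406042880c2430be1a284880e18101000500080418206102070c042080e2838dd182c4870c1420202000b000c082040410608083890c085e8c1620385080c1010280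010814202081c2030e283821ba305890e1828404040016001050c0c3030a043840c2838dd182c4880e18284040400180008100141870c042070a2438dd182c4870c1420202000b000c0820a101030e24304121c5e0b14244060a101810005800608282040408304103030418486042e84880e1420304040014001050c0c305041c487062ec5090e18284060808002c0020818202021440812184871b82c509101c30508080800300030a0c0860a103850e2c3811b82c509101c305080808003000006141020a1040402185071b82c5090e18284040400160018204101850a083080c2430bb14243860a10101000500041028304042070a2438bb14243860a1010100050006041040a0c18208182880a2ec509101c28406040014001050a0c2070a1c506042ec509101c284060808002c0020814183041038610145e8c161c305080c080028003040c204041440712145e8c161c305080c080028001060820606083090c085e8c1620385080c101028001061020208181820c243021b82c5090e1828302000a000c1020814183041038610145e8c161c3050808080028003040c204041440712145e8c161c3050808080028003000c005020020012185071ba305890e18284040400160008308101040c0c106121810dc16284870c1410100050006080840a101820a1c2890e2f05890e18284040400140018304102010a203090c2f05890e1828404040014001810a0810102080810008001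

theorem runB5 : runB 2097 (dig 2097 certB5)
    ((wordsB.getD 5 []).map fun V => (⟨[], V, []⟩ : Cfg)) = true := by decide +kernel

end BP
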