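import Pool.Agent.Work.MP_475aca_co.WordsB

namespace BP

def certB6 : ℕ :=
  0x10608186080c3890c085d09101c3040608080028003060820108084040e145d8a1220386080c10102800208100830c0c28810283011b6284880e18203040400160010406102020a1c309102840dc16284070c1018202000b000c1850818185021c20712205881fa30589101c284060808003000208141860414107061848816207e8c16244070a1018202000c00041810c1410706180841782c4880e1820202000a000c185080c305020c384178244070a1018202000a0010083061420106181820c243011b82c5080e182030404001600105080818712182090e2f058a1220386080c10102c00404141030410304061c2820a0c5d8a101c30406080800280020814202081c2030c144061b6284880e182030404001600104040c2830418488142010dc16284070c1018202000b000c085041c403042020708206e8c16244070a1018202000c000c085041c40406201870a206e8c16244070a1018202000c00042030414385041438317a244070a1018202000a0008205060c305020c384178244070a1018202000a0010081080c1050e181820a243821b82c5080e182030404001600105080818712182090e2f058a1220386080c10002c0040414103020820302142020c24301174244070c1018202000a000810106181820c24301174244070c1018202000a000420304142020c24302174244070c1018202000a000c081040810104182020e24302174244070c1018202000a000c103081c2821028383176284880e1420304040016002040c100830e10187141c08dc16284880e182840404001800102020c3030418486022f0589101c3050404001400102020c3030418486022f0509101c3050404001400102020c1030c101871218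10bc16244070c1410100050004101810a10106121808bc16244070c1410100050004101810a10106121808bc14244070c1410100050004081020208304041c486042f0589101c305040400140008304103030418486042f0589101c305040400140008304103030418486042f0509101c30504040014001020404183041008404202070a2ec509101c304060400140018206142820c20389102830dc16284880e1420304040b00041850c141850e1c404176284880e1420202000a00082050604181060440510186e0b14244070a10101000580060c282080c1050e144051237058a1220385080808002c004020418206183860a202840e0c6e8c161c305080c1010005800614304061c301081c2890e37460b12203860a101010006000810305061c301081c2890e37460b12203860a1010100060006081840e14108141c18bd18244070c1418202000b0008081080c10508083090c085e8c12203860a0c080028001080c10508083090c085e8c12203860a08080028001020030410180840e144871ba30589101c30508080800300020a181860a083890e0c5e8c12203860a0c101000580040408406082840418486042f4589101c305060400140008406082840418486042f4589101c30504040014001830a182080e042880c2838dd182c4880e1828404040018001050c0c305041c487062f4589101c305060808002c0020208284040c3890c104871782c509101c30406040016001020a08181020c1040c0c106121810ba1220386080c10100050004143030c14107121c18bb14244070a1018202000b000828606182820e243831782c5091018284060400160010406143880c083090e2838dd182c4880e1828304040018000840a101820a1c2890e2f460a122038506080814000840a101820a1c2890e2f058a122038606080814001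0206040030e00308001c5811037058a12203860a0c101000600020c2830200189021c5811037058a12203860a0c10100060006082840200189021c5811037058a12203860a0c101000600040410406142820c203090c2ec509101c28404040014001040a0c101081c2890e2ec509101c2840404001400201041028306082060a2028bb14244070c101810005000414283081c287141810bb14244070c1018202000b0004080081c209021c18702106e8c14244060a1018202000c000c185061c086100038b02206e8c14244070c1420302000c000c185061c086100038b02206e8c14244070c1420202000c00042810c100070428309021c6e0a12203860a1018202000c00082020a14383120838b02206e8c14244070c1420202000c00080820814183041038610145e8c16203850808080028003040c204041440712145e8c16203850808080028003000c005020020012185071ba30589101c284040400160008308101040c0c106121810dc16284880e1410100050008080840a101820a1c2890e2f0589101c284040400140018304102010a203090c2f0589101c28404040014002010a0818102080810008001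

theorem runB6 : runB 1985 (dig 1985 certB6)
    ((wordsB.getD 6 []).map fun V => (⟨[], V, []⟩ : Cfg)) = true := by decide +kernel

end BP
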