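import Pool.Agent.Work.MP_475aca_co.Defs

/-! # The checker for the patterns (case A)

Everything is written with `Nat.beq`, `Nat.add`, … and structural recursion, for fast evaluation in
the kernel. -/

namespace BP

/-! ### simulation -/

/-- split at position `p`; the part above is reversed and swapped -/
def cut : List (ℕ × ℕ) → ℕ → List (ℕ × ℕ) → Option ((ℕ × ℕ) × List (ℕ × ℕ) × List (ℕ × ℕ))
  | [], _, _ => none
  | g :: K, 0, acc => some (g, acc, K)
  | g :: K, p + 1, acc => cut K p ((g.2, g.1) :: acc)

/-- simulate the path `π` from the state `(t, K)`; returns the number of gains.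
`isP t v` : the tokens `t` and `v` are known to be partners -/
def sim (isP : ℕ → ℕ → Bool) : List ℕ → ℕ → List (ℕ × ℕ) → ℕ → Option ℕ
  | [], _, _, c => some c
  | p :: π, t, K, c =>
    match cut K p [] with
    | none => none
    | some (g, acc, K2) =>
      match isP t g.2 with
      | true => sim isP π g.1 (acc ++ K2) (Nat.succ c)
      | false => sim isP π g.1 (acc ++ (t, g.2) :: K2) c

/-- `(s, t)` or `(t, s)` is in the list -/
def linked : List (ℕ × ℕ) → ℕ → ℕ → Bool
  | [], _, _ => false
  | c :: l, s, t =>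
    match Nat.beq c.1 s && Nat.beq c.2 t with
    | true => true
    | false =>
      match Nat.beq c.1 t && Nat.beq c.2 s with
      | true => true
      | false => linked l s t

/-- token of the side `σ` in column `i` -/
def tok (σ i : ℕ) : ℕ := Nat.add (Nat.mul 64 i) σ

/-- the chord relation on tokens -/
def isP (ch : List (ℕ × ℕ)) (a b : ℕ) : Bool :=
  match Nat.beq (Nat.div a 64) (Nat.div b 64) with
  | true => linked ch (Nat.mod a 64) (Nat.mod b 64)
  | false => false

/-- gap of the (role, column) pair, encoded as `8 r + i` -/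
def ugap (x : ℕ) : ℕ × ℕ :=
  (tok (Nat.mul 2 (Nat.div x 8)) (Nat.mod x 8), tok (Nat.succ (Nat.mul 2 (Nat.div x 8))) (Nat.mod x 8))

/-- number of columns used -/
def ncolA : List ℕ → ℕ → ℕ
  | [], m => m
  | x :: l, m =>
    match Nat.ble m (Nat.mod x 8) with
    | true => ncolA l (Nat.succ (Nat.mod x 8))
    | false => ncolA l m

def ncol (l : List ℕ) : ℕ := ncolA l 1

/-- sublist test (for lists of natural numbers) -/
def isSub : List ℕ → List ℕ → Bool
  | _ :: _, [] => false
  | [], _ => true
  | a :: l, b :: l' =>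
    match Nat.beq a b with
    | true => isSub l l'
    | false => isSub (a :: l) l'

/-- the word as a list of numbers `8 r + i` -/
def wcol (i : ℕ) : List ℕ → List ℕ → List ℕ
  | [], w => w
  | r :: rs, w => Nat.add (Nat.mul 8 r) i :: wcol i rs w

def wcols (rs : List ℕ) : List ℕ → List ℕ → List ℕ
  | [], w => w
  | i :: is, w => wcol i rs (wcols rs is w)

def wrd : Pat → ℕ → List ℕ
  | [], _ => []
  | b :: P, m => wcols b.2 (match b.1 with | true => List.range m | false => (List.range m).reverse)
      (wrd P m)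

/-- leaf check: the path `π` on the used gaps `us` has a profit -/
def leafOK (Q : Pt) (us π : List ℕ) : Bool :=
  match Nat.ble Q.R 31 && isSub us (wrd Q.P (ncol us)) with
  | false => false
  | true =>
    match sim (isP Q.ch) π 4095 (us.map ugap) 0 with
    | none => false
    | some c => Nat.ble (Nat.mul 8 π.length) (Nat.mul 15 c) && Nat.ble 1 c

/-! ### queries -/

/-- all insertions of `R` in a list -/
def insL (R : ℕ) : List ℕ → List (List ℕ)
  | [] => [[R]]
  | r :: rs => (R :: r :: rs) :: (insL R rs).map (r :: ·)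

/-- all insertions of the new role `R` in a pattern -/
def ins (R : ℕ) : Pat → List Pat
  | [] => [[(true, [R])], [(false, [R])]]
  | b :: P => ((true, [R]) :: b :: P) :: ((false, [R]) :: b :: P) ::
      (((insL R b.2).map fun rs => (b.1, rs) :: P) ++ (ins R P).map (b :: ·))

/-- the side `σ` is matched -/
def mtd : List (ℕ × ℕ) → ℕ → Bool
  | [], _ => false
  | c :: l, σ =>
    match Nat.beq c.1 σ || Nat.beq c.2 σ with
    | true => true
    | false => mtd l σ

def freeL (ch : List (ℕ × ℕ)) : List ℕ → List ℕ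
  | [] => []
  | r :: rs =>
    let l := match mtd ch (Nat.succ (Nat.mul 2 r)) with
      | true => freeL ch rs
      | false => Nat.succ (Nat.mul 2 r) :: freeL ch rs
    match mtd ch (Nat.mul 2 r) with
      | true => l
      | false => Nat.mul 2 r :: l

/-- unmatched sides of the roles of `P` -/
def free (Q : Pt) : List ℕ := freeL Q.ch (rls Q.P)

/-- children of the partner query for the side `σ` -/
def chP (Q : Pt) (σ : ℕ) : List Pt :=
  (((free Q).filter fun τ => !(Nat.beq (Nat.div τ 2) (Nat.div σ 2))).map
    fun τ => ⟨Q.R, Q.P, (σ, τ) :: Q.ch⟩) ++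
  ((ins Q.R Q.P).flatMap fun P' =>
    [⟨Nat.succ Q.R, P', (σ, Nat.mul 2 Q.R) :: Q.ch⟩,
      ⟨Nat.succ Q.R, P', (σ, Nat.succ (Nat.mul 2 Q.R)) :: Q.ch⟩])

/-- insert `x` after `r` -/
def insA (r x : ℕ) : List ℕ → List ℕ
  | [] => []
  | s :: l =>
    match Nat.beq s r with
    | true => s :: x :: l
    | false => s :: insA r x l

def insAfter (r x : ℕ) (P : Pat) : Pat := P.map fun b => (b.1, insA r x b.2)

/-- `r, y, r'` occur in this order in one bundle -/
def betw (P : Pat) (r y r' : ℕ) : Bool := P.any fun b => isSub [r, y, r'] b.2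

/-- `r, r'` are adjacent in the list -/
def adjL (r r' : ℕ) : List ℕ → Bool
  | [] => false
  | s :: l =>
    match Nat.beq s r with
    | false => adjL r r' l
    | true => match l with
      | [] => false
      | t :: _ => Nat.beq t r'

/-- `r, r'` are adjacent in one bundle -/
def adj (P : Pat) (r r' : ℕ) : Bool := P.any fun b => adjL r r' b.2

/-- the strings `cyc` are closed under the chords -/
def cycOK (Q : Pt) (cyc : List (ℕ × ℕ)) : Bool :=
  (match cyc with | [] => false | _ :: _ => true) &&
  cyc.all fun c => adj Q.P c.1 c.2 &&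
    (cyc.any fun c' => linked Q.ch (Nat.succ (Nat.mul 2 c.1)) (Nat.succ (Nat.mul 2 c'.1)) ||
      linked Q.ch (Nat.succ (Nat.mul 2 c.1)) (Nat.mul 2 c'.2)) &&
    (cyc.any fun c' => linked Q.ch (Nat.mul 2 c.2) (Nat.succ (Nat.mul 2 c'.1)) ||
      linked Q.ch (Nat.mul 2 c.2) (Nat.mul 2 c'.2))

/-- children of the crossing query for the closed strings `cyc` -/
def chX (Q : Pt) (cyc : List (ℕ × ℕ)) : List Pt :=
  cyc.flatMap fun c => [0, 1].flatMap fun sx =>
    ((free Q).map fun τ =>
      ⟨Nat.succ Q.R, insAfter c.1 Q.R Q.P, (Nat.add (Nat.mul 2 Q.R) sx, τ) :: Q.ch⟩) ++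
    (((ins (Nat.succ Q.R) (insAfter c.1 Q.R Q.P)).filter
        fun P2 => !(cyc.any fun d => betw P2 d.1 (Nat.succ Q.R) d.2)).flatMap
      fun P2 => [⟨Nat.add Q.R 2, P2,
          (Nat.add (Nat.mul 2 Q.R) sx, Nat.add (Nat.mul 2 Q.R) 2) :: Q.ch⟩,
        ⟨Nat.add Q.R 2, P2, (Nat.add (Nat.mul 2 Q.R) sx, Nat.add (Nat.mul 2 Q.R) 3) :: Q.ch⟩])

/-- double the columns -/
def dbl (Q : Pt) : Pt :=
  ⟨Nat.mul 2 Q.R, Q.P.map fun b =>
      (b.1, match b.1 with
        | true => b.2 ++ b.2.map (Nat.add · Q.R)
        | false => b.2.map (Nat.add · Q.R) ++ b.2),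
    Q.ch ++ Q.ch.map fun c => (Nat.add c.1 (Nat.mul 2 Q.R), Nat.add c.2 (Nat.mul 2 Q.R))⟩

/-! ### running a certificate -/

/-- read a list preceded by its length, pass it and the rest to the continuation `k` -/
def rdL {α : Type} (k : List ℕ → List ℕ → α) : ℕ → List ℕ → List ℕ → α
  | 0, s, acc => k acc.reverse s
  | _ + 1, [], acc => k acc.reverse []
  | n + 1, x :: s, acc => rdL k n s (x :: acc)

def rdl {α : Type} (s : List ℕ) (k : List ℕ → List ℕ → α) : α :=
  match s with
  | [] => k [] []
  | n :: s => rdL k n s []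

def pairs : List ℕ → List (ℕ × ℕ)
  | a :: b :: l => (a, b) :: pairs l
  | _ => []

/-- run the certificate `s` on the patterns `todo` -/
def run : ℕ → List ℕ → List Pt → Bool
  | _, _, [] => true
  | 0, _, _ :: _ => false
  | f + 1, s, Q :: todo =>
    match s with
    | 0 :: s => rdl s fun us s => rdl s fun π s =>
      match leafOK Q us π with
      | true => run f s todo
      | false => false
    | 1 :: σ :: s =>
      match !mtd Q.ch σ && (rls Q.P).any (Nat.beq (Nat.div σ 2)) with
      | true => run f s (chP Q σ ++ todo)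
      | false => false
    | 2 :: s => rdl s fun l s =>
      match cycOK Q (pairs l) with
      | true => run f s (chX Q (pairs l) ++ todo)
      | false => false
    | 3 :: s => run f s (dbl Q :: todo)
    | _ => false

/-- base `128` digits -/
def dig (f : ℕ) : ℕ → List ℕ :=
  Nat.rec (fun _ => []) (fun _ ih n => Nat.mod n 128 :: ih (Nat.div n 128)) f

end BP
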