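import Pool.Agent.Work.MP_475aca_co.Check

/-! # The checker of case B

A window is a sequence of consecutive open gaps `w 0 < w 1 < …`, all of whose chords are of the type
`LU` (lower port of the upper gap ~ upper port of the lower gap). Its word `V` is the list of the
distances: `V j = d ≠ 0` if the partner of the upper port of `w j` is the lower port of `w (j - d)`,
and `V j = 0` if it is above the window. `P` is the list of the `j` whose upper partner is above
the window and known, in the order of the positions of the partners; `N` is the list of the `j`
whose lower partner is below the window and known, in the order of the positions. -/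

namespace BP

structure Cfg where
  P : List ℕ
  V : List ℕ
  N : List ℕ

/-- chords of the window; `j` is the index of the head of the list, `p` the number of gaps above -/
def chV (p : ℕ) : ℕ → List ℕ → List (ℕ × ℕ)
  | _, [] => []
  | j, d :: l =>
    match Nat.beq d 0 with
    | true => chV p (Nat.succ j) l
    | false => (Nat.succ (Nat.mul 2 (Nat.add p (Nat.sub j d))), Nat.mul 2 (Nat.add p j)) ::
        chV p (Nat.succ j) l

/-- chords to the gaps above; `i` is the index of the head of the list -/
def chPr (p : ℕ) : ℕ → List ℕ → List (ℕ × ℕ)
  | _, [] => []
  | i, j :: l => (Nat.succ (Nat.mul 2 i), Nat.mul 2 (Nat.add p j)) :: chPr p (Nat.succ i) l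

/-- chords to the gaps below; `i` is the number of the gap of the head of the list -/
def chNx (p : ℕ) : ℕ → List ℕ → List (ℕ × ℕ)
  | _, [] => []
  | i, j :: l => (Nat.succ (Nat.mul 2 (Nat.add p j)), Nat.mul 2 i) :: chNx p (Nat.succ i) l

/-- the configuration as a pattern with one bundle; the roles are `0, 1, …` in the order of
position: first `P`, then `V`, then `N` -/
def toPt (c : Cfg) : Pt :=
  ⟨c.P.length + c.V.length + c.N.length,
    [(true, List.range (c.P.length + c.V.length + c.N.length))],
    chV c.P.length 0 c.V ++ chPr c.P.length 0 c.P ++ chNx c.P.length (c.P.length + c.V.length) c.N⟩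

def memN (x : ℕ) : List ℕ → Bool
  | [] => false
  | y :: l => match Nat.beq x y with | true => true | false => memN x l

/-- the entry number `j` is `0` -/
def isZ : List ℕ → ℕ → Bool
  | [], _ => false
  | d :: _, 0 => Nat.beq d 0
  | _ :: l, j + 1 => isZ l j

/-- some `V i = i - j` with `i > j`; `i` is the index of the head -/
def hasNext (j : ℕ) : ℕ → List ℕ → Bool
  | _, [] => false
  | i, d :: l =>
    match !Nat.beq d 0 && Nat.beq (Nat.add j d) i with
    | true => true
    | false => hasNext j (Nat.succ i) l

/-- run the certificate `s` on the configurations `todo` -/
def runB : ℕ → List ℕ → List Cfg → Bool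
  | _, _, [] => true
  | 0, _, _ :: _ => false
  | f + 1, s, c :: todo =>
    match s with
    | 0 :: s => rdl s fun us s => rdl s fun π s =>
      match Nat.beq (ncol us) 1 && leafOK (toPt c) us π with
      | true => runB f s todo
      | false => false
    | 1 :: j :: s =>
      match isZ c.V j && !memN j c.P with
      | true => runB f s (((insL j c.P).map fun P => (⟨P, c.V, c.N⟩ : Cfg)) ++ todo)
      | false => false
    | 2 :: j :: s =>
      match Nat.ble (Nat.succ j) c.V.length && !hasNext j 0 c.V && !memN j c.N with
      | true => runB f s (((insL j c.N).map fun N => (⟨c.P, c.V, N⟩ : Cfg)) ++ todo)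
      | false => false
    | _ => false

/-! ### coverage -/

/-- cut the distances which leave the window; `i` is the index of the head -/
def trunc : ℕ → List ℕ → List ℕ
  | _, [] => []
  | i, d :: l => (match Nat.ble d i with | true => d | false => 0) :: trunc (Nat.succ i) l

/-- the word of the window without its first `i` gaps -/
def suf (i : ℕ) (V : List ℕ) : List ℕ := trunc 0 (V.drop i)

def eqL : List ℕ → List ℕ → Bool
  | [], [] => true
  | a :: l, b :: l' => match Nat.beq a b with | true => eqL l l' | false => false
  | _, _ => false

/-- the possible words of the window with one more gap -/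
def exts (V : List ℕ) : List (List ℕ) :=
  (V ++ [0]) :: ((List.range V.length).filter fun j =>
      !Nat.beq (Nat.succ j) V.length && !hasNext j 0 V).map fun j => V ++ [Nat.sub V.length j]

/-- run the coverage certificate: windows of length at most `L`, library `C` -/
def covR (L : ℕ) (C : List (List ℕ)) : ℕ → List ℕ → List (List ℕ) → Bool
  | _, _, [] => true
  | 0, _, _ :: _ => false
  | f + 1, s, V :: todo =>
    match s with
    | 0 :: i :: a :: b :: s =>
      match Nat.ble (Nat.succ i) V.length && eqL (suf i V) (C.getD (Nat.add (Nat.mul 128 a) b) []) with
      | true => covR L C f s todo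
      | false => false
    | 1 :: s =>
      match Nat.ble (Nat.succ V.length) L with
      | true => covR L C f s (exts V ++ todo)
      | false => false
    | _ => false

end BP
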