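import Pool.Agent.Work.MP_475aca_co.EmbL

/-! # Doubling of the columns -/

namespace BP

/-- the bundle with doubled columns -/
def dblB (R : ℕ) (b : Bool × List ℕ) : Bool × List ℕ :=
  (b.1, match b.1 with
    | true => b.2 ++ b.2.map (Nat.add · R)
    | false => b.2.map (Nat.add · R) ++ b.2)

theorem dbl_P (Q : Pt) : (dbl Q).P = Q.P.map (dblB Q.R) := rfl

theorem dbl_R (Q : Pt) : (dbl Q).R = 2 * Q.R := rfl

theorem dbl_ch (Q : Pt) : (dbl Q).ch = Q.ch ++ Q.ch.map fun c => (c.1 + 2 * Q.R, c.2 + 2 * Q.R) := rfl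

theorem dblB_perm (R : ℕ) (b : Bool × List ℕ) :
    (dblB R b).2.Perm (b.2 ++ b.2.map fun r => r + R) := by
  obtain ⟨d, l⟩ := b
  cases d
  · exact List.perm_append_comm
  · exact List.Perm.refl _

theorem dbl_rls_perm (P : Pat) (R : ℕ) :
    (rls (P.map (dblB R))).Perm (rls P ++ (rls P).map fun r => r + R) := by
  induction P with
  | nil => simp [rls]
  | cons b P ih =>
    have e1 : rls ((b :: P).map (dblB R)) = (dblB R b).2 ++ rls (P.map (dblB R)) := rfl
    have e2 : rls (b :: P) = b.2 ++ rls P := rfl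
    rw [e1, e2, List.map_append]
    refine ((dblB_perm R b).append ih).trans ?_
    rw [List.append_assoc, List.append_assoc]
    refine List.Perm.append_left _ ?_
    rw [← List.append_assoc, ← List.append_assoc]
    exact List.Perm.append_right _ List.perm_append_comm

theorem mem_dbl_rls {Q : Pt} {r : ℕ} :
    r ∈ rls (dbl Q).P ↔ r ∈ rls Q.P ∨ ∃ r0 ∈ rls Q.P, r = r0 + Q.R := by
  rw [dbl_P, (dbl_rls_perm Q.P Q.R).mem_iff, List.mem_append, List.mem_map]
  constructor
  · rintro (h | ⟨r0, h, h'⟩)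
    · exact Or.inl h
    · exact Or.inr ⟨r0, h, h'.symm⟩
  · rintro (h | ⟨r0, h, h'⟩)
    · exact Or.inl h
    · exact Or.inr ⟨r0, h, h'.symm⟩

theorem wf_dbl {Q : Pt} (hW : WF Q) : WF (dbl Q) := by
  refine ⟨?_, fun r hr => ?_, fun c hc => ?_⟩
  · rw [dbl_P, (dbl_rls_perm Q.P Q.R).nodup_iff, List.nodup_append]
    refine ⟨hW.nodup, hW.nodup.map fun a b h => by simpa using h, fun a ha b hb => ?_⟩
    obtain ⟨r0, -, rfl⟩ := List.mem_map.1 hb
    have := hW.lt a ha
    omega
  · rw [dbl_R]
    rcases mem_dbl_rls.1 hr with h | ⟨r0, h, rfl⟩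
    · have := hW.lt r h
      omega
    · have := hW.lt r0 h
      omega
  · rw [dbl_ch, List.mem_append, List.mem_map] at hc
    rcases hc with hc | ⟨c0, hc, rfl⟩
    · exact ⟨mem_dbl_rls.2 (Or.inl (hW.mem c hc).1), mem_dbl_rls.2 (Or.inl (hW.mem c hc).2)⟩
    · refine ⟨mem_dbl_rls.2 (Or.inr ⟨_, (hW.mem c0 hc).1, ?_⟩),
        mem_dbl_rls.2 (Or.inr ⟨_, (hW.mem c0 hc).2, ?_⟩)⟩
      · simp only
        omega
      · simp only
        omega

theorem range_two_mul (m : ℕ) :
    List.range (2 * m) = (List.range m).flatMap fun i => [2 * i, 2 * i + 1] := by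
  induction m with
  | zero => rfl
  | succ m ih =>
    rw [List.range_succ, List.flatMap_append, ← ih]
    have : 2 * (m + 1) = 2 * m + 1 + 1 := by ring
    rw [this, List.range_succ, List.range_succ]
    simp

/-- the positions for the doubled pattern -/
def dg (R : ℕ) (g : ℕ → ℕ → ℕ) (r i : ℕ) : ℕ := if r < R then g r (2 * i) else g (r - R) (2 * i + 1)

theorem dbl_word (P : Pat) (R : ℕ) (hR : ∀ r ∈ rls P, r < R) (m : ℕ) (g : ℕ → ℕ → ℕ) :
    ((word (P.map (dblB R)) m).map fun q => dg R g q.1 q.2) =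
      (word P (2 * m)).map fun q => g q.1 q.2 := by
  unfold word
  rw [List.flatMap_map, List.map_flatMap, List.map_flatMap]
  refine List.flatMap_congr fun b hb => ?_
  have hb2 : ∀ r ∈ b.2, r < R := fun r hr => hR r (List.mem_flatMap.2 ⟨b, hb, hr⟩)
  rw [List.map_flatMap, List.map_flatMap]
  have e1 : ∀ i, (b.2.map fun r => dg R g r i) = b.2.map fun r => g r (2 * i) := fun i =>
    List.map_congr_left fun r hr => by
      unfold dg
      rw [if_pos (hb2 r hr)]
  have e2 : ∀ i, (b.2.map fun r => dg R g (r + R) i) = b.2.map fun r => g r (2 * i + 1) := fun i =>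
    List.map_congr_left fun r hr => by
      unfold dg
      rw [if_neg (by omega), Nat.add_sub_cancel]
  obtain ⟨d, l⟩ := b
  cases d
  · -- decreasing
    have h1 : cols false (2 * m) = (cols false m).flatMap fun i => [2 * i + 1, 2 * i] := by
      show (List.range (2 * m)).reverse = (List.range m).reverse.flatMap _
      rw [range_two_mul, List.reverse_flatMap]
      rfl
    simp only at h1 e1 e2 ⊢
    rw [h1, List.flatMap_assoc]
    refine List.flatMap_congr fun i _ => ?_
    have h2 : (dblB R (false, l)).2 = (l.map fun r => r + R) ++ l := rfl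
    rw [h2]
    simp only [List.map_append, List.map_map, List.flatMap_cons, List.flatMap_nil, List.append_nil]
    congr 1
    · exact e2 i
    · exact e1 i
  · have h1 : cols true (2 * m) = (cols true m).flatMap fun i => [2 * i, 2 * i + 1] :=
      range_two_mul m
    simp only at h1 e1 e2 ⊢
    rw [h1, List.flatMap_assoc]
    refine List.flatMap_congr fun i _ => ?_
    have h2 : (dblB R (true, l)).2 = l ++ (l.map fun r => r + R) := rfl
    rw [h2]
    simp only [List.map_append, List.map_map, List.flatMap_cons, List.flatMap_nil, List.append_nil]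
    congr 1
    · exact e1 i
    · exact e2 i

/-- Hint: `g' r i = g r (2 i)` for `r < R`, `g' r i = g (r - R) (2 i + 1)` otherwise. -/
theorem win_dbl {Q : Pt} (hW : WF Q) (h : Win (dbl Q)) : Win Q := by
  obtain ⟨N, hN⟩ := h
  refine ⟨2 * N, fun n s hs ⟨g, hg⟩ => hN n s hs ⟨dg Q.R g, ?_, fun r hr i hi => ?_,
    fun c hc i hi => ?_⟩⟩
  · unfold Emb
    rw [dbl_P, dbl_word Q.P Q.R hW.lt]
    exact hg.emb
  · rcases mem_dbl_rls.1 hr with h | ⟨r0, h, rfl⟩
    · unfold dg
      rw [if_pos (hW.lt r h)]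
      exact hg.opn r h _ (by omega)
    · unfold dg
      rw [if_neg (by omega), Nat.add_sub_cancel]
      exact hg.opn r0 h _ (by omega)
  · have e1 : ∀ σ, σ / 2 ∈ rls Q.P → port s (dg Q.R g) σ i = port s g σ (2 * i) := by
      intro σ hσ
      unfold port dg
      rw [if_pos (hW.lt _ hσ)]
    have e2 : ∀ σ, port s (dg Q.R g) (σ + 2 * Q.R) i = port s g σ (2 * i + 1) := by
      intro σ
      unfold port dg
      have a1 : (σ + 2 * Q.R) / 2 = σ / 2 + Q.R := by omega
      have a2 : (σ + 2 * Q.R) % 2 = σ % 2 := by omega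
      have a3 : ¬σ / 2 + Q.R < Q.R := by omega
      simp only [a1, a2, a3, if_false, Nat.add_sub_cancel]
    rw [dbl_ch, List.mem_append, List.mem_map] at hc
    rcases hc with hc | ⟨c0, hc, rfl⟩
    · rw [e1 _ (hW.mem c hc).1, e1 _ (hW.mem c hc).2]
      exact hg.ch c hc _ (by omega)
    · simp only
      rw [e2, e2]
      exact hg.ch c0 hc _ (by omega)

end BP
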