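import Pool.Agent.Work.MP_475aca_co.ModelA

/-! # Crossing -/

namespace BP

variable {n k k' p q : ℕ} {a : List ℤ} {s : St}

/-! ### ModelC : crossing

`j` stands for the entry number `j` (counted from `0`), which lies between the gaps `j - 1` and
`j`; its ports are `lo s (j - 1)` and `up s j`. -/

theorem ModelC_up (n : ℕ) (a : List ℤ) (j : ℕ) (hj : j < a.length) :
    ((gaps n a).getD j (0, 0)).1 = rp (a.getD j 0) := by
  induction a generalizing j with
  | nil => simp at hj
  | cons v l ih =>
    cases l with
    | nil =>
      have : j = 0 := by simpa using hj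
      subst this
      simp [gaps]
    | cons w l =>
      cases j with
      | zero => simp [gaps]
      | succ j =>
        have := ih j (by simpa using hj)
        simpa [gaps] using this

theorem ModelC_lo (n : ℕ) (a : List ℤ) (j : ℕ) (hj : j + 1 < a.length) :
    ((gaps n a).getD j (0, 0)).2 = lp (a.getD (j + 1) 0) := by
  induction a generalizing j with
  | nil => simp at hj
  | cons v l ih =>
    cases l with
    | nil => simp at hj
    | cons w l =>
      cases j with
      | zero => simp [gaps]
      | succ j =>
        have := ih j (by simpa using hj)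
        simpa [gaps] using this

theorem ModelC_par (m : ℕ) : par (2 * m + 1) = 2 * m + 2 := by
  unfold par; split_ifs <;> omega

/-- a nonempty set `J` of entries (not the first one) has a port whose partner is outside of `J`
(take the entry of `J` with the largest absolute value `v`, and its port `2 v + 1`) -/
theorem IsSt.cross (h : IsSt n s) {J : Finset ℕ} (hJ : J.Nonempty) (h1 : ∀ j ∈ J, 1 ≤ j ∧ j < n) :
    ∃ j ∈ J, ∃ p, (p = lo s (j - 1) ∨ p = up s j) ∧
      (∀ j' ∈ J, par p ≠ lo s (j' - 1) ∧ par p ≠ up s j') ∧
      (par p = s.1 ∨ ∃ k < n, par p = up s k ∨ par p = lo s k) := by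
  obtain ⟨a, ha, hs⟩ := h
  have hl : a.length = n := ModelA_length_of_isSP ha
  have hup : ∀ j ∈ J, up s j = rp (a.getD j 0) := fun j hj => by
    rw [hs]; exact ModelC_up n a j (by rw [hl]; exact (h1 j hj).2)
  have hlo : ∀ j ∈ J, lo s (j - 1) = lp (a.getD j 0) := fun j hj => by
    have := h1 j hj
    rw [hs]
    have h2 := ModelC_lo n a (j - 1) (by omega)
    rw [show j - 1 + 1 = j by omega] at h2
    exact h2
  have h' : IsSt n s := ⟨a, ha, hs⟩
  obtain ⟨j, hj, hmax⟩ := Finset.exists_max_image J (fun j => (a.getD j 0).natAbs) hJ
  have hjn := h1 j hj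
  set v := (a.getD j 0).natAbs with hv
  refine ⟨j, hj, 2 * v + 1, ?_, ?_, ?_⟩
  · rw [hup j hj, hlo j hj]
    unfold lp rp
    split_ifs
    · right; rfl
    · left; rfl
  · intro j' hj'
    have := hmax j' hj'
    rw [hup j' hj', hlo j' hj', ModelC_par]
    unfold lp rp
    split_ifs <;> constructor <;> omega
  · rw [ModelC_par]
    refine h'.port_exists (by omega) ?_
    have : v ≤ n := by
      have hmem : a.getD j 0 ∈ a := by
        rw [List.getD_eq_getElem _ _ (by omega)]
        exact List.getElem_mem _
      have : v ∈ List.range' 1 n := (ha.mem_iff).1 (List.mem_map_of_mem hmem)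
      rw [List.mem_range'_1] at this
      omega
    omega

end BP
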