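import Pool.Agent.Work.MP_475aca_co.Check
import Pool.Agent.Work.MP_475aca_co.Model

/-! # Words, embeddings, selection of columns -/

namespace BP

variable {P : Pat} {M N m n : ℕ} {g g' : ℕ → ℕ → ℕ} {ι : ℕ → ℕ} {Q : Pt} {s : St}

/-- `ι` selects `M` of the `N` columns -/
def Sel (M N : ℕ) (ι : ℕ → ℕ) : Prop := (∀ i j, i < j → j < M → ι i < ι j) ∧ ∀ i < M, ι i < N

theorem embL_mem_cols {d : Bool} {i : ℕ} : i ∈ cols d m ↔ i < m := by
  unfold cols
  split_ifs <;> simp

theorem mem_word {q : ℕ × ℕ} : q ∈ word P m ↔ q.1 ∈ rls P ∧ q.2 < m := by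
  obtain ⟨r, i⟩ := q
  simp only [word, rls, List.mem_flatMap, List.mem_map, embL_mem_cols, Prod.mk.injEq]
  constructor
  · rintro ⟨b, hb, i', hi', r', hr', rfl, rfl⟩
    exact ⟨⟨b, hb, hr'⟩, hi'⟩
  · rintro ⟨⟨b, hb, hr⟩, hi⟩
    exact ⟨b, hb, i, hi, r, hr, rfl, rfl⟩

theorem embL_nodup_cols {d : Bool} : (cols d m).Nodup := by
  unfold cols
  split_ifs
  · exact List.nodup_range
  · exact List.nodup_reverse.2 List.nodup_range

theorem nodup_word (h : (rls P).Nodup) : (word P m).Nodup := by
  induction P with
  | nil => simp [word]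
  | cons b P ih =>
    have h1 : rls (b :: P) = b.2 ++ rls P := by simp [rls]
    rw [h1, List.nodup_append] at h
    have h2 : word (b :: P) m = ((cols b.1 m).flatMap fun i => b.2.map fun r => (r, i)) ++
        word P m := by simp [word]
    rw [h2, List.nodup_append]
    refine ⟨?_, ih h.2.1, ?_⟩
    · rw [List.nodup_flatMap]
      refine ⟨fun i _ => h.1.map fun a b e => by simpa using e, ?_⟩
      refine embL_nodup_cols.imp fun {i j} hij => ?_
      rw [Function.onFun, List.disjoint_left]
      intro q h3 h4
      simp only [List.mem_map] at h3 h4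
      obtain ⟨r, _, rfl⟩ := h3
      obtain ⟨r', _, h5⟩ := h4
      simp only [Prod.mk.injEq] at h5
      exact hij h5.2.symm
    · intro q hq q' hq' e
      subst e
      rw [mem_word] at hq'
      simp only [List.mem_flatMap, List.mem_map] at hq
      obtain ⟨i, _, r, hr, rfl⟩ := hq
      exact h.2.2 r hr r hq'.1 rfl

theorem embL_wcol (i : ℕ) (rs w : List ℕ) : wcol i rs w = rs.map (fun r => 8 * r + i) ++ w := by
  induction rs with
  | nil => simp [wcol]
  | cons r rs ih => simp [wcol, ih]

theorem embL_wcols (rs is w : List ℕ) :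
    wcols rs is w = (is.flatMap fun i => rs.map fun r => 8 * r + i) ++ w := by
  induction is with
  | nil => simp [wcols]
  | cons i is ih => simp [wcols, embL_wcol, ih]

/-- the word of the checker -/
theorem wrd_eq (P : Pat) (m : ℕ) : wrd P m = (word P m).map fun q => 8 * q.1 + q.2 := by
  induction P with
  | nil => simp [wrd, word]
  | cons b P ih =>
    have h2 : word (b :: P) m = ((cols b.1 m).flatMap fun i => b.2.map fun r => (r, i)) ++
        word P m := by simp [word]
    rw [h2, wrd, embL_wcols, ih, List.map_append, List.map_flatMap]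
    congr 1
    rcases hb : b.1 with _ | _ <;> simp [cols, Function.comp_def]

theorem Emb.congr (h : Emb P m g) (hg : ∀ r ∈ rls P, ∀ i < m, g r i = g' r i) : Emb P m g' := by
  unfold Emb at *
  have e : (word P m).map (fun q => g q.1 q.2) = (word P m).map fun q => g' q.1 q.2 := by
    refine List.map_congr_left fun q hq => ?_
    rw [mem_word] at hq
    exact hg _ hq.1 _ hq.2
  rwa [← e]

theorem embL_range_sel (hι : Sel M N ι) : ((List.range M).map ι).Sublist (List.range N) := by
  have h1 : ((List.range M).map ι).Pairwise (· < ·) := by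
    rw [List.pairwise_map, List.pairwise_iff_getElem]
    intro i j hi hj hij
    simp only [List.getElem_range]
    exact hι.1 i j hij (by simpa using hj)
  refine List.sublist_of_subperm_of_sortedLE ?_ (h1.imp fun h => h.le).sortedLE
    (List.sortedLT_range N).sortedLE
  refine List.subperm_of_subset (h1.imp fun h => h.ne) fun x hx => ?_
  simp only [List.mem_map, List.mem_range] at hx ⊢
  obtain ⟨i, hi, rfl⟩ := hx
  exact hι.2 i hi

theorem embL_cols_sel (hι : Sel M N ι) (d : Bool) : ((cols d M).map ι).Sublist (cols d N) := by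
  unfold cols
  split_ifs
  · exact embL_range_sel hι
  · rw [List.map_reverse]
    exact (embL_range_sel hι).reverse

theorem embL_flatMap {α β : Type*} {l l' : List α} (h : l.Sublist l') (f : α → List β) :
    (l.flatMap f).Sublist (l'.flatMap f) := by
  induction h with
  | slnil => simp
  | cons a _ ih =>
    rw [List.flatMap_cons]
    exact ih.trans (List.sublist_append_right _ _)
  | cons_cons a _ ih =>
    rw [List.flatMap_cons, List.flatMap_cons]
    exact ih.append_left _

theorem embL_word_cons (b : Bool × List ℕ) (P : Pat) (m : ℕ) :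
    word (b :: P) m = ((cols b.1 m).flatMap fun i => b.2.map fun r => (r, i)) ++ word P m := by
  simp [word]

/-- `word P M` with columns renamed by `ι` is a sublist of `word P N` -/
theorem word_sel (hι : Sel M N ι) (P : Pat) :
    ((word P M).map fun q => (q.1, ι q.2)).Sublist (word P N) := by
  induction P with
  | nil => simp [word]
  | cons b P ih =>
    rw [embL_word_cons, embL_word_cons, List.map_append]
    refine List.Sublist.append ?_ ih
    have h := embL_flatMap (embL_cols_sel hι b.1) fun i => b.2.map fun r => (r, i)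
    rw [List.flatMap_map] at h
    rw [List.map_flatMap]
    simpa [Function.comp_def] using h

theorem Emb.sel (h : Emb P N g) (hι : Sel M N ι) : Emb P M fun r i => g r (ι i) := by
  unfold Emb at *
  have h1 := (word_sel hι P).map fun q => g q.1 q.2
  rw [List.map_map] at h1
  exact h.sublist h1

theorem Emb.inj (_hP : (rls P).Nodup) (h : Emb P m g) {r r' i i' : ℕ} (hr : r ∈ rls P)
    (hr' : r' ∈ rls P) (hi : i < m) (hi' : i' < m) (e : g r i = g r' i') : r = r' ∧ i = i' := by
  unfold Emb at h
  have h1 : ((word P m).map fun q => g q.1 q.2).Nodup := h.imp fun h => h.ne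
  have h2 := List.inj_on_of_nodup_map h1 (mem_word.2 (⟨hr, hi⟩ : (r, i).1 ∈ rls P ∧ (r, i).2 < m))
    (mem_word.2 (⟨hr', hi'⟩ : (r', i').1 ∈ rls P ∧ (r', i').2 < m)) e
  simpa using h2

/-- roles of different bundles -/
theorem Emb.lt_of_bundle {P1 P2 : Pat} {b b' : Bool × List ℕ} (h : Emb (P1 ++ P2) m g)
    (hb : b ∈ P1) (hb' : b' ∈ P2) {r r' i i' : ℕ} (hr : r ∈ b.2) (hr' : r' ∈ b'.2) (hi : i < m)
    (hi' : i' < m) : g r i < g r' i' := by
  unfold Emb at h
  have e : word (P1 ++ P2) m = word P1 m ++ word P2 m := by simp [word]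
  rw [e, List.map_append, List.pairwise_append] at h
  exact h.2.2 _ (List.mem_map.2 ⟨(r, i), mem_word.2 ⟨List.mem_flatMap.2 ⟨b, hb, hr⟩, hi⟩, rfl⟩) _
    (List.mem_map.2 ⟨(r', i'), mem_word.2 ⟨List.mem_flatMap.2 ⟨b', hb', hr'⟩, hi'⟩, rfl⟩)

theorem embL_bundle {b : Bool × List ℕ} (h : Emb P m g) (hb : b ∈ P) :
    (((cols b.1 m).flatMap fun i => b.2.map fun r => (r, i)).map fun q => g q.1 q.2).Pairwise
      (· < ·) := by
  unfold Emb at h
  refine h.sublist (List.Sublist.map _ ?_)
  induction P with
  | nil => simp at hb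
  | cons b' P ih =>
    rw [embL_word_cons] at h ⊢
    rw [List.mem_cons] at hb
    rcases hb with rfl | hb
    · exact List.sublist_append_left _ _
    · refine (ih ?_ hb).trans (List.sublist_append_right _ _)
      rw [List.map_append, List.pairwise_append] at h
      exact h.2.1

/-- different columns of one bundle -/
theorem Emb.lt_of_col {b : Bool × List ℕ} (h : Emb P m g) (hb : b ∈ P) {r r' i i' : ℕ}
    (hr : r ∈ b.2) (hr' : r' ∈ b.2) (hii : i < i') (hi' : i' < m) :
    (b.1 = true → g r i < g r' i') ∧ (b.1 = false → g r' i' < g r i) := by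
  have h1 := embL_bundle h hb
  rw [List.map_flatMap, List.pairwise_flatMap] at h1
  have h2 := h1.2
  simp only [List.map_map, List.mem_map, Function.comp, forall_exists_index, and_imp,
    forall_apply_eq_imp_iff₂] at h2
  constructor
  · intro e
    rw [e] at h2
    simp only [cols, if_true] at h2
    have h3 := List.pairwise_iff_getElem.1 h2 i i' (by simp; omega) (by simp; omega) hii
    simp only [List.getElem_range] at h3
    exact h3 r hr r' hr'
  · intro e
    rw [e] at h2
    simp only [cols, Bool.false_eq_true, if_false, List.pairwise_reverse] at h2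
    have h3 := List.pairwise_iff_getElem.1 h2 i i' (by simp; omega) (by simp; omega) hii
    simp only [List.getElem_range] at h3
    exact h3 r' hr' r hr

/-- the same column of one bundle -/
theorem Emb.lt_of_sub {b : Bool × List ℕ} (h : Emb P m g) (hb : b ∈ P) {r r' i : ℕ}
    (hr : [r, r'].Sublist b.2) (hi : i < m) : g r i < g r' i := by
  have h1 := embL_bundle h hb
  rw [List.map_flatMap, List.pairwise_flatMap] at h1
  have h2 := h1.1 i (embL_mem_cols.2 hi)
  rw [List.map_map] at h2
  have h3 := h2.sublist (hr.map _)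
  simpa using h3

theorem ContG.sel (h : ContG s Q N g) (hι : Sel M N ι) : ContG s Q M fun r i => g r (ι i) where
  emb := h.emb.sel hι
  opn r hr i hi := h.opn r hr _ (hι.2 i hi)
  ch c hc i hi := h.ch c hc _ (hι.2 i hi)

theorem Cont.mono (h : Cont s Q N) (hM : M ≤ N) : Cont s Q M := by
  obtain ⟨g, hg⟩ := h
  exact ⟨_, hg.sel (ι := fun i => i) ⟨fun i j hij _ => hij, fun i hi => hi.trans_le hM⟩⟩

/-- in a `Win` pattern the number of columns can be taken large -/
theorem Win.exists_forall (h : Win Q) : ∃ N0, ∀ N, N0 ≤ N → ∀ n s, IsSt n s → Cont s Q N → Prof s := by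
  obtain ⟨N0, h⟩ := h
  exact ⟨N0, fun N hN n s hs hc => h n s hs (hc.mono hN)⟩

/-- one number of columns for a finite list of patterns -/
theorem exists_forall_win {l : List Pt} (h : ∀ Q ∈ l, Win Q) :
    ∃ N, ∀ Q ∈ l, ∀ n s, IsSt n s → Cont s Q N → Prof s := by
  induction l with
  | nil => exact ⟨0, by simp⟩
  | cons Q l ih =>
    obtain ⟨N1, h1⟩ := ih fun Q' hQ' => h Q' (by simp [hQ'])
    obtain ⟨N2, h2⟩ := h Q (by simp)
    refine ⟨max N1 N2, fun Q' hQ' n s hs hc => ?_⟩
    rw [List.mem_cons] at hQ'
    rcases hQ' with rfl | hQ'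
    · exact h2 n s hs (hc.mono (le_max_right _ _))
    · exact h1 Q' hQ' n s hs (hc.mono (le_max_left _ _))

theorem isSub_sound {l l' : List ℕ} (h : isSub l l' = true) : l.Sublist l' := by
  induction l' generalizing l with
  | nil =>
    cases l with
    | nil => exact List.Sublist.refl _
    | cons a l => simp [isSub] at h
  | cons b l' ih =>
    cases l with
    | nil => exact List.nil_sublist _
    | cons a l =>
      simp only [isSub] at h
      split at h
      · rename_i e
        have := Nat.eq_of_beq_eq_true e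
        subst this
        exact (ih h).cons_cons _
      · exact (ih h).cons _

end BP
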