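import Pool.Agent.Work.MP_475aca_co.Sim
import Pool.Agent.Work.MP_475aca_co.EmbL

/-! # Soundness of the leaf check -/

namespace BP

theorem leaf_ncolA (l : List ℕ) (a : ℕ) (ha : a ≤ 8) : ncolA l a ≤ 8 := by
  induction l generalizing a with
  | nil => exact ha
  | cons x l ih =>
    simp only [ncolA]
    split
    · refine ih _ ?_
      have h : Nat.mod x 8 = x % 8 := rfl
      rw [h]
      omega
    · exact ih _ ha

theorem leaf_ncol (l : List ℕ) : ncol l ≤ 8 := leaf_ncolA l 1 (by omega)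

theorem leaf_linked {ch : List (ℕ × ℕ)} {a b : ℕ} (h : linked ch a b = true) :
    (a, b) ∈ ch ∨ (b, a) ∈ ch := by
  induction ch with
  | nil => simp [linked] at h
  | cons c l ih =>
    simp only [linked] at h
    split at h
    · rename_i e
      rw [Bool.and_eq_true] at e
      left
      have h1 := Nat.eq_of_beq_eq_true e.1
      have h2 := Nat.eq_of_beq_eq_true e.2
      simp [← h1, ← h2]
    · split at h
      · rename_i e
        rw [Bool.and_eq_true] at e
        right
        have h1 := Nat.eq_of_beq_eq_true e.1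
        have h2 := Nat.eq_of_beq_eq_true e.2
        simp [← h1, ← h2]
      · rcases ih h with h | h
        · exact Or.inl (by simp [h])
        · exact Or.inr (by simp [h])

theorem leaf_sublist {α : Type*} (l : List α) (d : α) {idx : List ℕ} (h : idx.Pairwise (· < ·))
    (hl : ∀ k ∈ idx, k < l.length) : (idx.map fun k => l.getD k d).Sublist l := by
  have h1 : idx.Sublist (List.range l.length) := by
    refine List.sublist_of_subperm_of_sortedLE ?_ (h.imp fun h => h.le).sortedLE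
      (List.sortedLT_range _).sortedLE
    exact List.subperm_of_subset (h.imp fun h => h.ne) fun x hx => List.mem_range.2 (hl x hx)
  have h2 := h1.map fun k => l.getD k d
  have h3 : (List.range l.length).map (fun k => l.getD k d) = l := by
    refine List.ext_getElem (by simp) fun i h4 h5 => ?_
    simp only [List.getElem_map, List.getElem_range]
    exact List.getD_eq_getElem _ _ h5
  rwa [h3] at h2

/-- Soundness of the leaf check. -/
theorem leaf_prof {n : ℕ} {s : St} {Q : Pt} {us π : List ℕ} (hs : IsSt n s) (hW : WF Q)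
    (hl : leafOK Q us π = true) (hc : Cont s Q (ncol us)) : Prof s := by
  obtain ⟨g, hg⟩ := hc
  have hm := leaf_ncol us
  set m := ncol us with hmd
  unfold leafOK at hl
  split at hl
  · simp at hl
  rename_i h0
  rw [Bool.and_eq_true] at h0
  have hR : Q.R ≤ 31 := Nat.le_of_ble_eq_true h0.1
  have hsub := isSub_sound h0.2
  rw [wrd_eq, List.sublist_map_iff] at hsub
  obtain ⟨W, hWs, hus⟩ := hsub
  have hWm : ∀ q ∈ W, q.1 ∈ rls Q.P ∧ q.2 < m := fun q hq => mem_word.1 (hWs.subset hq)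
  split at hl
  · simp at hl
  rename_i c hsim
  rw [Bool.and_eq_true] at hl
  have hl1 : 8 * π.length ≤ 15 * c := Nat.le_of_ble_eq_true hl.1
  have hl2 : 1 ≤ c := Nat.le_of_ble_eq_true hl.2
  -- the tokens
  let φ : ℕ → ℕ := fun x => if x = 4095 then s.1 else port s g (x % 64) (x / 64)
  let T : Set ℕ := {x | x = 4095 ∨ ∃ σ i, σ / 2 ∈ rls Q.P ∧ i < m ∧ x = 64 * i + σ}
  have hφ : ∀ σ i, σ / 2 ∈ rls Q.P → i < m → φ (64 * i + σ) = port s g σ i := by
    intro σ i h1 h2
    have h3 := hW.lt _ h1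
    have h4 : 64 * i + σ ≠ 4095 := by omega
    have h5 : (64 * i + σ) % 64 = σ := by omega
    have h6 : (64 * i + σ) / 64 = i := by omega
    simp only [φ, if_neg h4, h5, h6]
  have hug : ∀ q ∈ W, ugap (8 * q.1 + q.2) = (64 * q.2 + 2 * q.1, 64 * q.2 + (2 * q.1 + 1)) := by
    intro q hq
    have h1 := (hWm q hq).2
    have h2 : Nat.div (8 * q.1 + q.2) 8 = q.1 := by
      show (8 * q.1 + q.2) / 8 = q.1
      omega
    have h3 : Nat.mod (8 * q.1 + q.2) 8 = q.2 := by
      show (8 * q.1 + q.2) % 8 = q.2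
      omega
    unfold ugap tok
    rw [h2, h3]
    rfl
  have hside : ∀ q ∈ W, (2 * q.1) / 2 ∈ rls Q.P ∧ (2 * q.1 + 1) / 2 ∈ rls Q.P := by
    intro q hq
    have h1 := (hWm q hq).1
    have h2 : (2 * q.1) / 2 = q.1 := by omega
    have h3 : (2 * q.1 + 1) / 2 = q.1 := by omega
    rw [h2, h3]
    exact ⟨h1, h1⟩
  have hpu : ∀ r i, port s g (2 * r) i = up s (g r i) := by
    intro r i
    have h1 : (2 * r) % 2 = 0 := by omega
    have h2 : (2 * r) / 2 = r := by omega
    simp [port, h1, h2]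
  have hpl : ∀ r i, port s g (2 * r + 1) i = lo s (g r i) := by
    intro r i
    have h1 : ¬(2 * r + 1) % 2 = 0 := by omega
    have h2 : (2 * r + 1) / 2 = r := by omega
    unfold port
    rw [if_neg h1, h2]
  have hK : us.map ugap = W.map fun q => (64 * q.2 + 2 * q.1, 64 * q.2 + (2 * q.1 + 1)) := by
    rw [hus, List.map_map]
    exact List.map_congr_left fun q hq => hug q hq
  rw [hK] at hsim
  have hKT : ∀ x ∈ W.map (fun q => (64 * q.2 + 2 * q.1, 64 * q.2 + (2 * q.1 + 1))),
      x.1 ∈ T ∧ x.2 ∈ T := by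
    intro x hx
    obtain ⟨q, hq, rfl⟩ := List.mem_map.1 hx
    exact ⟨Or.inr ⟨_, _, (hside q hq).1, (hWm q hq).2, rfl⟩,
      Or.inr ⟨_, _, (hside q hq).2, (hWm q hq).2, rfl⟩⟩
  have hP : ∀ a ∈ T, ∀ b ∈ T, isP Q.ch a b = true → par (φ a) = φ b := by
    intro a ha b hb hab
    unfold isP at hab
    split at hab
    swap
    · simp at hab
    rename_i e
    have e1 : a / 64 = b / 64 := Nat.eq_of_beq_eq_true e
    have h1 : (a % 64, b % 64) ∈ Q.ch ∨ (b % 64, a % 64) ∈ Q.ch := leaf_linked hab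
    have h63 : ∀ σ, σ / 2 ∈ rls Q.P → σ < 62 := fun σ hσ => by
      have := hW.lt _ hσ
      omega
    have h2 : a % 64 < 62 ∧ b % 64 < 62 := by
      rcases h1 with h | h
      · exact ⟨h63 _ (hW.mem _ h).1, h63 _ (hW.mem _ h).2⟩
      · exact ⟨h63 _ (hW.mem _ h).2, h63 _ (hW.mem _ h).1⟩
    rcases ha with rfl | ⟨σ, i, hσ, hi, rfl⟩
    · simp at h2
    rcases hb with rfl | ⟨τ, j, hτ, hj, rfl⟩
    · simp at h2
    have h3 := h63 σ hσ
    have h4 := h63 τ hτ
    have h5 : (64 * i + σ) % 64 = σ := by omega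
    have h6 : (64 * j + τ) % 64 = τ := by omega
    have h7 : i = j := by omega
    subst h7
    rw [h5, h6] at h1
    rw [hφ σ i hσ hi, hφ τ i hτ hi]
    rcases h1 with h | h
    · exact hg.ch _ h i hi
    · exact (sim_par_iff _ _).1 (hg.ch _ h i hi)
  have hmap : (W.map fun q => (64 * q.2 + 2 * q.1, 64 * q.2 + (2 * q.1 + 1))).map
      (Prod.map φ φ) = (W.map fun q => g q.1 q.2).map fun k => s.2.getD k (0, 0) := by
    rw [List.map_map, List.map_map]
    refine List.map_congr_left fun q hq => ?_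
    simp only [Function.comp, Prod.map_apply]
    rw [hφ _ _ (hside q hq).1 (hWm q hq).2, hφ _ _ (hside q hq).2 (hWm q hq).2, hpu, hpl]
    rfl
  have hsubl : ((W.map fun q => (64 * q.2 + 2 * q.1, 64 * q.2 + (2 * q.1 + 1))).map
      (Prod.map φ φ)).Sublist s.2 := by
    rw [hmap]
    refine leaf_sublist s.2 (0, 0) ?_ ?_
    · have h1 := hg.emb
      unfold Emb at h1
      exact h1.sublist (hWs.map _)
    · intro k hk
      obtain ⟨q, hq, rfl⟩ := List.mem_map.1 hk
      exact (hg.opn _ (hWm q hq).1 _ (hWm q hq).2).1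
  have hopen : ∀ x ∈ W.map (fun q => (64 * q.2 + 2 * q.1, 64 * q.2 + (2 * q.1 + 1))),
      par (φ x.1) ≠ φ x.2 := by
    intro x hx
    obtain ⟨q, hq, rfl⟩ := List.mem_map.1 hx
    simp only
    rw [hφ _ _ (hside q hq).1 (hWm q hq).2, hφ _ _ (hside q hq).2 (hWm q hq).2, hpu, hpl]
    exact (hg.opn _ (hWm q hq).1 _ (hWm q hq).2).2
  obtain ⟨ks, h1, h2, h3⟩ := sim_sound φ (isP Q.ch) T hP (t := 4095) (Or.inl rfl) hKT
    (by simp [φ]) hsubl hopen hsim
  refine ⟨ks, ?_, h2, by rw [h1]; omega⟩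
  rintro rfl
  simp [sflips] at h3
  omega

theorem leaf_win {Q : Pt} {us π : List ℕ} (hW : WF Q) (hl : leafOK Q us π = true) : Win Q :=
  ⟨ncol us, fun _ _ hs hc => leaf_prof hs hW hl hc⟩

end BP
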