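import Pool.Agent.Work.MP_475aca_co.CheckB
import Pool.Agent.Work.MP_475aca_co.Leaf

/-! # Soundness of the certificates of case B -/

namespace BP

/-- an open gap both of whose chords are of type `LU` -/
def LUg (s : St) (k : ℕ) : Prop :=
  Opn s k ∧ (∃ k', k' < k ∧ Opn s k' ∧ par (up s k) = lo s k') ∧
    ∃ k', k < k' ∧ Opn s k' ∧ par (lo s k) = up s k'

/-- `w` is a window with the word `V` -/
structure Wd (s : St) (V : List ℕ) (w : ℕ → ℕ) : Prop where
  mono : ∀ i j, i < j → j < V.length → w i < w j
  lu : ∀ i < V.length, LUg s (w i)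
  consec : ∀ k, Opn s k → w 0 ≤ k → k ≤ w (V.length - 1) → ∃ i < V.length, k = w i
  ch : ∀ j < V.length, V.getD j 0 ≠ 0 →
    V.getD j 0 ≤ j ∧ par (lo s (w (j - V.getD j 0))) = up s (w j)
  conv : ∀ i j, i < j → j < V.length → par (lo s (w i)) = up s (w j) → V.getD j 0 = j - i

/-- the state contains the configuration -/
def ContB (s : St) (c : Cfg) : Prop := 1 ≤ c.V.length ∧ ∃ w p q : ℕ → ℕ, Wd s c.V w ∧
  (∀ i j, i < j → j < c.P.length → p i < p j) ∧
  (∀ i < c.P.length, Opn s (p i) ∧ p i < w 0 ∧ c.P.getD i 0 < c.V.length ∧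
    par (lo s (p i)) = up s (w (c.P.getD i 0))) ∧
  (∀ i j, i < j → j < c.N.length → q i < q j) ∧
  (∀ i < c.N.length, Opn s (q i) ∧ w (c.V.length - 1) < q i ∧ c.N.getD i 0 < c.V.length ∧
    par (lo s (w (c.N.getD i 0))) = up s (q i))

def WinB (c : Cfg) : Prop := ∀ n s, IsSt n s → ContB s c → Prof s

/-! ### auxiliary lemmas -/

theorem SoundB_mem_chV {p : ℕ} : ∀ (l : List ℕ) (j : ℕ) (x : ℕ × ℕ), x ∈ chV p j l →
    ∃ i < l.length, l.getD i 0 ≠ 0 ∧
      x = (2 * (p + (j + i - l.getD i 0)) + 1, 2 * (p + (j + i))) := by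
  intro l
  induction l with
  | nil => intro j x hx; simp [chV] at hx
  | cons d l ih =>
    intro j x hx
    rw [chV] at hx
    rcases hd : Nat.beq d 0 with _ | _
    · rw [hd] at hx
      have hd' : d ≠ 0 := by
        intro h0
        rw [h0] at hd
        exact absurd hd (by decide)
      rcases List.mem_cons.1 hx with rfl | hx
      · exact ⟨0, by simp, by simpa using hd', by simp⟩
      · obtain ⟨i, hi, h1, h2⟩ := ih _ _ hx
        refine ⟨i + 1, by simpa using hi, by simpa using h1, ?_⟩
        rw [h2]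
        simp only [List.getD_cons_succ, Nat.succ_eq_add_one, Prod.mk.injEq]
        constructor <;> omega
    · rw [hd] at hx
      obtain ⟨i, hi, h1, h2⟩ := ih _ _ hx
      refine ⟨i + 1, by simpa using hi, by simpa using h1, ?_⟩
      rw [h2]
      simp only [List.getD_cons_succ, Nat.succ_eq_add_one, Prod.mk.injEq]
      constructor <;> omega

theorem SoundB_mem_chPr {p : ℕ} : ∀ (l : List ℕ) (j : ℕ) (x : ℕ × ℕ), x ∈ chPr p j l →
    ∃ i < l.length, x = (2 * (j + i) + 1, 2 * (p + l.getD i 0)) := by
  intro l
  induction l with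
  | nil => intro j x hx; simp [chPr] at hx
  | cons d l ih =>
    intro j x hx
    rw [chPr] at hx
    rcases List.mem_cons.1 hx with rfl | hx
    · exact ⟨0, by simp, by simp⟩
    · obtain ⟨i, hi, h2⟩ := ih _ _ hx
      refine ⟨i + 1, by simpa using hi, ?_⟩
      rw [h2]
      refine Prod.ext ?_ rfl
      show 2 * (Nat.succ j + i) + 1 = 2 * (j + (i + 1)) + 1
      omega

theorem SoundB_mem_chNx {p : ℕ} : ∀ (l : List ℕ) (j : ℕ) (x : ℕ × ℕ), x ∈ chNx p j l →
    ∃ i < l.length, x = (2 * (p + l.getD i 0) + 1, 2 * (j + i)) := by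
  intro l
  induction l with
  | nil => intro j x hx; simp [chNx] at hx
  | cons d l ih =>
    intro j x hx
    rw [chNx] at hx
    rcases List.mem_cons.1 hx with rfl | hx
    · exact ⟨0, by simp, by simp⟩
    · obtain ⟨i, hi, h2⟩ := ih _ _ hx
      refine ⟨i + 1, by simpa using hi, ?_⟩
      rw [h2]
      refine Prod.ext rfl ?_
      show 2 * (Nat.succ j + i) = 2 * (j + (i + 1))
      omega

theorem SoundB_rls (c : Cfg) :
    rls (toPt c).P = List.range (c.P.length + c.V.length + c.N.length) := by
  simp [rls, toPt]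

theorem SoundB_word (c : Cfg) : word (toPt c).P 1 =
    (List.range (c.P.length + c.V.length + c.N.length)).map fun r => (r, 0) := by
  simp [word, toPt, cols]

/-- the chords of the pattern of a configuration -/
theorem SoundB_ch {c : Cfg} {x : ℕ × ℕ} (hx : x ∈ (toPt c).ch) :
    (∃ i < c.V.length, c.V.getD i 0 ≠ 0 ∧
      x = (2 * (c.P.length + (i - c.V.getD i 0)) + 1, 2 * (c.P.length + i))) ∨
    (∃ i < c.P.length, x = (2 * i + 1, 2 * (c.P.length + c.P.getD i 0))) ∨
    (∃ i < c.N.length, x = (2 * (c.P.length + c.N.getD i 0) + 1,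
      2 * (c.P.length + c.V.length + i))) := by
  simp only [toPt, List.mem_append] at hx
  rcases hx with (hx | hx) | hx
  · obtain ⟨i, hi, h1, h2⟩ := SoundB_mem_chV _ _ _ hx
    exact Or.inl ⟨i, hi, h1, by rw [h2]; simp⟩
  · obtain ⟨i, hi, h2⟩ := SoundB_mem_chPr _ _ _ hx
    exact Or.inr (Or.inl ⟨i, hi, by rw [h2]; simp⟩)
  · obtain ⟨i, hi, h2⟩ := SoundB_mem_chNx _ _ _ hx
    exact Or.inr (Or.inr ⟨i, hi, by rw [h2]⟩)

theorem SoundB_port_up (s : St) (g : ℕ → ℕ → ℕ) (a i : ℕ) :
    port s g (2 * a) i = up s (g a i) := by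
  have h1 : (2 * a) % 2 = 0 := by omega
  have h2 : (2 * a) / 2 = a := by omega
  simp [port, h2]

theorem SoundB_port_lo (s : St) (g : ℕ → ℕ → ℕ) (a i : ℕ) :
    port s g (2 * a + 1) i = lo s (g a i) := by
  have h1 : (2 * a + 1) % 2 = 1 := by omega
  have h2 : (2 * a + 1) / 2 = a := by omega
  simp [port, h1, h2]

theorem SoundB_insL (R : ℕ) : ∀ (l : List ℕ) (a : ℕ), a ≤ l.length → ∃ l' ∈ insL R l,
    l'.length = l.length + 1 ∧
    (∀ i < a, l'.getD i 0 = l.getD i 0) ∧ l'.getD a 0 = R ∧
    ∀ i, a ≤ i → l'.getD (i + 1) 0 = l.getD i 0 := by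
  intro l
  induction l with
  | nil =>
    intro a ha
    have ha0 : a = 0 := by simpa using ha
    subst ha0
    exact ⟨[R], by simp [insL], by simp, by simp, by simp, by simp⟩
  | cons r rs ih =>
    intro a ha
    rcases a with _ | a
    · exact ⟨R :: r :: rs, by simp [insL], by simp, by simp, by simp, by simp⟩
    · obtain ⟨l', h1, h2, h3, h4, h5⟩ := ih a (by simpa using ha)
      refine ⟨r :: l', ?_, by simp [h2], ?_, by simpa using h4, ?_⟩
      · rw [insL]
        exact List.mem_cons_of_mem _ (List.mem_map.2 ⟨l', h1, rfl⟩)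
      · intro i hi
        rcases i with _ | i
        · simp
        · simpa using h3 i (by omega)
      · intro i hi
        rcases i with _ | i
        · omega
        · simpa using h5 i (by omega)

theorem SoundB_pos (p : ℕ → ℕ) (k : ℕ) : ∀ m : ℕ, (∀ i j, i < j → j < m → p i < p j) →
    (∀ i < m, p i ≠ k) → ∃ a ≤ m, (∀ i < a, p i < k) ∧ ∀ i, a ≤ i → i < m → k < p i := by
  intro m
  induction m with
  | zero => intro _ _; exact ⟨0, le_rfl, by simp, by simp⟩
  | succ m ih =>
    intro hm hk
    obtain ⟨a, ha, h1, h2⟩ := ih (fun i j hij hj => hm i j hij (by omega))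
      (fun i hi => hk i (by omega))
    by_cases hc : a < m
    · refine ⟨a, by omega, h1, fun i hi hi' => ?_⟩
      by_cases him : i < m
      · exact h2 i hi him
      · have : i = m := by omega
        subst this
        exact lt_trans (h2 a le_rfl hc) (hm a i hc (by omega))
    · have ham : a = m := by omega
      subst ham
      rcases lt_or_gt_of_ne (hk a (by omega)) with h | h
      · exact ⟨a + 1, le_rfl, fun i hi => by
          by_cases hia : i < a
          · exact h1 i hia
          · have : i = a := by omega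
            subst this
            exact h, fun i hi hi' => by omega⟩
      · exact ⟨a, by omega, h1, fun i hi hi' => by
          have : i = a := by omega
          subst this
          exact h⟩

theorem SoundB_memN {x : ℕ} : ∀ {l : List ℕ}, memN x l = false → ∀ i < l.length,
    l.getD i 0 ≠ x := by
  intro l
  induction l with
  | nil => intro _ i hi; simp at hi
  | cons y l ih =>
    intro h i hi
    rw [memN] at h
    rcases hy : Nat.beq x y with _ | _
    · rw [hy] at h
      rcases i with _ | i
      · intro he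
        have he' : y = x := by simpa using he
        rw [he', Nat.beq_refl] at hy
        exact absurd hy (by decide)
      · simpa using ih h i (by simpa using hi)
    · rw [hy] at h
      simp at h

theorem SoundB_isZ : ∀ {l : List ℕ} {j : ℕ}, isZ l j = true → j < l.length ∧ l.getD j 0 = 0 := by
  intro l
  induction l with
  | nil => intro j h; simp [isZ] at h
  | cons d l ih =>
    intro j h
    rcases j with _ | j
    · rw [isZ] at h
      exact ⟨by simp, by simpa using Nat.eq_of_beq_eq_true h⟩
    · rw [isZ] at h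
      obtain ⟨h1, h2⟩ := ih h
      exact ⟨by simpa using h1, by simpa using h2⟩

theorem SoundB_hasNext {j : ℕ} : ∀ {l : List ℕ} {i : ℕ}, hasNext j i l = false →
    ∀ t < l.length, l.getD t 0 ≠ 0 → j + l.getD t 0 ≠ i + t := by
  intro l
  induction l with
  | nil => intro i _ t ht; simp at ht
  | cons d l ih =>
    intro i h t ht h0 he
    rw [hasNext] at h
    rcases hc : (!Nat.beq d 0 && Nat.beq (Nat.add j d) i) with _ | _
    · rw [hc] at h
      rcases t with _ | t
      · have h0' : d ≠ 0 := by simpa using h0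
        have he' : j + d = i := by simpa using he
        have h3 : Nat.beq d 0 = false := by
          rcases hb : Nat.beq d 0 with _ | _
          · rfl
          · exact absurd (Nat.eq_of_beq_eq_true hb) h0'
        have h4 : Nat.beq (Nat.add j d) i = true := by
          rw [show Nat.add j d = i from he', Nat.beq_refl]
        rw [h3, h4] at hc
        exact absurd hc (by decide)
      · refine ih h t (by simpa using ht) (by simpa using h0) ?_
        have he' : j + l.getD t 0 = i + (t + 1) := by simpa using he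
        rw [he', Nat.succ_eq_add_one]
        omega
    · rw [hc] at h
      simp at h

theorem SoundB_mono {w : ℕ → ℕ} {L : ℕ} (h : ∀ i j, i < j → j < L → w i < w j) {i j : ℕ}
    (hij : i ≤ j) (hj : j < L) : w i ≤ w j := by
  rcases hij.lt_or_eq with h1 | h1
  · exact (h i j h1 hj).le
  · rw [h1]

theorem SoundB_inj {w : ℕ → ℕ} {L : ℕ} (h : ∀ i j, i < j → j < L → w i < w j) {i j : ℕ}
    (hi : i < L) (hj : j < L) (e : w i = w j) : i = j := by
  rcases lt_trichotomy i j with h1 | h1 | h1
  · exact absurd e (h i j h1 hj).ne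
  · exact h1
  · exact absurd e.symm (h j i h1 hi).ne

theorem SoundB_lt {w : ℕ → ℕ} {L : ℕ} (h : ∀ i j, i < j → j < L → w i < w j) {i j : ℕ}
    (hi : i < L) (e : w i < w j) : i < j := by
  by_contra hc
  exact absurd (SoundB_mono h (by omega : j ≤ i) hi) (by omega)

/-- Hint: `g r 0 = p r` for `r < |P|`, `w (r - |P|)` for `r < |P| + |V|`, `q (r - |P| - |V|)`
otherwise. -/
theorem cont_toPt {n : ℕ} {s : St} {c : Cfg} (hs : IsSt n s) (h : ContB s c) :
    Cont s (toPt c) 1 := by
  have _ := hs
  obtain ⟨hV, w, p, q, hW, hp, hp', hq, hq'⟩ := h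
  obtain ⟨G, hG⟩ : ∃ G : ℕ → ℕ, G = fun r => if r < c.P.length then p r
    else if r < c.P.length + c.V.length then w (r - c.P.length)
    else q (r - c.P.length - c.V.length) := ⟨_, rfl⟩
  have G1 : ∀ r, r < c.P.length → G r = p r := by
    intro r hr; rw [hG]; simp only []; rw [if_pos hr]
  have G2 : ∀ r, r < c.V.length → G (c.P.length + r) = w r := by
    intro r hr; rw [hG]; simp only []
    rw [if_neg (by omega), if_pos (by omega), Nat.add_sub_cancel_left]
  have G3 : ∀ r, G (c.P.length + c.V.length + r) = q r := by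
    intro r; rw [hG]; simp only []
    rw [if_neg (by omega), if_neg (by omega)]
    congr 1
    omega
  have cases3 : ∀ r, r < c.P.length + c.V.length + c.N.length → r < c.P.length ∨
      (∃ r', r' < c.V.length ∧ r = c.P.length + r') ∨
      (∃ r', r' < c.N.length ∧ r = c.P.length + c.V.length + r') := by
    intro r hr
    by_cases h1 : r < c.P.length
    · exact Or.inl h1
    · by_cases h2 : r < c.P.length + c.V.length
      · exact Or.inr (Or.inl ⟨r - c.P.length, by omega, by omega⟩)
      · exact Or.inr (Or.inr ⟨r - (c.P.length + c.V.length), by omega, by omega⟩)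
  have hw0 : ∀ i, i < c.V.length → w 0 ≤ w i := fun i hi =>
    SoundB_mono hW.mono (Nat.zero_le i) hi
  have hwl : ∀ i, i < c.V.length → w i ≤ w (c.V.length - 1) := fun i hi =>
    SoundB_mono hW.mono (by omega) (by omega)
  refine ⟨fun r _ => G r, ?_, ?_, ?_⟩
  · show (List.map (fun q : ℕ × ℕ => G q.1) (word (toPt c).P 1)).Pairwise (· < ·)
    rw [SoundB_word, List.map_map, List.pairwise_map]
    refine List.Pairwise.imp_of_mem ?_ List.pairwise_lt_range
    intro a b ha hb hab
    have ha' := List.mem_range.1 ha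
    have hb' := List.mem_range.1 hb
    show G a < G b
    rcases cases3 a ha' with h1 | ⟨a', h1, h1'⟩ | ⟨a', h1, h1'⟩ <;>
      rcases cases3 b hb' with h2 | ⟨b', h2, h2'⟩ | ⟨b', h2, h2'⟩
    · rw [G1 a h1, G1 b h2]; exact hp a b hab h2
    · rw [G1 a h1, h2', G2 b' h2]; exact lt_of_lt_of_le (hp' a h1).2.1 (hw0 b' h2)
    · rw [G1 a h1, h2', G3 b']
      exact lt_trans (lt_of_lt_of_le (hp' a h1).2.1 (hw0 _ (by omega))) (hq' b' h2).2.1
    · omega
    · rw [h1', h2', G2 a' h1, G2 b' h2]; exact hW.mono _ _ (by omega) h2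
    · rw [h1', h2', G2 a' h1, G3 b']; exact lt_of_le_of_lt (hwl a' h1) (hq' b' h2).2.1
    · omega
    · omega
    · rw [h1', h2', G3 a', G3 b']; exact hq _ _ (by omega) h2
  · intro r hr i _
    rw [SoundB_rls] at hr
    have hr' := List.mem_range.1 hr
    show Opn s (G r)
    rcases cases3 r hr' with h1 | ⟨a', h1, h1'⟩ | ⟨a', h1, h1'⟩
    · rw [G1 r h1]; exact (hp' r h1).1
    · rw [h1', G2 a' h1]; exact (hW.lu a' h1).1
    · rw [h1', G3 a']; exact (hq' a' h1).1
  · intro x hx i _
    rcases SoundB_ch hx with ⟨i, hi, h1, rfl⟩ | ⟨i, hi, rfl⟩ | ⟨i, hi, rfl⟩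
    · simp only []
      rw [SoundB_port_up, SoundB_port_lo, G2 _ hi, G2 _ (by omega)]
      exact (hW.ch i hi h1).2
    · simp only []
      rw [SoundB_port_up, SoundB_port_lo, G1 _ hi, G2 _ (hp' i hi).2.2.1]
      exact (hp' i hi).2.2.2
    · simp only []
      rw [SoundB_port_up, SoundB_port_lo, G3, G2 _ (hq' i hi).2.2.1]
      exact (hq' i hi).2.2.2

theorem wf_toPt {c : Cfg} {s : St} (h : ContB s c) : WF (toPt c) := by
  obtain ⟨hV, w, p, q, hW, hp, hp', hq, hq'⟩ := h
  refine ⟨?_, ?_, ?_⟩
  · rw [SoundB_rls]; exact List.nodup_range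
  · intro r hr
    rw [SoundB_rls] at hr
    exact List.mem_range.1 hr
  · intro x hx
    rw [SoundB_rls, List.mem_range, List.mem_range]
    rcases SoundB_ch hx with ⟨i, hi, h1, rfl⟩ | ⟨i, hi, rfl⟩ | ⟨i, hi, rfl⟩
    · constructor <;> simp only [] <;> omega
    · have := (hp' i hi).2.2.1
      constructor <;> simp only [] <;> omega
    · have := (hq' i hi).2.2.1
      constructor <;> simp only [] <;> omega

/-- insertion of a new position in an increasing sequence, together with a list of labels -/
theorem SoundB_insert {R k : ℕ} {l : List ℕ} {p : ℕ → ℕ} (A : ℕ → ℕ → Prop)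
    (hm : ∀ i j, i < j → j < l.length → p i < p j) (hA : ∀ i < l.length, A (p i) (l.getD i 0))
    (hk : ∀ i < l.length, p i ≠ k) (hR : A k R) :
    ∃ l' ∈ insL R l, ∃ p' : ℕ → ℕ, (∀ i j, i < j → j < l'.length → p' i < p' j) ∧
      ∀ i < l'.length, A (p' i) (l'.getD i 0) := by
  obtain ⟨a, ha, h1, h2⟩ := SoundB_pos p k l.length hm hk
  obtain ⟨l', hl', h3, h4, h5, h6⟩ := SoundB_insL R l a ha
  refine ⟨l', hl', fun i => if i < a then p i else if i = a then k else p (i - 1), ?_, ?_⟩
  · intro i j hij hj
    rw [h3] at hj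
    simp only []
    by_cases hja : j < a
    · rw [if_pos (by omega), if_pos hja]
      exact hm i j hij (by omega)
    · rw [if_neg hja]
      by_cases hja' : j = a
      · rw [if_pos hja', if_pos (by omega)]
        exact h1 i (by omega)
      · rw [if_neg hja']
        by_cases hia : i < a
        · rw [if_pos hia]
          exact lt_trans (h1 i hia) (h2 (j - 1) (by omega) (by omega))
        · rw [if_neg hia]
          by_cases hia' : i = a
          · rw [if_pos hia']
            exact h2 (j - 1) (by omega) (by omega)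
          · rw [if_neg hia']
            exact hm _ _ (by omega) (by omega)
  · intro i hi
    rw [h3] at hi
    simp only []
    by_cases hia : i < a
    · rw [if_pos hia, h4 i hia]
      exact hA i (by omega)
    · rw [if_neg hia]
      by_cases hia' : i = a
      · rw [if_pos hia', hia', h5]
        exact hR
      · rw [if_neg hia']
        have h7 := h6 (i - 1) (by omega)
        rw [show i - 1 + 1 = i by omega] at h7
        rw [h7]
        exact hA _ (by omega)

/-- the partner of the upper port of `w j` is above the window -/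
theorem winB_prev {c : Cfg} {j : ℕ} (h1 : isZ c.V j = true) (h2 : memN j c.P = false)
    (h : ∀ P ∈ insL j c.P, WinB ⟨P, c.V, c.N⟩) : WinB c := by
  intro n s hs hc
  obtain ⟨hV, w, p, q, hW, hp, hp', hq, hq'⟩ := hc
  obtain ⟨hj, hj0⟩ := SoundB_isZ h1
  have hlen := hs.length
  obtain ⟨k, hkj, hk, hpar⟩ := (hW.lu j hj).2.1
  have hkn : k < n := by rw [← hlen]; exact hk.1
  have hjn : w j < n := by rw [← hlen]; exact (hW.lu j hj).1.1
  have hpar' : par (lo s k) = up s (w j) := by
    rw [← hpar, par_par (le_trans (by norm_num) (hs.two_le_up hjn))]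
  have hk0 : k < w 0 := by
    by_contra hc
    have hk1 : k ≤ w (c.V.length - 1) := by
      have := SoundB_mono hW.mono (show j ≤ c.V.length - 1 by omega) (by omega)
      omega
    obtain ⟨i, hi, rfl⟩ := hW.consec k hk (by omega) hk1
    have hij : i < j := SoundB_lt hW.mono hi hkj
    have := hW.conv i j hij hj hpar'
    omega
  obtain ⟨P', hP', p', hm', hA'⟩ := SoundB_insert (R := j) (k := k) (l := c.P) (p := p)
    (fun x y => Opn s x ∧ x < w 0 ∧ y < c.V.length ∧ par (lo s x) = up s (w y)) hp hp'
    (by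
      intro i hi he
      have h3 := (hp' i hi).2.2
      rw [he, hpar'] at h3
      have h4 : w (c.P.getD i 0) < n := by rw [← hlen]; exact (hW.lu _ h3.1).1.1
      exact SoundB_memN h2 i hi
        (SoundB_inj hW.mono h3.1 hj (hs.up_inj h4 hjn h3.2.symm)))
    ⟨hk, hk0, hj, hpar'⟩
  exact h P' hP' n s hs ⟨hV, w, p', q, hW, hm', hA', hq, hq'⟩

/-- the partner of the lower port of `w j` is below the window -/
theorem winB_next {c : Cfg} {j : ℕ} (h0 : j < c.V.length) (h1 : hasNext j 0 c.V = false)
    (h2 : memN j c.N = false) (h : ∀ N ∈ insL j c.N, WinB ⟨c.P, c.V, N⟩) : WinB c := by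
  intro n s hs hc
  obtain ⟨hV, w, p, q, hW, hp, hp', hq, hq'⟩ := hc
  have hlen := hs.length
  obtain ⟨k, hkj, hk, hpar⟩ := (hW.lu j h0).2.2
  have hkn : k < n := by rw [← hlen]; exact hk.1
  have hjn : w j < n := by rw [← hlen]; exact (hW.lu j h0).1.1
  have hk0 : w (c.V.length - 1) < k := by
    by_contra hc
    have hk1 : w 0 ≤ k := by
      have := SoundB_mono hW.mono (show 0 ≤ j by omega) h0
      omega
    obtain ⟨i, hi, rfl⟩ := hW.consec k hk hk1 (by omega)
    have hij : j < i := SoundB_lt hW.mono h0 hkj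
    have h3 := hW.conv j i hij hi hpar
    exact SoundB_hasNext h1 i hi (by omega) (by omega)
  obtain ⟨N', hN', q', hm', hA'⟩ := SoundB_insert (R := j) (k := k) (l := c.N) (p := q)
    (fun x y => Opn s x ∧ w (c.V.length - 1) < x ∧ y < c.V.length ∧
      par (lo s (w y)) = up s x) hq hq'
    (by
      intro i hi he
      have h3 := (hq' i hi).2.2
      rw [he, ← hpar] at h3
      have h4 : w (c.N.getD i 0) < n := by rw [← hlen]; exact (hW.lu _ h3.1).1.1
      refine SoundB_memN h2 i hi
        (SoundB_inj hW.mono h3.1 h0 (hs.lo_inj h4 hjn (par_inj ?_ ?_ h3.2)))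
      · exact le_trans (by norm_num) (hs.two_le_lo h4)
      · exact le_trans (by norm_num) (hs.two_le_lo hjn))
    ⟨hk, hk0, h0, hpar⟩
  exact h N' hN' n s hs ⟨hV, w, p, q', hW, hp, hp', hm', hA'⟩

theorem SoundB_rdL {k : List ℕ → List ℕ → Bool} : ∀ (n : ℕ) (s acc : List ℕ),
    rdL k n s acc = true → ∃ a b, k a b = true := by
  intro n
  induction n with
  | zero => intro s acc h; rw [rdL] at h; exact ⟨_, _, h⟩
  | succ n ih =>
    intro s acc h
    rcases s with _ | ⟨x, s⟩
    · rw [rdL] at h; exact ⟨_, _, h⟩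
    · rw [rdL] at h; exact ih _ _ h

theorem SoundB_rdl {k : List ℕ → List ℕ → Bool} {s : List ℕ} (h : rdl s k = true) :
    ∃ a b, k a b = true := by
  rcases s with _ | ⟨n, s⟩
  · exact ⟨_, _, h⟩
  · exact SoundB_rdL n s [] h

theorem runB_sound {f : ℕ} {l : List ℕ} {todo : List Cfg} (h : runB f l todo = true) :
    ∀ c ∈ todo, WinB c := by
  induction f generalizing l todo with
  | zero =>
    rcases todo with _ | ⟨c, todo⟩
    · intro c hc; simp at hc
    · simp [runB] at h
  | succ f ih =>
    rcases todo with _ | ⟨c, todo⟩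
    · intro c hc; simp at hc
    · have key : ∀ (T : List Cfg), (WinB c) → (∀ c' ∈ todo, WinB c') →
          ∀ c' ∈ c :: todo, WinB c' := by
        intro T h1 h2 c' hc'
        rcases List.mem_cons.1 hc' with rfl | hc'
        · exact h1
        · exact h2 _ hc'
      unfold runB at h
      split at h
      · obtain ⟨us, s1, h⟩ := SoundB_rdl h
        obtain ⟨π, s2, h⟩ := SoundB_rdl h
        split at h
        · rename_i hcond
          rw [Bool.and_eq_true] at hcond
          obtain ⟨hc1, hc2⟩ := hcond
          have hc1' := Nat.eq_of_beq_eq_true hc1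
          refine key [] ?_ (ih h)
          intro n s hs hcont
          refine leaf_prof hs (wf_toPt hcont) hc2 ?_
          rw [hc1']
          exact cont_toPt hs hcont
        · exact absurd h (by decide)
      · split at h
        · rename_i hcond
          rw [Bool.and_eq_true] at hcond
          obtain ⟨hc1, hc2⟩ := hcond
          simp only [Bool.not_eq_true'] at hc2
          have hall := ih h
          refine key [] (winB_prev hc1 hc2 fun P hP => hall _ ?_) fun c' hc' => hall _ ?_
          · exact List.mem_append_left _ (List.mem_map.2 ⟨P, hP, rfl⟩)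
          · exact List.mem_append_right _ hc'
        · exact absurd h (by decide)
      · split at h
        · rename_i hcond
          rw [Bool.and_eq_true, Bool.and_eq_true] at hcond
          obtain ⟨⟨hc0, hc1⟩, hc2⟩ := hcond
          have hc0' := Nat.le_of_ble_eq_true hc0
          simp only [Bool.not_eq_true'] at hc1 hc2
          have hall := ih h
          refine key [] (winB_next hc0' hc1 hc2 fun P hP => hall _ ?_) fun c' hc' => hall _ ?_
          · exact List.mem_append_left _ (List.mem_map.2 ⟨P, hP, rfl⟩)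
          · exact List.mem_append_right _ hc'
        · exact absurd h (by decide)
      · exact absurd h (by decide)

end BP
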