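import Pool.Agent.Work.MP_475aca_co.CertB0
import Pool.Agent.Work.MP_475aca_co.CertB1
import Pool.Agent.Work.MP_475aca_co.CertB2
import Pool.Agent.Work.MP_475aca_co.CertB3
import Pool.Agent.Work.MP_475aca_co.CertB4
import Pool.Agent.Work.MP_475aca_co.CertB5
import Pool.Agent.Work.MP_475aca_co.CertB6
import Pool.Agent.Work.MP_475aca_co.CertB7
import Pool.Agent.Work.MP_475aca_co.CertB8
import Pool.Agent.Work.MP_475aca_co.CertB9
import Pool.Agent.Work.MP_475aca_co.CertB10
import Pool.Agent.Work.MP_475aca_co.CertB11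
import Pool.Agent.Work.MP_475aca_co.CertB12
import Pool.Agent.Work.MP_475aca_co.CertB13
import Pool.Agent.Work.MP_475aca_co.CertB14
import Pool.Agent.Work.MP_475aca_co.CertB15
import Pool.Agent.Work.MP_475aca_co.SoundB

/-! # All words of case B -/

namespace BP

theorem finalB_aux {f : ℕ} {l : List ℕ} {L : List (List ℕ)}
    (h : runB f l (L.map fun V => (⟨[], V, []⟩ : Cfg)) = true) : ∀ V ∈ L, WinB ⟨[], V, []⟩ :=
  fun V hV => runB_sound h ⟨[], V, []⟩ (List.mem_map.2 ⟨V, hV, rfl⟩)

theorem finalB_get : ∀ k < 16, ∀ V ∈ wordsB.getD k [], WinB ⟨[], V, []⟩ := by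
  intro k hk
  interval_cases k
  · exact finalB_aux runB0
  · exact finalB_aux runB1
  · exact finalB_aux runB2
  · exact finalB_aux runB3
  · exact finalB_aux runB4
  · exact finalB_aux runB5
  · exact finalB_aux runB6
  · exact finalB_aux runB7
  · exact finalB_aux runB8
  · exact finalB_aux runB9
  · exact finalB_aux runB10
  · exact finalB_aux runB11
  · exact finalB_aux runB12
  · exact finalB_aux runB13
  · exact finalB_aux runB14
  · exact finalB_aux runB15

theorem finalB : ∀ V ∈ wordsB.flatten, WinB ⟨[], V, []⟩ := by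
  intro V hV
  rw [List.mem_flatten] at hV
  obtain ⟨L, hL, hV⟩ := hV
  obtain ⟨k, hk, rfl⟩ := List.getElem_of_mem hL
  have h : wordsB.length = 16 := by decide +kernel
  refine finalB_get k (by omega) V ?_
  rw [List.getD_eq_getElem _ _ hk]
  exact hV

end BP
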