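import Pool.Agent.Work.MP_475aca_co.Assembly
import Pool.Agent.Work.MP_475aca_co.FinalB
import Pool.Agent.Work.MP_475aca_co.CertA1
import Pool.Agent.Work.MP_475aca_co.CertA2
import Pool.Agent.Work.MP_475aca_co.CertA3
import Pool.Agent.Work.MP_475aca_co.CertA4
import Pool.Agent.Work.MP_475aca_co.CertA5
import Pool.Agent.Work.MP_475aca_co.CertA6

/-! # The bound -/

namespace BP

theorem finalA : ∀ Q ∈ rootsA, Win Q := by
  intro Q hQ
  have hW := wf_rootsA Q hQ
  simp only [rootsA, List.mem_cons, List.not_mem_nil, or_false] at hQ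
  rcases hQ with rfl | rfl | rfl | rfl | rfl | rfl
  · exact run_sound runA1 (fun Q' hQ' => by
      rw [List.mem_singleton] at hQ'
      rw [hQ']
      exact hW) _ (List.mem_singleton_self _)
  · exact run_sound runA2 (fun Q' hQ' => by
      rw [List.mem_singleton] at hQ'
      rw [hQ']
      exact hW) _ (List.mem_singleton_self _)
  · exact run_sound runA3 (fun Q' hQ' => by
      rw [List.mem_singleton] at hQ'
      rw [hQ']
      exact hW) _ (List.mem_singleton_self _)
  · exact run_sound runA4 (fun Q' hQ' => by
      rw [List.mem_singleton] at hQ'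
      rw [hQ']
      exact hW) _ (List.mem_singleton_self _)
  · exact run_sound runA5 (fun Q' hQ' => by
      rw [List.mem_singleton] at hQ'
      rw [hQ']
      exact hW) _ (List.mem_singleton_self _)
  · exact run_sound runA6 (fun Q' hQ' => by
      rw [List.mem_singleton] at hQ'
      rw [hQ']
      exact hW) _ (List.mem_singleton_self _)

theorem bound : ∃ B : ℕ, ∀ (n : ℕ) (a : List ℤ), IsSP n a →
    ∃ ks : List ℕ, (∀ k ∈ ks, 1 ≤ k ∧ k ≤ n) ∧ pflips ks a = ident n ∧
      8 * ks.length ≤ 15 * n + B :=
  final finalA finalB (L := 11) (by norm_num) runCov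

end BP
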