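import Pool.Agent.Work.MP_475aca_co.Ramsey

/-! # The insertion lemma -/

namespace BP

theorem ins_pw_range {p : ℕ → ℕ → Prop} {m : ℕ} :
    (List.range m).Pairwise p ↔ ∀ i j, i < j → j < m → p i j := by
  rw [List.pairwise_iff_getElem]
  simp only [List.length_range, List.getElem_range]
  constructor
  · intro h i j hij hj
    exact h i j (hij.trans hj) hj hij
  · intro h i j _ hj hij
    exact h i j hij hj

theorem rls_cons (b : Bool × List ℕ) (P : Pat) : rls (b :: P) = b.2 ++ rls P := by
  simp [rls]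

theorem ins_word_cons (b : Bool × List ℕ) (P : Pat) (m : ℕ) :
    word (b :: P) m = word [b] m ++ word P m := by
  simp [word]

theorem emb_single {b : Bool × List ℕ} {m : ℕ} {g : ℕ → ℕ → ℕ} :
    Emb [b] m g ↔ (∀ i j, i < j → j < m → ∀ r ∈ b.2, ∀ r' ∈ b.2,
      (b.1 = true → g r i < g r' j) ∧ (b.1 = false → g r' j < g r i)) ∧
      ∀ i < m, (b.2.map fun r => g r i).Pairwise (· < ·) := by
  have h0 : (word [b] m).map (fun q => g q.1 q.2) =
      (cols b.1 m).flatMap fun i => b.2.map fun r => g r i := by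
    simp [word, List.map_flatMap, Function.comp_def]
  unfold Emb
  rw [h0, List.pairwise_flatMap, and_comm]
  have hmem : ∀ i, i ∈ cols b.1 m ↔ i < m := by
    intro i
    unfold cols
    split_ifs <;> simp
  refine and_congr ?_ (by simp [hmem])
  unfold cols
  rcases hb : b.1 with _ | _
  · simp only [Bool.false_eq_true, if_false, List.pairwise_reverse]
    rw [ins_pw_range]
    simp only [List.mem_map, forall_exists_index, and_imp, forall_apply_eq_imp_iff₂]
    constructor
    · intro h i j hij hj r hr r' hr'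
      exact ⟨fun h => by simp at h, fun _ => h i j hij hj r' hr' r hr⟩
    · intro h i j hij hj r hr r' hr'
      exact (h i j hij hj r' hr' r hr).2 trivial
  · simp only [if_true]
    rw [ins_pw_range]
    simp only [List.mem_map, forall_exists_index, and_imp, forall_apply_eq_imp_iff₂]
    constructor
    · intro h i j hij hj r hr r' hr'
      exact ⟨fun _ => h i j hij hj r hr r' hr', fun h => by simp at h⟩
    · intro h i j hij hj r hr r' hr'
      exact (h i j hij hj r hr r' hr').1 trivial

theorem emb_cons {b : Bool × List ℕ} {P : Pat} {m : ℕ} {g : ℕ → ℕ → ℕ} :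
    Emb (b :: P) m g ↔ Emb [b] m g ∧ Emb P m g ∧
      ∀ r ∈ b.2, ∀ i < m, ∀ r' ∈ rls P, ∀ i' < m, g r i < g r' i' := by
  unfold Emb
  rw [ins_word_cons, List.map_append, List.pairwise_append]
  refine and_congr_right fun _ => and_congr_right fun _ => ?_
  constructor
  · intro h r hr i hi r' hr' i' hi'
    exact h _ (List.mem_map.2 ⟨(r, i), mem_word.2 ⟨by simpa [rls] using hr, hi⟩, rfl⟩) _
      (List.mem_map.2 ⟨(r', i'), mem_word.2 ⟨hr', hi'⟩, rfl⟩)
  · intro h x hx y hy
    obtain ⟨⟨r, i⟩, h1, rfl⟩ := List.mem_map.1 hx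
    obtain ⟨⟨r', i'⟩, h2, rfl⟩ := List.mem_map.1 hy
    rw [mem_word] at h1 h2
    exact h r (by simpa [rls] using h1.1) i h1.2 r' h2.1 i' h2.2


/-- trichotomy for one role -/
theorem ins_tri {a : ℕ} (ha : 3 ≤ a) {d e : Bool} {Y G : ℕ → ℕ}
    (hY : ∀ i j, i < j → j < a + 1 → (d = true → Y i < Y j) ∧ (d = false → Y j < Y i))
    (hG : ∀ i j, i < j → j < a + 1 → (e = true → G i < G j) ∧ (e = false → G j < G i))
    (F2 : ∀ i j i' j', i < j → j < a + 1 → i' < j' → j' < a + 1 → (Y i < G j ↔ Y i' < G j'))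
    (F2' : ∀ i j i' j', i < j → j < a + 1 → i' < j' → j' < a + 1 → (G j < Y i ↔ G j' < Y i'))
    (F3 : ∀ i j i' j', i < j → j < a + 1 → i' < j' → j' < a + 1 → (Y j < G i ↔ Y j' < G i'))
    (F3' : ∀ i j i' j', i < j → j < a + 1 → i' < j' → j' < a + 1 → (G i < Y j ↔ G i' < Y j')) :
    (∀ i j, 1 ≤ i → i < a → 1 ≤ j → j < a → G j < Y i) ∨
    (∀ i j, 1 ≤ i → i < a → 1 ≤ j → j < a → Y i < G j) ∨
    (e = d ∧ ∀ i j, i < j → j < a + 1 → (d = true → Y i < G j ∧ G i < Y j) ∧
      (d = false → G j < Y i ∧ Y j < G i)) := by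
  have e1 := F2 0 1 0 2 (by omega) (by omega) (by omega) (by omega)
  have e2 := F2' 0 1 0 2 (by omega) (by omega) (by omega) (by omega)
  have e3 := F3 0 1 0 2 (by omega) (by omega) (by omega) (by omega)
  have e4 := F3' 0 1 0 2 (by omega) (by omega) (by omega) (by omega)
  have g12 := hG 1 2 (by omega) (by omega)
  have y12 := hY 1 2 (by omega) (by omega)
  have hne : Y 0 ≠ G 1 := by
    intro h
    rcases e with _ | _
    · have := g12.2 rfl
      omega
    · have := g12.1 rfl
      omega
  have hne' : Y 1 ≠ G 0 := by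
    intro h
    rcases d with _ | _
    · have := y12.2 rfl
      omega
    · have := y12.1 rfl
      omega
  rcases d with _ | _ <;> rcases e with _ | _
  · -- d = false, e = false
    rcases lt_or_gt_of_ne hne with h | h
    · refine Or.inr (Or.inl fun i j hi hi' hj hj' => ?_)
      have h1 := (hY 0 i (by omega) (by omega)).2 rfl
      have h2 := (F2 0 1 0 a (by omega) (by omega) (by omega) (by omega)).1 h
      have h3 := (hG j a (by omega) (by omega)).2 rfl
      omega
    · rcases lt_or_gt_of_ne hne' with h' | h'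
      · refine Or.inr (Or.inr ⟨rfl, fun i j hij hj => ⟨fun h => by simp at h, fun _ => ⟨?_, ?_⟩⟩⟩)
        · exact (F2' 0 1 i j (by omega) (by omega) hij hj).1 h
        · exact (F3 0 1 i j (by omega) (by omega) hij hj).1 h'
      · refine Or.inl fun i j hi hi' hj hj' => ?_
        have h1 := (hY i a (by omega) (by omega)).2 rfl
        have h2 := (F3' 0 1 0 a (by omega) (by omega) (by omega) (by omega)).1 h'
        have h3 := (hG 0 j (by omega) (by omega)).2 rfl
        omega
  · -- d = false, e = true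
    rcases lt_or_gt_of_ne hne with h | h
    · refine Or.inr (Or.inl fun i j hi hi' hj hj' => ?_)
      have h1 := (hY 0 i (by omega) (by omega)).2 rfl
      have h2 := (F2 0 1 0 j (by omega) (by omega) (by omega) (by omega)).1 h
      omega
    · refine Or.inl fun i j hi hi' hj hj' => ?_
      have h1 := (F2' 0 1 i a (by omega) (by omega) (by omega) (by omega)).1 h
      have h3 := (hG j a (by omega) (by omega)).1 rfl
      omega
  · -- d = true, e = false
    rcases lt_or_gt_of_ne hne with h | h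
    · refine Or.inr (Or.inl fun i j hi hi' hj hj' => ?_)
      have h1 := (F2 0 1 i a (by omega) (by omega) (by omega) (by omega)).1 h
      have h3 := (hG j a (by omega) (by omega)).2 rfl
      omega
    · refine Or.inl fun i j hi hi' hj hj' => ?_
      have h1 := (F2' 0 1 0 j (by omega) (by omega) (by omega) (by omega)).1 h
      have h3 := (hY 0 i (by omega) (by omega)).1 rfl
      omega
  · -- d = true, e = true
    rcases lt_or_gt_of_ne hne with h | h
    · rcases lt_or_gt_of_ne hne' with h' | h'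
      · refine Or.inr (Or.inl fun i j hi hi' hj hj' => ?_)
        have h1 := (hY i a (by omega) (by omega)).1 rfl
        have h2 := (F3 0 1 0 a (by omega) (by omega) (by omega) (by omega)).1 h'
        have h3 := (hG 0 j (by omega) (by omega)).1 rfl
        omega
      · refine Or.inr (Or.inr ⟨rfl, fun i j hij hj => ⟨fun _ => ⟨?_, ?_⟩, fun h => by simp at h⟩⟩)
        · exact (F2 0 1 i j (by omega) (by omega) hij hj).1 h
        · exact (F3' 0 1 i j (by omega) (by omega) hij hj).1 h'
    · refine Or.inl fun i j hi hi' hj hj' => ?_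
      have h1 := (hY 0 i (by omega) (by omega)).1 rfl
      have h2 := (F2' 0 1 0 a (by omega) (by omega) (by omega) (by omega)).1 h
      have h3 := (hG j a (by omega) (by omega)).1 rfl
      omega


/-! ### relations of `y` to a role and to a bundle, columns `< K` -/

def InsA (K : ℕ) (g : ℕ → ℕ → ℕ) (y : ℕ → ℕ) (r : ℕ) : Prop := ∀ i < K, ∀ j < K, g r j < y i

def InsB (K : ℕ) (g : ℕ → ℕ → ℕ) (y : ℕ → ℕ) (r : ℕ) : Prop := ∀ i < K, ∀ j < K, y i < g r j

def InsI (d : Bool) (K : ℕ) (g : ℕ → ℕ → ℕ) (y : ℕ → ℕ) (r : ℕ) : Prop :=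
  ∀ i j, i < j → j < K → (d = true → y i < g r j ∧ g r i < y j) ∧
      (d = false → g r j < y i ∧ y j < g r i)

theorem ins_ab {K : ℕ} (hK : 3 ≤ K) {g : ℕ → ℕ → ℕ} {y : ℕ → ℕ} {b : Bool × List ℕ}
    (hE : Emb [b] K g) {r r' : ℕ} (hr : r ∈ b.2) (hr' : r' ∈ b.2) (h : InsA K g y r)
    (h' : InsB K g y r') : False := by
  have e := (emb_single.1 hE).1
  have e1 := e 0 1 (by omega) (by omega) r' hr' r hr
  have e2 := e 0 1 (by omega) (by omega) r hr r' hr'
  have h1 := h 0 (by omega) 1 (by omega)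
  have h2 := h 0 (by omega) 0 (by omega)
  have h3 := h' 0 (by omega) 1 (by omega)
  have h4 := h' 0 (by omega) 0 (by omega)
  rcases hb : b.1 with _ | _
  · have := e2.2 hb
    omega
  · have := e1.1 hb
    omega

theorem ins_ai {K : ℕ} (hK : 3 ≤ K) {g : ℕ → ℕ → ℕ} {y : ℕ → ℕ} {b : Bool × List ℕ}
    (hE : Emb [b] K g) {r r' : ℕ} (hr : r ∈ b.2) (hr' : r' ∈ b.2) (h : InsA K g y r)
    (h' : InsI b.1 K g y r') : False := by
  have e := (emb_single.1 hE).1
  rcases hb : b.1 with _ | _
  · have h1 := (h' 1 2 (by omega) (by omega)).2 hb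
    have h2 := (e 0 1 (by omega) (by omega) r hr r' hr').2 hb
    have h3 := h 2 (by omega) 0 (by omega)
    omega
  · have h1 := (h' 0 1 (by omega) (by omega)).1 hb
    have h2 := (e 1 2 (by omega) (by omega) r' hr' r hr).1 hb
    have h3 := h 0 (by omega) 2 (by omega)
    omega

theorem ins_bi {K : ℕ} (hK : 3 ≤ K) {g : ℕ → ℕ → ℕ} {y : ℕ → ℕ} {b : Bool × List ℕ}
    (hE : Emb [b] K g) {r r' : ℕ} (hr : r ∈ b.2) (hr' : r' ∈ b.2) (h : InsB K g y r)
    (h' : InsI b.1 K g y r') : False := by
  have e := (emb_single.1 hE).1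
  rcases hb : b.1 with _ | _
  · have h1 := (h' 0 1 (by omega) (by omega)).2 hb
    have h2 := (e 1 2 (by omega) (by omega) r' hr' r hr).2 hb
    have h3 := h 0 (by omega) 2 (by omega)
    omega
  · have h1 := (h' 1 2 (by omega) (by omega)).1 hb
    have h2 := (e 0 1 (by omega) (by omega) r hr r' hr').1 hb
    have h3 := h 2 (by omega) 0 (by omega)
    omega

/-- relation to a bundle -/
def InsRel (d : Bool) (K : ℕ) (g : ℕ → ℕ → ℕ) (y : ℕ → ℕ) (b : Bool × List ℕ) : Prop :=
  (∀ r ∈ b.2, InsA K g y r) ∨ (b.2 ≠ [] ∧ ∀ r ∈ b.2, InsB K g y r) ∨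
    (b.2 ≠ [] ∧ b.1 = d ∧ ∀ r ∈ b.2, InsI d K g y r)

theorem ins_rel {K : ℕ} (hK : 3 ≤ K) {d : Bool} {g : ℕ → ℕ → ℕ} {y : ℕ → ℕ} {b : Bool × List ℕ}
    (hE : Emb [b] K g)
    (h : ∀ r ∈ b.2, InsA K g y r ∨ InsB K g y r ∨ (b.1 = d ∧ InsI d K g y r)) :
    InsRel d K g y b := by
  rcases List.eq_nil_or_concat b.2 with h0 | ⟨l, r0, h0⟩
  · left
    intro r hr
    rw [h0] at hr
    simp at hr
  have hr0 : r0 ∈ b.2 := by rw [h0]; simp
  have hne : b.2 ≠ [] := by rw [h0]; simp
  rcases h r0 hr0 with h1 | h1 | ⟨hd, h1⟩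
  · left
    intro r hr
    rcases h r hr with h2 | h2 | ⟨hd, h2⟩
    · exact h2
    · exact (ins_ab hK hE hr0 hr h1 h2).elim
    · subst hd
      exact (ins_ai hK hE hr0 hr h1 h2).elim
  · right
    left
    refine ⟨hne, fun r hr => ?_⟩
    rcases h r hr with h2 | h2 | ⟨hd, h2⟩
    · exact (ins_ab hK hE hr hr0 h2 h1).elim
    · exact h2
    · subst hd
      exact (ins_bi hK hE hr0 hr h1 h2).elim
  · right
    right
    refine ⟨hne, hd, fun r hr => ?_⟩
    rcases h r hr with h2 | h2 | ⟨_, h2⟩
    · subst hd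
      exact (ins_ai hK hE hr hr0 h2 h1).elim
    · subst hd
      exact (ins_bi hK hE hr hr0 h2 h1).elim
    · exact h2

theorem perm_insL {R : ℕ} {L L' : List ℕ} (h : L' ∈ insL R L) : L'.Perm (R :: L) := by
  induction L generalizing L' with
  | nil =>
    simp [insL] at h
    subst h
    exact List.Perm.refl _
  | cons r rs ih =>
    simp only [insL, List.mem_cons, List.mem_map] at h
    rcases h with rfl | ⟨l, hl, rfl⟩
    · exact List.Perm.refl _
    · exact ((ih hl).cons r).trans (List.Perm.swap R r rs)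

/-- the roles of the children -/
theorem rls_ins {P P' : Pat} {R : ℕ} (h : P' ∈ ins R P) : (rls P').Perm (R :: rls P) := by
  induction P generalizing P' with
  | nil =>
    simp [ins] at h
    rcases h with rfl | rfl <;> simp [rls]
  | cons b P ih =>
    simp only [ins, List.mem_cons, List.mem_append, List.mem_map] at h
    rcases h with rfl | rfl | ⟨l, hl, rfl⟩ | ⟨P1, hP1, rfl⟩
    · simp [rls]
    · simp [rls]
    · simp only [rls_cons]
      exact (perm_insL hl).append_right _
    · simp only [rls_cons]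
      refine ((ih hP1).append_left b.2).trans ?_
      exact List.perm_middle

theorem ins_slot {K : ℕ} {g : ℕ → ℕ → ℕ} {y : ℕ → ℕ} {R : ℕ} {L : List ℕ} (hR : R ∉ L)
    (hL : ∀ i < K, (L.map fun r => g r i).Pairwise (· < ·))
    (h : ∀ r ∈ L, (∀ i < K, y i < g r i) ∨ (∀ i < K, g r i < y i)) :
    ∃ L' ∈ insL R L, ∀ i < K, (L'.map fun r => if r = R then y i else g r i).Pairwise (· < ·) := by
  induction L with
  | nil => exact ⟨[R], by simp [insL], fun i _ => by simp⟩
  | cons r rs ih =>
    have hcong : ∀ (l : List ℕ), R ∉ l → ∀ i, (l.map fun r => if r = R then y i else g r i) =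
        l.map fun r => g r i := by
      intro l hl i
      refine List.map_congr_left fun x hx => ?_
      rw [if_neg]
      rintro rfl
      exact hl hx
    rcases h r (by simp) with h1 | h1
    · refine ⟨R :: r :: rs, by simp [insL], fun i hi => ?_⟩
      rw [List.map_cons, hcong _ hR i, List.pairwise_cons]
      refine ⟨?_, hL i hi⟩
      have h2 := hL i hi
      rw [List.map_cons, List.pairwise_cons] at h2
      intro x hx
      simp only [if_true]
      rw [List.map_cons, List.mem_cons] at hx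
      rcases hx with rfl | hx
      · exact h1 i hi
      · exact (h1 i hi).trans (h2.1 x hx)
    · obtain ⟨L', hL', h2⟩ := ih (fun hh => hR (by simp [hh]))
        (fun i hi => by
          have := hL i hi
          rw [List.map_cons, List.pairwise_cons] at this
          exact this.2) (fun r' hr' => h r' (by simp [hr']))
      refine ⟨r :: L', by simp only [insL, List.mem_cons, List.mem_map]; exact Or.inr ⟨L', hL', rfl⟩,
        fun i hi => ?_⟩
      rw [List.map_cons, List.pairwise_cons]
      refine ⟨?_, h2 i hi⟩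
      intro x hx
      have hrR : r ≠ R := by
        rintro rfl
        exact hR (by simp)
      rw [if_neg hrR]
      obtain ⟨r', hr', rfl⟩ := List.mem_map.1 hx
      have h3 := (perm_insL hL').mem_iff.1 hr'
      rw [List.mem_cons] at h3
      split_ifs with h4
      · exact h1 i hi
      · rcases h3 with h3 | h3
        · exact (h4 h3).elim
        · have := hL i hi
          rw [List.map_cons, List.pairwise_cons] at this
          exact this.1 _ (List.mem_map.2 ⟨r', h3, rfl⟩)


theorem ins_shift {Q : Pat} {K M : ℕ} {g h : ℕ → ℕ → ℕ} (hQ : Emb Q K g) (hMK : M + 2 ≤ K)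
    (hh : ∀ r ∈ rls Q, ∀ i < M, h r i = g r (i + 1)) : Emb Q M h := by
  have hs : Sel M K fun i => i + 1 :=
    ⟨fun i j hij _ => by simpa using hij, fun i hi => by simp only; omega⟩
  exact (hQ.sel hs).congr fun r hr i hi => (hh r hr i hi).symm

theorem ins_main {K M R : ℕ} (hK : 3 ≤ K) (hMK : M + 2 ≤ K) {d : Bool} {g : ℕ → ℕ → ℕ}
    {y : ℕ → ℕ}
    (hY : ∀ i j, i < j → j < K → (d = true → y i < y j) ∧ (d = false → y j < y i)) (P : Pat)
    (hR : R ∉ rls P) (hE : Emb P K g) (hrel : ∀ b ∈ P, InsRel d K g y b)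
    (hne : ∀ r ∈ rls P, (∀ i < K, y i < g r i) ∨ (∀ i < K, g r i < y i)) :
    ∃ P' ∈ ins R P, Emb P' M fun r i => if r = R then y (i + 1) else g r (i + 1) := by
  set h : ℕ → ℕ → ℕ := fun r i => if r = R then y (i + 1) else g r (i + 1) with hh
  have hhR : ∀ i, h R i = y (i + 1) := fun i => by simp [hh]
  have hhr : ∀ r, r ≠ R → ∀ i, h r i = g r (i + 1) := fun r hr i => by simp [hh, hr]
  have hRR : Emb [(d, [R])] M h := by
    rw [emb_single]
    refine ⟨fun i j hij hj r hr r' hr' => ?_, fun i hi => by simp⟩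
    simp only [List.mem_singleton] at hr hr'
    subst hr
    subst hr'
    rw [hhR, hhR]
    exact hY (i + 1) (j + 1) (by omega) (by omega)
  induction P with
  | nil =>
    refine ⟨[(d, [R])], ?_, hRR⟩
    rcases d with _ | _ <;> simp [ins]
  | cons b P ih =>
    have hE' := emb_cons.1 hE
    have hRb : R ∉ b.2 := fun hm => hR (by rw [rls_cons]; exact List.mem_append_left _ hm)
    have hRP : R ∉ rls P := fun hm => hR (by rw [rls_cons]; exact List.mem_append_right _ hm)
    have hneb : ∀ r ∈ b.2, r ≠ R := fun r hr e => hRb (e ▸ hr)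
    have hneP : ∀ r ∈ rls P, r ≠ R := fun r hr e => hRP (e ▸ hr)
    have hrlb : rls [b] = b.2 := by simp [rls]
    rcases hrel b (by simp) with hA | ⟨h0, hB⟩ | ⟨h0, hd, hI⟩
    · obtain ⟨P1, hP1, hE1⟩ := ih hRP hE'.2.1 (fun b' hb' => hrel b' (by simp [hb']))
        (fun r hr => hne r (by rw [rls_cons]; exact List.mem_append_right _ hr))
      refine ⟨b :: P1, ?_, ?_⟩
      · simp only [ins, List.mem_cons, List.mem_append, List.mem_map]
        exact Or.inr (Or.inr (Or.inr ⟨P1, hP1, rfl⟩))
      · rw [emb_cons]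
        refine ⟨ins_shift hE'.1 hMK fun r hr i hi => hhr r (hneb r (hrlb ▸ hr)) i, hE1, ?_⟩
        intro r hr i hi r' hr' i' hi'
        rw [hhr r (hneb r hr)]
        have h3 := (rls_ins hP1).mem_iff.1 hr'
        rw [List.mem_cons] at h3
        by_cases e : r' = R
        · subst e
          rw [hhR]
          exact hA r hr _ (by omega) _ (by omega)
        · rw [hhr r' e]
          exact hE'.2.2 r hr _ (by omega) r' (h3.resolve_left e) _ (by omega)
    · refine ⟨(d, [R]) :: b :: P, ?_, ?_⟩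
      · rcases d with _ | _ <;> simp [ins]
      · rw [emb_cons]
        refine ⟨hRR, ins_shift hE hMK fun r hr i hi => hhr r (fun e => hR (e ▸ hr)) i, ?_⟩
        intro r hr i hi r' hr' i' hi'
        simp only [List.mem_singleton] at hr
        subst hr
        rw [hhR, hhr r' (fun e => hR (e ▸ hr'))]
        rw [rls_cons, List.mem_append] at hr'
        rcases hr' with hr' | hr'
        · exact hB r' hr' _ (by omega) _ (by omega)
        · obtain ⟨r0, hr0⟩ := List.exists_mem_of_ne_nil _ h0
          have h1 := hB r0 hr0 (i + 1) (by omega) 0 (by omega)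
          have h2 := hE'.2.2 r0 hr0 0 (by omega) r' hr' (i' + 1) (by omega)
          omega
    · obtain ⟨L', hL', h2⟩ := ins_slot hRb (emb_single.1 hE'.1).2
        (fun r hr => hne r (by rw [rls_cons]; exact List.mem_append_left _ hr))
      have hmem : ∀ r ∈ L', r = R ∨ (r ≠ R ∧ r ∈ b.2) := by
        intro r hr
        have h3 := (perm_insL hL').mem_iff.1 hr
        rw [List.mem_cons] at h3
        rcases h3 with h3 | h3
        · exact Or.inl h3
        · exact Or.inr ⟨hneb r h3, h3⟩
      refine ⟨(b.1, L') :: P, ?_, ?_⟩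
      · simp only [ins, List.mem_cons, List.mem_append, List.mem_map]
        exact Or.inr (Or.inr (Or.inl ⟨L', hL', rfl⟩))
      rw [emb_cons]
      refine ⟨?_, ins_shift hE'.2.1 hMK fun r hr i hi => hhr r (hneP r hr) i, ?_⟩
      · rw [emb_single]
        refine ⟨?_, fun i hi => h2 (i + 1) (by omega)⟩
        intro i j hij hj r hr r' hr'
        have hb := (emb_single.1 hE'.1).1 (i + 1) (j + 1) (by omega) (by omega)
        have hy := hY (i + 1) (j + 1) (by omega) (by omega)
        simp only at hr hr' ⊢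
        rcases hmem r hr with rfl | ⟨e, hr⟩
        · rcases hmem r' hr' with rfl | ⟨e', hr'⟩
          · rw [hhR, hhR, hd]
            exact hy
          · rw [hhR, hhr r' e', hd]
            have := hI r' hr' (i + 1) (j + 1) (by omega) (by omega)
            exact ⟨fun t => (this.1 t).1, fun t => (this.2 t).1⟩
        · rcases hmem r' hr' with rfl | ⟨e', hr'⟩
          · rw [hhR, hhr r e, hd]
            have := hI r hr (i + 1) (j + 1) (by omega) (by omega)
            exact ⟨fun t => (this.1 t).2, fun t => (this.2 t).2⟩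
          · rw [hhr r e, hhr r' e']
            exact hb r hr r' hr'
      · intro r hr i hi r' hr' i' hi'
        simp only at hr
        rw [hhr r' (hneP r' hr')]
        rcases hmem r hr with rfl | ⟨e, hr⟩
        · rw [hhR]
          obtain ⟨r0, hr0⟩ := List.exists_mem_of_ne_nil _ h0
          rcases d with _ | _
          · have h3 := (hI r0 hr0 0 (i + 1) (by omega) (by omega)).2 rfl
            have h4 := hE'.2.2 r0 hr0 0 (by omega) r' hr' (i' + 1) (by omega)
            omega
          · have h3 := (hI r0 hr0 (i + 1) (i + 2) (by omega) (by omega)).1 rfl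
            have h4 := hE'.2.2 r0 hr0 (i + 2) (by omega) r' hr' (i' + 1) (by omega)
            omega
        · rw [hhr r e]
          exact hE'.2.2 r hr _ (by omega) r' hr' _ (by omega)


theorem emb_of_mem {P : Pat} {b : Bool × List ℕ} {m : ℕ} {g : ℕ → ℕ → ℕ} (h : Emb P m g)
    (hb : b ∈ P) : Emb [b] m g := by
  induction P with
  | nil => simp at hb
  | cons b' P ih =>
    rw [emb_cons] at h
    rw [List.mem_cons] at hb
    rcases hb with rfl | hb
    · exact h.1
    · exact ih h.2.1 hb

/-- Insertion of a new role `R` at the positions `y i`, after the selection of columns. -/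
theorem insert_lemma (P : Pat) (R : ℕ) (_hP : (rls P).Nodup) (hR : ∀ r ∈ rls P, r < R) (M : ℕ) :
    ∃ N, ∀ (g : ℕ → ℕ → ℕ) (y : ℕ → ℕ), Emb P N g →
      (∀ i j k, i < j → j < k → k < N → ¬(y i = y j ∧ y j = y k)) →
      ∃ ι, Sel M N ι ∧ ((∃ r ∈ rls P, ∀ i < M, y (ι i) = g r (ι i)) ∨
        ∃ P' ∈ ins R P, Emb P' M fun r i => if r = R then y (ι i) else g r (ι i)) := by
  obtain ⟨N, hN⟩ := ramsey
    (κ := Prop × Prop × (Fin R → Prop × Prop × Prop × Prop × Prop × Prop)) (M + 5)
  refine ⟨N, fun g y hE hy => ?_⟩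
  obtain ⟨ι, hι, k, hk⟩ := hN fun i j => (y i < y j, y j < y i, fun r =>
    (y i < g r j, g r j < y i, y j < g r i, g r i < y j, y i < g r i, g r i < y i))
  have hc := fun i j i' j' (h1 : i < j) (h2 : j < M + 5) (h3 : i' < j') (h4 : j' < M + 5) =>
    (hk i j h1 h2).trans (hk i' j' h3 h4).symm
  simp only [Prod.mk.injEq, eq_iff_iff, funext_iff] at hc
  have hEG : Emb P (M + 5) fun r i => g r (ι i) := hE.sel hι
  set Y : ℕ → ℕ := fun i => y (ι i) with hYd
  set G : ℕ → ℕ → ℕ := fun r i => g r (ι i) with hGd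
  have hc1 : ∀ i j i' j', i < j → j < M + 5 → i' < j' → j' < M + 5 →
      (Y i < Y j ↔ Y i' < Y j') ∧ (Y j < Y i ↔ Y j' < Y i') := fun i j i' j' h1 h2 h3 h4 =>
    ⟨(hc i j i' j' h1 h2 h3 h4).1, (hc i j i' j' h1 h2 h3 h4).2.1⟩
  have hc2 : ∀ r < R, ∀ i j i' j', i < j → j < M + 5 → i' < j' → j' < M + 5 →
      (Y i < G r j ↔ Y i' < G r j') ∧ (G r j < Y i ↔ G r j' < Y i') ∧
      (Y j < G r i ↔ Y j' < G r i') ∧ (G r i < Y j ↔ G r i' < Y j') ∧
      (Y i < G r i ↔ Y i' < G r i') ∧ (G r i < Y i ↔ G r i' < Y i') :=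
    fun r hr i j i' j' h1 h2 h3 h4 => (hc i j i' j' h1 h2 h3 h4).2.2 ⟨r, hr⟩
  clear hc hk
  -- the direction
  have hne : Y 0 ≠ Y 1 := by
    intro e
    have h1 := hc1 0 1 1 2 (by omega) (by omega) (by omega) (by omega)
    have h2 : Y 1 = Y 2 := by omega
    exact hy (ι 0) (ι 1) (ι 2) (hι.1 0 1 (by omega) (by omega)) (hι.1 1 2 (by omega) (by omega))
      (hι.2 2 (by omega)) ⟨e, h2⟩
  obtain ⟨d, hY⟩ : ∃ d : Bool, ∀ i j, i < j → j < M + 5 →
      (d = true → Y i < Y j) ∧ (d = false → Y j < Y i) := by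
    rcases lt_or_gt_of_ne hne with h | h
    · exact ⟨true, fun i j hij hj =>
        ⟨fun _ => (hc1 0 1 i j (by omega) (by omega) hij hj).1.1 h, fun h => by simp at h⟩⟩
    · exact ⟨false, fun i j hij hj =>
        ⟨fun h => by simp at h, fun _ => (hc1 0 1 i j (by omega) (by omega) hij hj).2.1 h⟩⟩
  by_cases hex : ∃ r ∈ rls P, Y 0 = G r 0
  · obtain ⟨r, hr, e⟩ := hex
    refine ⟨ι, ⟨fun i j hij hj => hι.1 i j hij (by omega), fun i hi => hι.2 i (by omega)⟩,
      Or.inl ⟨r, hr, fun i hi => ?_⟩⟩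
    have h1 := (hc2 r (hR r hr) 0 1 i (i + 1) (by omega) (by omega) (by omega) (by omega)).2.2.2.2
    show Y i = G r i
    omega
  · push Not at hex
    have hE' : Emb P (M + 3) fun r i => G r (i + 1) :=
      ins_shift hEG (by omega) fun r _ i _ => rfl
    have hrel : ∀ b ∈ P, InsRel d (M + 3) (fun r i => G r (i + 1)) (fun i => Y (i + 1)) b := by
      intro b hb
      refine ins_rel (by omega) (emb_of_mem hE' hb) fun r hr => ?_
      have hrP : r ∈ rls P := List.mem_flatMap.2 ⟨b, hb, hr⟩
      have hG := (emb_single.1 (emb_of_mem hEG hb)).1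
      have c2 := hc2 r (hR r hrP)
      rcases ins_tri (a := M + 4) (by omega) (d := d) (e := b.1) (Y := Y) (G := G r) hY
        (fun i j hij hj => hG i j hij hj r hr r hr)
        (fun i j i' j' h1 h2 h3 h4 => (c2 i j i' j' h1 h2 h3 h4).1)
        (fun i j i' j' h1 h2 h3 h4 => (c2 i j i' j' h1 h2 h3 h4).2.1)
        (fun i j i' j' h1 h2 h3 h4 => (c2 i j i' j' h1 h2 h3 h4).2.2.1)
        (fun i j i' j' h1 h2 h3 h4 => (c2 i j i' j' h1 h2 h3 h4).2.2.2.1) with h | h | ⟨hd, h⟩
      · exact Or.inl fun i hi j hj => h _ _ (by omega) (by omega) (by omega) (by omega)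
      · exact Or.inr (Or.inl fun i hi j hj => h _ _ (by omega) (by omega) (by omega) (by omega))
      · exact Or.inr (Or.inr ⟨hd, fun i j hij hj => h (i + 1) (j + 1) (by omega) (by omega)⟩)
    have hRn : R ∉ rls P := fun hm => lt_irrefl _ (hR R hm)
    obtain ⟨P', hP', h1⟩ := ins_main (K := M + 3) (M := M) (R := R) (by omega) (by omega)
      (d := d) (g := fun r i => G r (i + 1)) (y := fun i => Y (i + 1))
      (fun i j hij hj => hY (i + 1) (j + 1) (by omega) (by omega)) P hRn hE' hrel (by
        intro r hr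
        have c2 := hc2 r (hR r hr)
        rcases lt_or_gt_of_ne (hex r hr) with h | h
        · exact Or.inl fun i hi => (c2 0 1 (i + 1) (i + 2) (by omega) (by omega) (by omega)
            (by omega)).2.2.2.2.1.1 h
        · exact Or.inr fun i hi => (c2 0 1 (i + 1) (i + 2) (by omega) (by omega) (by omega)
            (by omega)).2.2.2.2.2.1 h)
    refine ⟨fun i => ι (i + 2), ⟨fun i j hij hj => hι.1 _ _ (by omega) (by omega),
      fun i hi => hι.2 _ (by omega)⟩, Or.inr ⟨P', hP', h1⟩⟩

end BP
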