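import Pool.Agent.Work.MP_475aca_co.Defs

/-! # Ports of the states -/

namespace BP

variable {n k k' p q : ℕ} {a : List ℤ} {s : St}

/-! ### ModelA : ports -/

theorem par_par (hp : 1 ≤ p) : par (par p) = p := by
  unfold par
  split_ifs <;> omega

theorem par_inj (hp : 1 ≤ p) (hq : 1 ≤ q) (e : par p = par q) : p = q := by
  rw [← par_par hp, ← par_par hq, e]

theorem ModelA_gaps_length (n : ℕ) (a : List ℤ) : (gaps n a).length = a.length := by
  induction a with
  | nil => simp [gaps]
  | cons v l ih =>
    cases l with
    | nil => simp [gaps]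
    | cons w l => simp only [gaps, List.length_cons] at ih ⊢; omega

theorem ModelA_length_of_isSP (ha : IsSP n a) : a.length = n := by
  have := ha.length_eq
  simpa using this

theorem IsSt.length (h : IsSt n s) : s.2.length = n := by
  obtain ⟨a, ha, rfl⟩ := h
  simp only [st, ModelA_gaps_length]
  exact ModelA_length_of_isSP ha

/-- the ports of the state `st n a`, from left to right -/
theorem ModelA_ports (h : a ≠ [] ∨ n = 0) :
    ((st n a).1 :: (st n a).2.flatMap fun g => [g.1, g.2]) =
      (a.flatMap fun v => [lp v, rp v]) ++ [2 * n + 2] := by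
  induction a with
  | nil =>
    rcases h with h | h
    · exact absurd rfl h
    · subst h; simp [st, gaps]
  | cons v l ih =>
    cases l with
    | nil => simp [st, gaps]
    | cons w l =>
      have := ih (Or.inl (by simp))
      simp only [st, gaps, List.flatMap_cons, List.cons_append, List.nil_append] at this ⊢
      rw [this]

theorem ModelA_lprp (v : ℤ) : [lp v, rp v].Perm [2 * v.natAbs, 2 * v.natAbs + 1] := by
  unfold lp rp
  split_ifs
  · exact List.Perm.refl _
  · exact List.Perm.swap _ _ _

theorem ModelA_flat (a : List ℤ) : (a.flatMap fun v => [lp v, rp v]).Perm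
    ((a.map Int.natAbs).flatMap fun m => [2 * m, 2 * m + 1]) := by
  induction a with
  | nil => simp
  | cons v l ih =>
    simp only [List.flatMap_cons, List.map_cons]
    exact (ModelA_lprp v).append ih

theorem ModelA_range (n c : ℕ) :
    ((List.range' c n).flatMap fun m => [2 * m, 2 * m + 1]) = List.range' (2 * c) (2 * n) := by
  induction n generalizing c with
  | zero => simp
  | succ n ih =>
    rw [List.range'_succ, List.flatMap_cons, ih]
    have : 2 * (n + 1) = 2 * n + 1 + 1 := by ring
    rw [this, List.range'_succ, List.range'_succ]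
    simp only [List.cons_append, List.nil_append]
    rw [show 2 * (c + 1) = 2 * c + 1 + 1 by ring]

/-- the ports of a state are `2, …, 2 n + 2`, each once -/
theorem IsSt.ports_perm (h : IsSt n s) :
    (s.1 :: s.2.flatMap fun g => [g.1, g.2]).Perm (List.range' 2 (2 * n + 1)) := by
  obtain ⟨a, ha, rfl⟩ := h
  have hl := ModelA_length_of_isSP ha
  rw [ModelA_ports (by
    by_cases h0 : a = []
    · right; subst h0; simpa using hl.symm
    · exact Or.inl h0)]
  have h1 := (ModelA_flat a).trans (List.Perm.flatMap_right _ ha)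
  rw [ModelA_range] at h1
  have h2 : List.range' 2 (2 * n + 1) = List.range' 2 (2 * n) ++ [2 * n + 2] := by
    rw [List.range'_concat]; simp [Nat.add_comm]
  rw [h2]
  exact h1.append_right _

theorem ModelA_flat_get (G : List Gap) (k : ℕ) (hk : k < G.length) :
    (G.flatMap fun g => [g.1, g.2])[2 * k]? = some (G.getD k (0, 0)).1 ∧
    (G.flatMap fun g => [g.1, g.2])[2 * k + 1]? = some (G.getD k (0, 0)).2 := by
  induction G generalizing k with
  | nil => simp at hk
  | cons g G ih =>
    cases k with
    | zero => simp
    | succ k =>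
      have := ih k (by simpa using hk)
      simp only [List.flatMap_cons, List.cons_append, List.nil_append]
      rw [show 2 * (k + 1) = 2 * k + 1 + 1 by ring]
      simpa using this

/-- the list of the ports -/
def ModelA_L (s : St) : List ℕ := s.1 :: s.2.flatMap fun g => [g.1, g.2]

theorem ModelA_top_get (s : St) : (ModelA_L s)[0]? = some s.1 := by simp [ModelA_L]

theorem ModelA_up_get (hk : k < s.2.length) : (ModelA_L s)[2 * k + 1]? = some (up s k) := by
  have := (ModelA_flat_get s.2 k hk).1
  simpa [ModelA_L, up] using this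

theorem ModelA_lo_get (hk : k < s.2.length) : (ModelA_L s)[2 * k + 2]? = some (lo s k) := by
  have := (ModelA_flat_get s.2 k hk).2
  simpa [ModelA_L, lo] using this

theorem ModelA_nodup (h : IsSt n s) : (ModelA_L s).Nodup :=
  h.ports_perm.nodup_iff.2 (List.nodup_range' (step := 1))

theorem ModelA_inj (h : IsSt n s) {i j x : ℕ} (hi : (ModelA_L s)[i]? = some x)
    (hj : (ModelA_L s)[j]? = some x) : i = j := by
  have hn := ModelA_nodup h
  obtain ⟨hi', hi⟩ := List.getElem?_eq_some_iff.1 hi
  obtain ⟨hj', hj⟩ := List.getElem?_eq_some_iff.1 hj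
  exact (hn.getElem_inj_iff).1 (hi.trans hj.symm)

theorem ModelA_mem (h : IsSt n s) {i x : ℕ} (hi : (ModelA_L s)[i]? = some x) :
    2 ≤ x ∧ x ≤ 2 * n + 2 := by
  have h1 : x ∈ ModelA_L s := List.mem_of_getElem? hi
  have h2 : x ∈ List.range' 2 (2 * n + 1) := (h.ports_perm.mem_iff).1 h1
  rw [List.mem_range'_1] at h2
  omega

theorem IsSt.top_ne_up (h : IsSt n s) (hk : k < n) : s.1 ≠ up s k := by
  intro e
  have hk' : k < s.2.length := by rw [h.length]; exact hk
  have := ModelA_inj h (ModelA_top_get s) (e ▸ ModelA_up_get hk')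
  omega

theorem IsSt.top_ne_lo (h : IsSt n s) (hk : k < n) : s.1 ≠ lo s k := by
  intro e
  have hk' : k < s.2.length := by rw [h.length]; exact hk
  have := ModelA_inj h (ModelA_top_get s) (e ▸ ModelA_lo_get hk')
  omega

theorem IsSt.up_inj (h : IsSt n s) (hk : k < n) (hk' : k' < n) (e : up s k = up s k') :
    k = k' := by
  rw [← h.length] at hk hk'
  have := ModelA_inj h (ModelA_up_get hk) (e ▸ ModelA_up_get hk')
  omega

theorem IsSt.lo_inj (h : IsSt n s) (hk : k < n) (hk' : k' < n) (e : lo s k = lo s k') :
    k = k' := by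
  rw [← h.length] at hk hk'
  have := ModelA_inj h (ModelA_lo_get hk) (e ▸ ModelA_lo_get hk')
  omega

theorem IsSt.up_ne_lo (h : IsSt n s) (hk : k < n) (hk' : k' < n) : up s k ≠ lo s k' := by
  intro e
  rw [← h.length] at hk hk'
  have := ModelA_inj h (ModelA_up_get hk) (e ▸ ModelA_lo_get hk')
  omega

theorem IsSt.two_le_top (h : IsSt n s) : 2 ≤ s.1 := (ModelA_mem h (ModelA_top_get s)).1

theorem IsSt.two_le_up (h : IsSt n s) (hk : k < n) : 2 ≤ up s k := by
  rw [← h.length] at hk
  exact (ModelA_mem h (ModelA_up_get hk)).1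

theorem IsSt.two_le_lo (h : IsSt n s) (hk : k < n) : 2 ≤ lo s k := by
  rw [← h.length] at hk
  exact (ModelA_mem h (ModelA_lo_get hk)).1

theorem ModelA_up_le (h : IsSt n s) (hk : k < n) : up s k ≤ 2 * n + 2 := by
  rw [← h.length] at hk
  exact (ModelA_mem h (ModelA_up_get hk)).2

theorem ModelA_lo_le (h : IsSt n s) (hk : k < n) : lo s k ≤ 2 * n + 2 := by
  rw [← h.length] at hk
  exact (ModelA_mem h (ModelA_lo_get hk)).2

theorem IsSt.port_exists (h : IsSt n s) (hp : 2 ≤ p) (hp' : p ≤ 2 * n + 2) :
    p = s.1 ∨ ∃ k < n, p = up s k ∨ p = lo s k := by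
  have h2 : p ∈ List.range' 2 (2 * n + 1) := by rw [List.mem_range'_1]; omega
  have h1 : p ∈ s.1 :: s.2.flatMap fun g => [g.1, g.2] := (h.ports_perm.mem_iff).2 h2
  rw [List.mem_cons, List.mem_flatMap] at h1
  rcases h1 with h1 | ⟨g, hg, h1⟩
  · exact Or.inl h1
  · right
    obtain ⟨k, hk, rfl⟩ := List.mem_iff_getElem.1 hg
    refine ⟨k, by rw [← h.length]; exact hk, ?_⟩
    simp only [List.mem_cons, List.not_mem_nil, or_false] at h1
    rw [up, lo, List.getD_eq_getElem _ _ hk]
    exact h1

/-- the partner of a port of an open gap is the top port, `1`, or a port of another open gap -/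
theorem IsSt.partner_cases (h : IsSt n s) (hk : Opn s k) (hp : p = up s k ∨ p = lo s k) :
    par p = s.1 ∨ par p = 1 ∨
      ∃ k', Opn s k' ∧ k' ≠ k ∧ (par p = up s k' ∨ par p = lo s k') := by
  obtain ⟨hkl, hne⟩ := hk
  have hkn : k < n := by rw [← h.length]; exact hkl
  have hp2 : 2 ≤ p ∧ p ≤ 2 * n + 2 := by
    rcases hp with rfl | rfl
    · exact ⟨h.two_le_up hkn, ModelA_up_le h hkn⟩
    · exact ⟨h.two_le_lo hkn, ModelA_lo_le h hkn⟩
  have hpp : par (par p) = p := par_par (by omega)
  have hpne : par p ≠ p := by unfold par; split_ifs <;> omega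
  by_cases h1 : par p = 1
  · exact Or.inr (Or.inl h1)
  have h2 : 2 ≤ par p ∧ par p ≤ 2 * n + 2 := by
    revert h1; unfold par; split_ifs <;> omega
  rcases h.port_exists h2.1 h2.2 with h3 | ⟨k', hk', h3⟩
  · exact Or.inl h3
  · right; right
    refine ⟨k', ⟨by rw [h.length]; exact hk', fun hc => ?_⟩, ?_, h3⟩
    · rcases h3 with h3 | h3
      · rw [← h3, hpp] at hc
        rcases hp with rfl | rfl
        · exact h.up_ne_lo hkn hk' hc
        · have := h.lo_inj hkn hk' hc
          subst this
          apply hne
          rw [← h3, hpp]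
      · have h4 : p = up s k' := by
          rw [← hpp, h3, ← hc, par_par (by have := h.two_le_up hk'; omega)]
        rcases hp with rfl | rfl
        · have := h.up_inj hkn hk' h4
          subst this
          exact hne hc
        · exact h.up_ne_lo hk' hkn h4.symm
    · rintro rfl
      rcases hp with rfl | rfl
      · rcases h3 with h3 | h3
        · exact hpne h3
        · exact hne h3
      · rcases h3 with h3 | h3
        · exact hne (by rw [← h3, hpp])
        · exact hpne h3

theorem ModelA_count (G : List Gap) : dd G =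
    ((Finset.range G.length).filter fun k => opn (G.getD k (0, 0)) = true).card := by
  induction G using List.reverseRecOn with
  | nil => simp [dd]
  | append_singleton G g ih =>
    unfold dd at ih ⊢
    rw [List.countP_append, ih, List.length_append, List.length_singleton, Finset.range_add_one,
      Finset.filter_insert]
    have h1 : ((Finset.range G.length).filter
        fun k => opn ((G ++ [g]).getD k (0, 0)) = true) =
        (Finset.range G.length).filter fun k => opn (G.getD k (0, 0)) = true := by
      apply Finset.filter_congr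
      intro k hk
      rw [List.getD_append _ _ _ _ (Finset.mem_range.1 hk)]
    have h2 : (G ++ [g]).getD G.length (0, 0) = g := by simp [List.getD]
    rw [h1, h2]
    by_cases hg : opn g = true
    · rw [if_pos hg, Finset.card_insert_of_notMem (by simp)]
      simp [List.countP_cons, hg]
    · rw [if_neg hg]
      simp [List.countP_cons, hg]

/-- the number of open gaps -/
theorem IsSt.dd_eq (h : IsSt n s) : dd s.2 = {k | Opn s k}.ncard := by
  rw [ModelA_count, ← Set.ncard_coe_finset]
  congr 1
  ext k
  simp [Opn, opn, up, lo]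

end BP
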