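import Pool.Agent.Work.MP_475aca_co.Insert

/-! # Auxiliary lemmas for the queries: chords, free sides, children -/

namespace BP

/-! ### lists of chords -/

theorem qa_mtd_iff {ch : List (ℕ × ℕ)} {σ : ℕ} :
    mtd ch σ = true ↔ ∃ c ∈ ch, c.1 = σ ∨ c.2 = σ := by
  induction ch with
  | nil => simp [mtd]
  | cons c l ih =>
    rw [mtd]
    by_cases h : c.1 = σ ∨ c.2 = σ
    · have h1 : (Nat.beq c.1 σ || Nat.beq c.2 σ) = true := by
        simpa [Nat.beq_eq] using h
      rw [h1]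
      simp [h]
    · have h1 : (Nat.beq c.1 σ || Nat.beq c.2 σ) = false := by
        rw [Bool.eq_false_iff]
        simpa [Nat.beq_eq] using h
      rw [h1]
      simp only [List.mem_cons, exists_eq_or_imp, h, false_or]
      exact ih

theorem qa_linked {l : List (ℕ × ℕ)} {s t : ℕ} (h : linked l s t = true) :
    (s, t) ∈ l ∨ (t, s) ∈ l := by
  induction l with
  | nil => simp [linked] at h
  | cons c l ih =>
    rw [linked] at h
    by_cases h1 : (Nat.beq c.1 s && Nat.beq c.2 t) = true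
    · simp only [Bool.and_eq_true, Nat.beq_eq] at h1
      left
      rw [← h1.1, ← h1.2]
      simp
    · rw [Bool.not_eq_true] at h1
      rw [h1] at h
      simp only at h
      by_cases h2 : (Nat.beq c.1 t && Nat.beq c.2 s) = true
      · simp only [Bool.and_eq_true, Nat.beq_eq] at h2
        right
        rw [← h2.1, ← h2.2]
        simp
      · rw [Bool.not_eq_true] at h2
        rw [h2] at h
        rcases ih h with h | h
        · exact Or.inl (List.mem_cons_of_mem _ h)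
        · exact Or.inr (List.mem_cons_of_mem _ h)

theorem qa_mem_freeL {ch : List (ℕ × ℕ)} {rs : List ℕ} {τ : ℕ} :
    τ ∈ freeL ch rs ↔ τ / 2 ∈ rs ∧ mtd ch τ = false := by
  induction rs with
  | nil => simp [freeL]
  | cons r rs ih =>
    have e1 : Nat.succ (Nat.mul 2 r) = 2 * r + 1 := rfl
    have e2 : Nat.mul 2 r = 2 * r := rfl
    have key : τ / 2 = r ↔ τ = 2 * r ∨ τ = 2 * r + 1 := by omega
    simp only [freeL, e2]
    rw [List.mem_cons, key]
    cases h1 : mtd ch (2 * r + 1) <;> cases h2 : mtd ch (2 * r) <;>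
      simp only [List.mem_cons, ih] <;> constructor
    · rintro (h | h | h)
      · exact ⟨Or.inl (Or.inl h), by rw [h]; exact h2⟩
      · exact ⟨Or.inl (Or.inr h), by rw [h]; exact h1⟩
      · exact ⟨Or.inr h.1, h.2⟩
    · rintro ⟨(h | h) | h, h'⟩
      · exact Or.inl h
      · exact Or.inr (Or.inl h)
      · exact Or.inr (Or.inr ⟨h, h'⟩)
    · rintro (h | h)
      · exact ⟨Or.inl (Or.inr h), by rw [h]; exact h1⟩
      · exact ⟨Or.inr h.1, h.2⟩
    · rintro ⟨(h | h) | h, h'⟩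
      · rw [h, h2] at h'
        exact absurd h' (by simp)
      · exact Or.inl h
      · exact Or.inr ⟨h, h'⟩
    · rintro (h | h)
      · exact ⟨Or.inl (Or.inl h), by rw [h]; exact h2⟩
      · exact ⟨Or.inr h.1, h.2⟩
    · rintro ⟨(h | h) | h, h'⟩
      · exact Or.inl h
      · rw [h, h1] at h'
        exact absurd h' (by simp)
      · exact Or.inr ⟨h, h'⟩
    · rintro h
      exact ⟨Or.inr h.1, h.2⟩
    · rintro ⟨(h | h) | h, h'⟩
      · rw [h, h2] at h'
        exact absurd h' (by simp)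
      · rw [h, h1] at h'
        exact absurd h' (by simp)
      · exact ⟨h, h'⟩

theorem qa_mem_free {Q : Pt} {τ : ℕ} :
    τ ∈ free Q ↔ τ / 2 ∈ rls Q.P ∧ mtd Q.ch τ = false := qa_mem_freeL

/-! ### ports -/

/-- port above (`false`) or below (`true`) the gap -/
def prt (s : St) (b : Bool) (k : ℕ) : ℕ := if b then lo s k else up s k

/-- number of the side -/
def sd (b : Bool) : ℕ := if b then 1 else 0

theorem port_sd {s : St} {g : ℕ → ℕ → ℕ} {b : Bool} {r i : ℕ} :
    port s g (2 * r + sd b) i = prt s b (g r i) := by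
  cases b
  · have h1 : (2 * r + sd false) % 2 = 0 := by simp [sd]
    have h2 : (2 * r + sd false) / 2 = r := by simp [sd]
    simp [port, prt, h1, h2]
  · have h1 : (2 * r + sd true) % 2 = 1 := by simp only [sd, if_true]; omega
    have h2 : (2 * r + sd true) / 2 = r := by simp only [sd, if_true]; omega
    simp [port, prt, h1, h2]

theorem exists_sd (σ : ℕ) : ∃ b, σ = 2 * (σ / 2) + sd b := by
  by_cases h : σ % 2 = 0
  · exact ⟨false, by simp only [sd]; simp; omega⟩
  · exact ⟨true, by simp only [sd]; simp; omega⟩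

variable {n m : ℕ} {s : St} {Q : Pt} {g g' : ℕ → ℕ → ℕ}

theorem Opn.lt (hs : IsSt n s) {k : ℕ} (h : Opn s k) : k < n := by
  rw [← hs.length]
  exact h.1

theorem two_le_prt (hs : IsSt n s) {k : ℕ} (hk : k < n) (b : Bool) : 2 ≤ prt s b k := by
  cases b
  · exact hs.two_le_up hk
  · exact hs.two_le_lo hk

/-- different gaps or sides have different ports -/
theorem prt_inj (hs : IsSt n s) {k k' : ℕ} (hk : k < n) (hk' : k' < n) {b b' : Bool}
    (e : prt s b k = prt s b' k') : b = b' ∧ k = k' := by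
  cases b <;> cases b'
  · exact ⟨rfl, hs.up_inj hk hk' e⟩
  · exact absurd e (hs.up_ne_lo hk hk')
  · exact absurd e.symm (hs.up_ne_lo hk' hk)
  · exact ⟨rfl, hs.lo_inj hk hk' e⟩

theorem par_prt_inj (hs : IsSt n s) {k k' : ℕ} (hk : k < n) (hk' : k' < n) {b b' : Bool}
    (e : par (prt s b k) = par (prt s b' k')) : b = b' ∧ k = k' :=
  prt_inj hs hk hk' (par_inj (by have := two_le_prt hs hk b; omega)
    (by have := two_le_prt hs hk' b'; omega) e)

theorem ContG.two_le_port (hs : IsSt n s) (hg : ContG s Q m g) {σ i : ℕ} (hσ : σ / 2 ∈ rls Q.P)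
    (hi : i < m) : 2 ≤ port s g σ i := by
  obtain ⟨b, hb⟩ := exists_sd σ
  rw [hb, port_sd]
  exact two_le_prt hs ((hg.opn _ hσ i hi).lt hs) b

/-- chords in both directions -/
theorem ContG.link (hs : IsSt n s) (hW : WF Q) (hg : ContG s Q m g) {σ τ i : ℕ} (hi : i < m)
    (h : (σ, τ) ∈ Q.ch ∨ (τ, σ) ∈ Q.ch) : par (port s g σ i) = port s g τ i := by
  rcases h with h | h
  · exact hg.ch _ h i hi
  · have h1 := hg.ch _ h i hi
    have h2 := (hW.mem _ h).1
    simp only at h1 h2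
    rw [← h1]
    exact par_par (by have := hg.two_le_port hs h2 hi; omega)

/-- a matched side has its partner at one of the roles -/
theorem ContG.mtd_partner (hs : IsSt n s) (hW : WF Q) (hg : ContG s Q m g) {σ i : ℕ} (hi : i < m)
    (h : mtd Q.ch σ = true) : ∃ τ, τ / 2 ∈ rls Q.P ∧ mtd Q.ch τ = true ∧
      par (port s g σ i) = port s g τ i := by
  rw [qa_mtd_iff] at h
  obtain ⟨c, hc, rfl | rfl⟩ := h
  · exact ⟨c.2, (hW.mem c hc).2, qa_mtd_iff.2 ⟨c, hc, Or.inr rfl⟩, hg.link hs hW hi (Or.inl hc)⟩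
  · exact ⟨c.1, (hW.mem c hc).1, qa_mtd_iff.2 ⟨c, hc, Or.inl rfl⟩, hg.link hs hW hi (Or.inr hc)⟩

theorem qa_port_congr {σ i : ℕ} (h : g' (σ / 2) i = g (σ / 2) i) :
    port s g' σ i = port s g σ i := by
  unfold port
  rw [h]

/-- children of the queries -/
theorem ContG.child (hW : WF Q) (hg : ContG s Q m g) {P' : Pat} {R' : ℕ} (c : ℕ × ℕ)
    (hP' : Emb P' m g') (hmem : ∀ r ∈ rls P', r ∈ rls Q.P ∨ ∀ i < m, Opn s (g' r i))
    (hagree : ∀ r ∈ rls Q.P, ∀ i < m, g' r i = g r i)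
    (hnew : ∀ i < m, par (port s g' c.1 i) = port s g' c.2 i) :
    ContG s ⟨R', P', c :: Q.ch⟩ m g' := by
  refine ⟨hP', fun r hr i hi => ?_, fun d hd i hi => ?_⟩
  · rcases hmem r hr with h | h
    · rw [hagree r h i hi]
      exact hg.opn r h i hi
    · exact h i hi
  · rcases List.mem_cons.1 hd with h | h
    · rw [h]
      exact hnew i hi
    · rw [qa_port_congr (hagree _ (hW.mem d h).1 i hi), qa_port_congr (hagree _ (hW.mem d h).2 i hi)]
      exact hg.ch d h i hi

theorem qa_wf_child {R' : ℕ} (hW : WF Q) {P' : Pat} (c : ℕ × ℕ) (hnd : (rls P').Nodup)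
    (hlt : ∀ r ∈ rls P', r < R') (hsub : ∀ r ∈ rls Q.P, r ∈ rls P')
    (h1 : c.1 / 2 ∈ rls P') (h2 : c.2 / 2 ∈ rls P') : WF ⟨R', P', c :: Q.ch⟩ := by
  refine ⟨hnd, hlt, fun d hd => ?_⟩
  rcases List.mem_cons.1 hd with h | h
  · rw [h]
    exact ⟨h1, h2⟩
  · exact ⟨hsub _ (hW.mem d h).1, hsub _ (hW.mem d h).2⟩

/-! ### the insertion lemma for all large numbers of columns -/

theorem Sel.id {M N : ℕ} (h : M ≤ N) : Sel M N fun i => i :=
  ⟨fun _ _ hij _ => hij, fun _ hi => lt_of_lt_of_le hi h⟩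

theorem Sel.mono_right {M N N' : ℕ} {ι : ℕ → ℕ} (h : Sel M N ι) (hN : N ≤ N') : Sel M N' ι :=
  ⟨h.1, fun i hi => lt_of_lt_of_le (h.2 i hi) hN⟩

theorem insert_eventually (P : Pat) (R : ℕ) (hP : (rls P).Nodup) (hR : ∀ r ∈ rls P, r < R) (M : ℕ) :
    ∀ᶠ N in Filter.atTop, ∀ (g : ℕ → ℕ → ℕ) (y : ℕ → ℕ), Emb P N g →
      (∀ i j k, i < j → j < k → k < N → ¬(y i = y j ∧ y j = y k)) →
      ∃ ι, Sel M N ι ∧ ((∃ r ∈ rls P, ∀ i < M, y (ι i) = g r (ι i)) ∨
        ∃ P' ∈ ins R P, Emb P' M fun r i => if r = R then y (ι i) else g r (ι i)) := by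
  obtain ⟨N0, h⟩ := insert_lemma P R hP hR M
  rw [Filter.eventually_atTop]
  refine ⟨N0, fun N hN g y hg hy => ?_⟩
  obtain ⟨ι, hι, h2⟩ := h g y (hg.sel (Sel.id hN)) (fun i j k hij hjk hk =>
    hy i j k hij hjk (lt_of_lt_of_le hk hN))
  exact ⟨ι, hι.mono_right hN, h2⟩

end BP
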