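import Pool.Agent.Work.MP_475aca_co.QAux

/-! # Soundness of the partner query -/

namespace BP

theorem mem_chP {Q Q' : Pt} {σ : ℕ} : Q' ∈ chP Q σ ↔
    (∃ τ ∈ free Q, τ / 2 ≠ σ / 2 ∧ Q' = ⟨Q.R, Q.P, (σ, τ) :: Q.ch⟩) ∨
    ∃ P' ∈ ins Q.R Q.P, ∃ b : Bool, Q' = ⟨Q.R + 1, P', (σ, 2 * Q.R + sd b) :: Q.ch⟩ := by
  have e2 : Nat.mul 2 Q.R = 2 * Q.R + sd false := by simp [sd]
  have e3 : Nat.succ (2 * Q.R + sd false) = 2 * Q.R + sd true := by simp [sd]
  have e4 : Nat.succ Q.R = Q.R + 1 := rfl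
  have e5 : ∀ τ, (!(Nat.beq (Nat.div τ 2) (Nat.div σ 2))) = true ↔ τ / 2 ≠ σ / 2 := fun τ => by
    rw [Bool.not_eq_true', ← Bool.not_eq_true, Nat.beq_eq]
    exact Iff.rfl
  unfold chP
  rw [e2, e3, e4, List.mem_append, List.mem_map, List.mem_flatMap]
  constructor
  · rintro (⟨τ, hτ, h⟩ | ⟨P', hP', h⟩)
    · rw [List.mem_filter, e5] at hτ
      exact Or.inl ⟨τ, hτ.1, hτ.2, h.symm⟩
    · simp only [List.mem_cons, List.not_mem_nil, or_false] at h
      rcases h with h | h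
      · exact Or.inr ⟨P', hP', false, h⟩
      · exact Or.inr ⟨P', hP', true, h⟩
  · rintro (⟨τ, hτ, hτ', h⟩ | ⟨P', hP', b, h⟩)
    · exact Or.inl ⟨τ, by rw [List.mem_filter, e5]; exact ⟨hτ, hτ'⟩, h.symm⟩
    · refine Or.inr ⟨P', hP', ?_⟩
      rw [h]
      cases b <;> simp

theorem sd_div (r : ℕ) (b : Bool) : (2 * r + sd b) / 2 = r := by
  cases b
  · simp [sd]
  · simp only [sd, if_true]
    omega

theorem wf_chP {Q : Pt} {σ : ℕ} (hW : WF Q) (h2 : σ / 2 ∈ rls Q.P) :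
    ∀ Q' ∈ chP Q σ, WF Q' := by
  intro Q' hQ'
  rcases mem_chP.1 hQ' with ⟨τ, hτ, -, rfl⟩ | ⟨P', hP', b, rfl⟩
  · exact qa_wf_child hW _ hW.nodup hW.lt (fun r hr => hr) h2 (qa_mem_free.1 hτ).1
  · have hmem : ∀ r, r ∈ rls P' ↔ r = Q.R ∨ r ∈ rls Q.P := fun r => by
      rw [(rls_ins hP').mem_iff, List.mem_cons]
    refine qa_wf_child hW _ ((rls_ins hP').nodup_iff.2 (List.nodup_cons.2
      ⟨fun h => absurd (hW.lt _ h) (lt_irrefl _), hW.nodup⟩)) (fun r hr => ?_)
      (fun r hr => (hmem r).2 (Or.inr hr)) ((hmem _).2 (Or.inr h2)) ?_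
    · rcases (hmem r).1 hr with h | h
      · omega
      · have := hW.lt r h
        omega
    · rw [sd_div]
      exact (hmem _).2 (Or.inl rfl)

theorem win_chP {Q : Pt} {σ : ℕ} (hW : WF Q) (h1 : mtd Q.ch σ = false) (h2 : σ / 2 ∈ rls Q.P)
    (h : ∀ Q' ∈ chP Q σ, Win Q') : Win Q := by
  obtain ⟨N1, hN1⟩ := exists_forall_win h
  obtain ⟨N2, hN2⟩ := Filter.eventually_atTop.1
    (insert_eventually Q.P Q.R hW.nodup hW.lt (N1 + 1))
  obtain ⟨N3, hN3⟩ := select (κ := Option (Option Bool)) (N2 + 2)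
  refine ⟨N3, fun n s hs ⟨g, hg⟩ => ?_⟩
  obtain ⟨b, hb⟩ := exists_sd σ
  set r := σ / 2 with hr
  have hcol : ∀ i, ∃ (k : Option (Option Bool)) (y : ℕ), i < N3 →
      (k = none → par (prt s b (g r i)) = s.1) ∧ (k = some none → par (prt s b (g r i)) = 1) ∧
      (∀ sy, k = some (some sy) → Opn s y ∧ par (prt s b (g r i)) = prt s sy y ∧ y ≠ g r i) := by
    intro i
    by_cases hi : i < N3
    · have hp : prt s b (g r i) = up s (g r i) ∨ prt s b (g r i) = lo s (g r i) := by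
        cases b
        · exact Or.inl rfl
        · exact Or.inr rfl
      rcases hs.partner_cases (hg.opn r h2 i hi) hp with h3 | h3 | ⟨y, h3, h4, h5⟩
      · exact ⟨none, 0, fun _ => ⟨fun _ => h3, fun h => by simp at h, fun sy h => by simp at h⟩⟩
      · exact ⟨some none, 0, fun _ => ⟨fun h => by simp at h, fun _ => h3, fun sy h => by
          simp at h⟩⟩
      · obtain ⟨sy, hsy⟩ : ∃ sy, par (prt s b (g r i)) = prt s sy y := by
          rcases h5 with h | h
          · exact ⟨false, h⟩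
          · exact ⟨true, h⟩
        refine ⟨some (some sy), y, fun _ => ⟨fun h => by simp at h, fun h => by simp at h,
          fun sy' h => ?_⟩⟩
        have : sy = sy' := by simpa using h
        subst this
        exact ⟨h3, hsy, h4⟩
    · exact ⟨none, 0, fun h => absurd h hi⟩
  choose kc y hprop using hcol
  obtain ⟨ι, hι, o, hk⟩ := hN3 kc
  set g1 : ℕ → ℕ → ℕ := fun r i => g r (ι i) with hg1
  set y1 : ℕ → ℕ := fun i => y (ι i) with hy1
  have hG : ContG s Q (N2 + 2) g1 := hg.sel hι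
  have hp : ∀ i < N2 + 2, (o = none → par (prt s b (g1 r i)) = s.1) ∧
      (o = some none → par (prt s b (g1 r i)) = 1) ∧
      (∀ sy, o = some (some sy) → Opn s (y1 i) ∧ par (prt s b (g1 r i)) = prt s sy (y1 i) ∧
        y1 i ≠ g1 r i) := by
    intro i hi
    have h3 := hprop (ι i) (hι.2 i hi)
    rw [hk i hi] at h3
    exact h3
  have hrn : ∀ i < N2 + 2, g1 r i < n := fun i hi => (hG.opn r h2 i hi).lt hs
  have hinj : ∀ i < N2 + 2, ∀ j < N2 + 2, par (prt s b (g1 r i)) = par (prt s b (g1 r j)) →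
      i = j := fun i hi j hj e =>
    (hG.emb.inj hW.nodup h2 h2 hi hj (par_prt_inj hs (hrn i hi) (hrn j hj) e).2).2
  rcases o with _ | _ | sy
  · exfalso
    have b0 := (hp 0 (by omega)).1 rfl
    have b1 := (hp 1 (by omega)).1 rfl
    exact absurd (hinj 0 (by omega) 1 (by omega) (b0.trans b1.symm)) (by omega)
  · exfalso
    have b0 := (hp 0 (by omega)).2.1 rfl
    have b1 := (hp 1 (by omega)).2.1 rfl
    exact absurd (hinj 0 (by omega) 1 (by omega) (b0.trans b1.symm)) (by omega)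
  · have hq : ∀ i < N2 + 2, Opn s (y1 i) ∧ par (prt s b (g1 r i)) = prt s sy (y1 i) ∧
        y1 i ≠ g1 r i := fun i hi => (hp i hi).2.2 sy rfl
    have hyinj : ∀ i < N2 + 2, ∀ j < N2 + 2, y1 i = y1 j → i = j := by
      intro i hi j hj hij
      refine hinj i hi j hj ?_
      rw [(hq i hi).2.1, (hq j hj).2.1, hij]
    obtain ⟨κ, hκ, halt⟩ := hN2 (N2 + 2) (by omega) g1 y1 hG.emb (fun i j k hij hjk hk he => by
      have := hyinj i (by omega) j (by omega) he.1
      omega)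
    have hG2 : ContG s Q (N1 + 1) fun r i => g1 r (κ i) := hG.sel hκ
    rcases halt with ⟨r', hr', hyr⟩ | ⟨P', hP', hE'⟩
    · have h0 : (0 : ℕ) < N1 + 1 := by omega
      have hrr : r' ≠ r := by
        rintro rfl
        exact (hq _ (hκ.2 0 h0)).2.2 (hyr 0 h0)
      have hfree : 2 * r' + sd sy ∈ free Q := by
        rw [qa_mem_free, sd_div]
        refine ⟨hr', ?_⟩
        by_contra hcon
        rw [Bool.not_eq_false] at hcon
        obtain ⟨τ, hτ1, hτm, hτ2⟩ := hG2.mtd_partner hs hW h0 hcon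
        rw [port_sd] at hτ2
        have h3 := (hq _ (hκ.2 0 h0)).2.1
        rw [hyr 0 h0] at h3
        rw [← h3, par_par (by have := two_le_prt hs (hrn _ (hκ.2 0 h0)) b; omega)] at hτ2
        obtain ⟨b', hb'⟩ := exists_sd τ
        rw [hb', port_sd] at hτ2
        have h4 := prt_inj hs (hrn _ (hκ.2 0 h0)) ((hG2.opn _ hτ1 0 h0).lt hs) hτ2
        have h5 := (hG.emb.inj hW.nodup h2 hτ1 (hκ.2 0 h0) (hκ.2 0 h0) h4.2).1
        have h6 : σ = τ := by rw [hb, hb', ← h4.1, ← h5]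
        rw [← h6, h1] at hτm
        exact absurd hτm (by simp)
      refine hN1 _ (mem_chP.2 (Or.inl ⟨_, hfree, by rw [sd_div]; exact hrr, rfl⟩)) n s hs
        (Cont.mono ?_ (Nat.le_succ N1))
      refine ⟨_, hG2.child hW _ hG2.emb (fun q hq' => Or.inl hq') (fun _ _ _ _ => rfl)
        fun i hi => ?_⟩
      have h3 := (hq _ (hκ.2 i hi)).2.1
      rw [hyr i hi] at h3
      simp only
      rw [port_sd, hb, port_sd]
      exact h3
    · set g3 : ℕ → ℕ → ℕ := fun r i => if r = Q.R then y1 (κ i) else g1 r (κ i) with hg3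
      have hE3 : Emb P' (N1 + 1) g3 := hE'
      have hmem' : ∀ r, r ∈ rls P' ↔ r = Q.R ∨ r ∈ rls Q.P := fun r => by
        rw [(rls_ins hP').mem_iff, List.mem_cons]
      have hg3R : ∀ i, g3 Q.R i = y1 (κ i) := fun i => by simp only [hg3, if_true]
      have hag3 : ∀ r ∈ rls Q.P, ∀ i < N1 + 1, g3 r i = g1 r (κ i) := by
        intro r hr i hi
        have := hW.lt r hr
        simp only [hg3]
        rw [if_neg (by omega)]
      refine hN1 _ (mem_chP.2 (Or.inr ⟨P', hP', sy, rfl⟩)) n s hs (Cont.mono ?_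
        (Nat.le_succ N1))
      refine ⟨g3, hG2.child hW _ hE3 (fun q hq' => ?_) hag3 fun i hi => ?_⟩
      · rcases (hmem' q).1 hq' with h | h
        · right
          intro i hi
          rw [h, hg3R]
          exact (hq _ (hκ.2 i hi)).1
        · exact Or.inl h
      · simp only
        rw [port_sd, hg3R, hb, port_sd, hag3 r h2 i hi]
        exact (hq _ (hκ.2 i hi)).2.1

end BP
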