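import Pool.Agent.Work.MP_475aca_co.QAux

/-! # Soundness of the crossing query -/

namespace BP

/-! ### adjacency -/

theorem qx_adjL {r r' : ℕ} {l : List ℕ} (h : adjL r r' l = true) :
    ∃ l1 l2, l = l1 ++ r :: r' :: l2 := by
  induction l with
  | nil => simp [adjL] at h
  | cons s l ih =>
    rw [adjL.eq_def] at h
    simp only at h
    by_cases hs : Nat.beq s r = true
    · rw [hs] at h
      simp only at h
      rw [Nat.beq_eq] at hs
      cases l with
      | nil => simp at h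
      | cons t l =>
        simp only [Nat.beq_eq] at h
        exact ⟨[], l, by rw [hs, h]; rfl⟩
    · rw [Bool.not_eq_true] at hs
      rw [hs] at h
      obtain ⟨l1, l2, h⟩ := ih h
      exact ⟨s :: l1, l2, by rw [h]; rfl⟩

theorem mem_cols {d : Bool} {m i : ℕ} : i ∈ cols d m ↔ i < m := by
  cases d <;> simp [cols]

theorem qx_adj_mem {P : Pat} {r r' : ℕ} (h : adj P r r' = true) : r ∈ rls P ∧ r' ∈ rls P := by
  unfold adj at h
  rw [List.any_eq_true] at h
  obtain ⟨b, hb, h⟩ := h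
  obtain ⟨l1, l2, h⟩ := qx_adjL h
  constructor
  · exact List.mem_flatMap.2 ⟨b, hb, by rw [h]; simp⟩
  · exact List.mem_flatMap.2 ⟨b, hb, by rw [h]; simp⟩

theorem qx_infix {α β : Type} {f : α → List β} {l : List α} {a : α} (ha : a ∈ l) {u : List β}
    (h : ∃ w1 w2, f a = w1 ++ (u ++ w2)) : ∃ w1 w2, l.flatMap f = w1 ++ (u ++ w2) := by
  obtain ⟨l1, l2, rfl⟩ := List.append_of_mem ha
  obtain ⟨w1, w2, h⟩ := h
  refine ⟨l1.flatMap f ++ w1, w2 ++ l2.flatMap f, ?_⟩
  rw [List.flatMap_append, List.flatMap_cons, h]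
  simp only [List.append_assoc]

theorem qx_adj_word {P : Pat} {r r' : ℕ} (h : adj P r r' = true) {m i : ℕ} (hi : i < m) :
    ∃ w1 w2, word P m = w1 ++ ([(r, i), (r', i)] ++ w2) := by
  unfold adj at h
  rw [List.any_eq_true] at h
  obtain ⟨b, hb, h⟩ := h
  obtain ⟨l1, l2, h⟩ := qx_adjL h
  unfold word
  refine qx_infix hb (qx_infix ((mem_cols (d := b.1)).2 hi) ?_)
  refine ⟨l1.map fun r => (r, i), l2.map fun r => (r, i), ?_⟩
  rw [h]
  simp

theorem qx_adj {P : Pat} {r r' : ℕ} (h : adj P r r' = true) {m i : ℕ} (hi : i < m)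
    {g : ℕ → ℕ → ℕ} (hg : Emb P m g) :
    g r i < g r' i ∧ ∀ q ∈ word P m, g q.1 q.2 ≤ g r i ∨ g r' i ≤ g q.1 q.2 := by
  obtain ⟨w1, w2, hw⟩ := qx_adj_word h hi
  unfold Emb at hg
  rw [hw] at hg
  rw [hw]
  rw [List.map_append, List.pairwise_append, List.cons_append, List.map_cons, List.pairwise_cons,
    List.cons_append, List.map_cons, List.pairwise_cons] at hg
  obtain ⟨h1, ⟨h2, h3, h4⟩, h5⟩ := hg
  refine ⟨h2 _ (by simp), fun q hq => ?_⟩
  rw [List.mem_append, List.cons_append, List.mem_cons, List.cons_append, List.mem_cons] at hq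
  rcases hq with hq | rfl | rfl | hq
  · left
    exact (h5 _ (List.mem_map_of_mem hq) _ (by simp)).le
  · left
    exact le_rfl
  · right
    exact le_rfl
  · right
    exact (h3 _ (List.mem_map_of_mem hq)).le

theorem qx_cyc {Q : Pt} {cyc : List (ℕ × ℕ)} (h : cycOK Q cyc = true) : cyc ≠ [] ∧ ∀ c ∈ cyc,
    adj Q.P c.1 c.2 = true ∧
    (∃ c' ∈ cyc, linked Q.ch (2 * c.1 + 1) (2 * c'.1 + 1) = true ∨
      linked Q.ch (2 * c.1 + 1) (2 * c'.2) = true) ∧
    (∃ c' ∈ cyc, linked Q.ch (2 * c.2) (2 * c'.1 + 1) = true ∨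
      linked Q.ch (2 * c.2) (2 * c'.2) = true) := by
  unfold cycOK at h
  rw [Bool.and_eq_true, List.all_eq_true] at h
  obtain ⟨h1, h2⟩ := h
  refine ⟨fun h0 => by rw [h0] at h1; simp at h1, fun c hc => ?_⟩
  have h3 := h2 c hc
  rw [Bool.and_eq_true, Bool.and_eq_true, List.any_eq_true, List.any_eq_true] at h3
  obtain ⟨⟨h4, c1, h5, h6⟩, c2, h7, h8⟩ := h3
  rw [Bool.or_eq_true] at h6 h8
  exact ⟨h4, ⟨c1, h5, h6⟩, c2, h7, h8⟩

/-! ### one column -/

theorem qx_col {n m : ℕ} {s : St} {Q : Pt} {cyc : List (ℕ × ℕ)} {g : ℕ → ℕ → ℕ} (hs : IsSt n s)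
    (hW : WF Q) (h1 : cycOK Q cyc = true) (hg : ContG s Q m g) {i : ℕ} (hi : i < m) :
    ∃ c ∈ cyc, ∃ (sx : Bool) (x : ℕ), g c.1 i < x ∧ x < g c.2 i ∧ Opn s x ∧
      (par (prt s sx x) = s.1 ∨ ∃ (sy : Bool) (y : ℕ), Opn s y ∧ par (prt s sx x) = prt s sy y ∧
        y ≠ x ∧ ∀ d ∈ cyc, ¬(g d.1 i < y ∧ y < g d.2 i)) := by
  obtain ⟨hne, hcyc⟩ := qx_cyc h1
  have hlt : ∀ c ∈ cyc, g c.1 i < g c.2 i := fun c hc => (qx_adj (hcyc c hc).1 hi hg.emb).1
  have hn : ∀ c ∈ cyc, g c.2 i < n := fun c hc =>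
    (hg.opn _ (qx_adj_mem (hcyc c hc).1).2 i hi).lt hs
  set J : Finset ℕ := (Finset.range n).filter fun j => ∃ c ∈ cyc, g c.1 i < j ∧ j ≤ g c.2 i with hJ
  have memJ : ∀ j, j ∈ J ↔ ∃ c ∈ cyc, g c.1 i < j ∧ j ≤ g c.2 i := by
    intro j
    rw [hJ, Finset.mem_filter, Finset.mem_range]
    constructor
    · exact fun h => h.2
    · rintro ⟨c, hc, ha, hb⟩
      exact ⟨lt_of_le_of_lt hb (hn c hc), c, hc, ha, hb⟩
  obtain ⟨c0, hc0⟩ := List.exists_mem_of_ne_nil _ hne
  have hJne : J.Nonempty := ⟨g c0.2 i, (memJ _).2 ⟨c0, hc0, hlt c0 hc0, le_rfl⟩⟩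
  obtain ⟨j, hj, p, hp, hout, hpar⟩ := hs.cross hJne (fun j hj => by
    obtain ⟨c, hc, ha, hb⟩ := (memJ j).1 hj
    exact ⟨by omega, lt_of_le_of_lt hb (hn c hc)⟩)
  -- the ends of the intervals
  have hend1 : ∀ c ∈ cyc, ∃ j' ∈ J, par (lo s (g c.1 i)) = lo s (j' - 1) ∨
      par (lo s (g c.1 i)) = up s j' := by
    intro c hc
    obtain ⟨c', hc', h | h⟩ := (hcyc c hc).2.1
    · have h2 := hg.link hs hW hi (qa_linked h)
      have e1 : port s g (2 * c.1 + 1) i = lo s (g c.1 i) := port_sd (b := true)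
      have e2 : port s g (2 * c'.1 + 1) i = lo s (g c'.1 i) := port_sd (b := true)
      rw [e1, e2] at h2
      exact ⟨g c'.1 i + 1, (memJ _).2 ⟨c', hc', by omega, hlt c' hc'⟩, Or.inl (by simpa using h2)⟩
    · have h2 := hg.link hs hW hi (qa_linked h)
      have e1 : port s g (2 * c.1 + 1) i = lo s (g c.1 i) := port_sd (b := true)
      have e2 : port s g (2 * c'.2) i = up s (g c'.2 i) := port_sd (b := false)
      rw [e1, e2] at h2
      exact ⟨g c'.2 i, (memJ _).2 ⟨c', hc', hlt c' hc', le_rfl⟩, Or.inr h2⟩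
  have hend2 : ∀ c ∈ cyc, ∃ j' ∈ J, par (up s (g c.2 i)) = lo s (j' - 1) ∨
      par (up s (g c.2 i)) = up s j' := by
    intro c hc
    obtain ⟨c', hc', h | h⟩ := (hcyc c hc).2.2
    · have h2 := hg.link hs hW hi (qa_linked h)
      have e1 : port s g (2 * c.2) i = up s (g c.2 i) := port_sd (b := false)
      have e2 : port s g (2 * c'.1 + 1) i = lo s (g c'.1 i) := port_sd (b := true)
      rw [e1, e2] at h2
      exact ⟨g c'.1 i + 1, (memJ _).2 ⟨c', hc', by omega, hlt c' hc'⟩, Or.inl (by simpa using h2)⟩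
    · have h2 := hg.link hs hW hi (qa_linked h)
      have e1 : port s g (2 * c.2) i = up s (g c.2 i) := port_sd (b := false)
      have e2 : port s g (2 * c'.2) i = up s (g c'.2 i) := port_sd (b := false)
      rw [e1, e2] at h2
      exact ⟨g c'.2 i, (memJ _).2 ⟨c', hc', hlt c' hc', le_rfl⟩, Or.inr h2⟩
  -- the gap `x`
  obtain ⟨c, hc, hcj1, hcj2⟩ := (memJ j).1 hj
  obtain ⟨sx, x, hpx, hx1, hx2⟩ : ∃ (sx : Bool) (x : ℕ), p = prt s sx x ∧ g c.1 i < x ∧
      x < g c.2 i := by
    rcases hp with hp | hp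
    · by_cases h0 : j - 1 = g c.1 i
      · exfalso
        obtain ⟨j', hj', h | h⟩ := hend1 c hc
        · exact (hout j' hj').1 (by rw [hp, h0, h])
        · exact (hout j' hj').2 (by rw [hp, h0, h])
      · exact ⟨true, j - 1, hp, by omega, by omega⟩
    · by_cases h0 : j = g c.2 i
      · exfalso
        obtain ⟨j', hj', h | h⟩ := hend2 c hc
        · exact (hout j' hj').1 (by rw [hp, h0, h])
        · exact (hout j' hj').2 (by rw [hp, h0, h])
      · exact ⟨false, j, hp, by omega, by omega⟩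
  have hxn : x < n := lt_trans hx2 (hn c hc)
  -- ports of the gaps inside of the intervals are ports of `J`
  have hins : ∀ d ∈ cyc, ∀ k, g d.1 i < k → k < g d.2 i → par p ≠ up s k ∧ par p ≠ lo s k := by
    intro d hd k hk1 hk2
    constructor
    · exact (hout k ((memJ k).2 ⟨d, hd, hk1, hk2.le⟩)).2
    · have := (hout (k + 1) ((memJ _).2 ⟨d, hd, by omega, by omega⟩)).1
      simpa using this
  have hxo : Opn s x := by
    refine ⟨by rw [hs.length]; exact hxn, fun hcl => ?_⟩
    have h3 := hins c hc x hx1 hx2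
    cases sx
    · exact h3.2 (by rw [hpx]; exact hcl)
    · refine h3.1 ?_
      rw [hpx]
      show par (lo s x) = up s x
      rw [← hcl]
      exact par_par (by have := hs.two_le_up hxn; omega)
  refine ⟨c, hc, sx, x, hx1, hx2, hxo, ?_⟩
  rcases hpar with hpar | ⟨k, hk, hpar⟩
  · left
    rw [← hpx]
    exact hpar
  · right
    obtain ⟨sy, hsy⟩ : ∃ sy, par p = prt s sy k := by
      rcases hpar with h | h
      · exact ⟨false, h⟩
      · exact ⟨true, h⟩
    have hkx : k ≠ x := by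
      rintro rfl
      have h3 := hins c hc k hx1 hx2
      cases sy
      · exact h3.1 hsy
      · exact h3.2 hsy
    have hp2 : 1 ≤ p := by
      rw [hpx]
      have := two_le_prt hs hxn sx
      omega
    refine ⟨sy, k, ⟨by rw [hs.length]; exact hk, fun hcl => hkx ?_⟩, by rw [← hpx]; exact hsy, hkx,
      fun d hd hdk => ?_⟩
    · -- `k` closed
      have h4 : p = par (prt s sy k) := by rw [← hsy, par_par hp2]
      cases sy
      · have h5 : prt s sx x = prt s true k := by
          rw [← hpx, h4]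
          exact hcl
        exact (prt_inj hs hxn hk h5).2.symm
      · have h5 : prt s sx x = prt s false k := by
          rw [← hpx, h4]
          show par (lo s k) = up s k
          rw [← hcl]
          exact par_par (by have := hs.two_le_up hk; omega)
        exact (prt_inj hs hxn hk h5).2.symm
    · have h3 := hins d hd k hdk.1 hdk.2
      cases sy
      · exact h3.1 hsy
      · exact h3.2 hsy

/-! ### insertion after a role -/

theorem qx_insA {r x : ℕ} {l : List ℕ} (hl : l.Nodup) :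
    insA r x l = l.flatMap fun q => if q = r then [q, x] else [q] := by
  induction l with
  | nil => rfl
  | cons s l ih =>
    rw [List.nodup_cons] at hl
    rw [insA, List.flatMap_cons]
    by_cases hs : s = r
    · have h1 : Nat.beq s r = true := by rw [Nat.beq_eq]; exact hs
      rw [h1]
      simp only [hs, if_true]
      have h2 : (l.flatMap fun q => if q = r then [q, x] else [q]) = l := by
        conv_rhs => rw [← List.flatMap_singleton' l]
        refine List.flatMap_congr fun q hq => ?_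
        rw [if_neg (fun h => hl.1 (by rw [hs, ← h]; exact hq))]
      rw [h2]
      rfl
    · have h1 : Nat.beq s r = false := by
        rw [Bool.eq_false_iff]
        intro h
        exact hs (by rwa [Nat.beq_eq] at h)
      rw [h1]
      simp only [hs, if_false]
      rw [ih hl.2]
      rfl

theorem rls_nodup_of_mem {P : Pat} (h : (rls P).Nodup) {b : Bool × List ℕ} (hb : b ∈ P) :
    b.2.Nodup := (List.nodup_flatMap.1 h).1 b hb

theorem qx_rls {P : Pat} (hP : (rls P).Nodup) {r x : ℕ} :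
    rls (insAfter r x P) = (rls P).flatMap fun q => if q = r then [q, x] else [q] := by
  unfold rls insAfter
  rw [List.flatMap_map, List.flatMap_assoc]
  refine List.flatMap_congr fun b hb => ?_
  exact qx_insA (rls_nodup_of_mem hP hb)

theorem qx_word {P : Pat} (hP : (rls P).Nodup) {r x m : ℕ} :
    word (insAfter r x P) m =
      (word P m).flatMap fun q => if q.1 = r then [q, (x, q.2)] else [q] := by
  unfold word insAfter
  rw [List.flatMap_map, List.flatMap_assoc]
  refine List.flatMap_congr fun b hb => ?_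
  simp only
  rw [List.flatMap_assoc]
  refine List.flatMap_congr fun i _ => ?_
  rw [qx_insA (rls_nodup_of_mem hP hb), List.map_flatMap, List.flatMap_map]
  refine List.flatMap_congr fun q _ => ?_
  by_cases hq : q = r
  · simp [hq]
  · simp [hq]

theorem qx_perm {l : List ℕ} (hl : l.Nodup) {r x : ℕ} (hr : r ∈ l) :
    (l.flatMap fun q => if q = r then [q, x] else [q]).Perm (x :: l) := by
  induction l with
  | nil => simp at hr
  | cons s l ih =>
    rw [List.nodup_cons] at hl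
    rw [List.flatMap_cons]
    by_cases hs : s = r
    · have h2 : (l.flatMap fun q => if q = r then [q, x] else [q]) = l := by
        conv_rhs => rw [← List.flatMap_singleton' l]
        refine List.flatMap_congr fun q hq => ?_
        rw [if_neg (fun h => hl.1 (by rw [hs, ← h]; exact hq))]
      rw [h2, if_pos hs]
      exact List.Perm.swap x s l
    · have hr' : r ∈ l := by
        rcases List.mem_cons.1 hr with h | h
        · exact absurd h.symm hs
        · exact h
      rw [if_neg hs]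
      exact ((ih hl.2 hr').cons s).trans (List.Perm.swap x s l)

theorem qx_rls_perm {P : Pat} (hP : (rls P).Nodup) {r x : ℕ} (hr : r ∈ rls P) :
    (rls (insAfter r x P)).Perm (x :: rls P) := by
  rw [qx_rls hP]
  exact qx_perm hP hr

theorem qx_emb {P : Pat} (hP : (rls P).Nodup) {R : ℕ} (hR : ∀ r ∈ rls P, r < R) {r r' m : ℕ}
    (hadj : adj P r r' = true) {g : ℕ → ℕ → ℕ} (hg : Emb P m g) {x : ℕ → ℕ}
    (hx : ∀ i < m, g r i < x i ∧ x i < g r' i) :
    Emb (insAfter r R P) m fun q i => if q = R then x i else g q i := by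
  have hne : ∀ q ∈ word P m, q.1 ≠ R := fun q hq h => by
    have := hR _ (mem_word.1 hq).1
    omega
  have h1 : ((word (insAfter r R P) m).map fun q => if q.1 = R then x q.2 else g q.1 q.2) =
      (word P m).flatMap fun q => if q.1 = r then [g q.1 q.2, x q.2] else [g q.1 q.2] := by
    rw [qx_word hP, List.map_flatMap]
    refine List.flatMap_congr fun q hq => ?_
    by_cases hq' : q.1 = r
    · have hrR : r ≠ R := hq' ▸ hne q hq
      simp [hq', hrR]
    · simp [hq', hne q hq]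
  unfold Emb
  rw [h1, List.pairwise_flatMap]
  constructor
  · intro q hq
    split_ifs with hq'
    · rw [List.pairwise_pair]
      rw [hq']
      exact (hx q.2 (mem_word.1 hq).2).1
    · exact List.pairwise_singleton _ _
  · have h2 : (word P m).Pairwise fun a b => g a.1 a.2 < g b.1 b.2 := by
      unfold Emb at hg
      rw [List.pairwise_map] at hg
      exact hg
    refine h2.imp_of_mem fun {a b} ha hb hab => ?_
    have hb3 := (qx_adj hadj (mem_word.1 ha).2 hg).2 b hb
    intro z hz z' hz'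
    have hza : z = g a.1 a.2 ∨ (a.1 = r ∧ z = x a.2) := by
      split_ifs at hz with h
      · simp only [List.mem_cons, List.not_mem_nil, or_false] at hz
        rcases hz with hz | hz
        · exact Or.inl hz
        · exact Or.inr ⟨h, hz⟩
      · simp only [List.mem_cons, List.not_mem_nil, or_false] at hz
        exact Or.inl hz
    have hzb : g b.1 b.2 ≤ z' := by
      split_ifs at hz' with h
      · simp only [List.mem_cons, List.not_mem_nil, or_false] at hz'
        rcases hz' with hz' | hz'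
        · exact hz'.ge
        · rw [hz', h]
          exact (hx b.2 (mem_word.1 hb).2).1.le
      · simp only [List.mem_cons, List.not_mem_nil, or_false] at hz'
        exact hz'.ge
    rcases hza with hza | ⟨har, hza⟩
    · omega
    · have hx2 := hx a.2 (mem_word.1 ha).2
      rw [har] at hab
      rcases hb3 with h | h <;> omega


/-! ### the children -/

theorem mem_chX {Q Q' : Pt} {cyc : List (ℕ × ℕ)} : Q' ∈ chX Q cyc ↔ ∃ c ∈ cyc, ∃ b : Bool,
    (∃ τ ∈ free Q, Q' = ⟨Q.R + 1, insAfter c.1 Q.R Q.P, (2 * Q.R + sd b, τ) :: Q.ch⟩) ∨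
    ∃ P2 ∈ ins (Q.R + 1) (insAfter c.1 Q.R Q.P),
      (cyc.any fun d => betw P2 d.1 (Q.R + 1) d.2) = false ∧
      ∃ b' : Bool, Q' = ⟨Q.R + 2, P2, (2 * Q.R + sd b, 2 * (Q.R + 1) + sd b') :: Q.ch⟩ := by
  have e1 : ∀ b : Bool, Nat.add (Nat.mul 2 Q.R) (sd b) = 2 * Q.R + sd b := fun _ => rfl
  have e2 : Nat.add (Nat.mul 2 Q.R) 2 = 2 * (Q.R + 1) + sd false := by
    show 2 * Q.R + 2 = 2 * (Q.R + 1) + sd false
    simp only [sd]
    simp
    omega
  have e3 : Nat.add (Nat.mul 2 Q.R) 3 = 2 * (Q.R + 1) + sd true := by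
    show 2 * Q.R + 3 = 2 * (Q.R + 1) + sd true
    simp only [sd]
    simp
    omega
  have e4 : Nat.succ Q.R = Q.R + 1 := rfl
  have e5 : Nat.add Q.R 2 = Q.R + 2 := rfl
  have e6 : ∀ P2 : Pat, (!(cyc.any fun d => betw P2 d.1 (Q.R + 1) d.2)) = true ↔
      (cyc.any fun d => betw P2 d.1 (Q.R + 1) d.2) = false := fun P2 => by
    cases (cyc.any fun d => betw P2 d.1 (Q.R + 1) d.2) <;> simp
  unfold chX
  rw [List.mem_flatMap]
  constructor
  · rintro ⟨c, hc, h⟩
    refine ⟨c, hc, ?_⟩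
    rw [List.mem_flatMap] at h
    obtain ⟨sx, hsx, h⟩ := h
    obtain ⟨b, rfl⟩ : ∃ b : Bool, sx = sd b := by
      simp only [List.mem_cons, List.not_mem_nil, or_false] at hsx
      rcases hsx with h | h
      · exact ⟨false, h⟩
      · exact ⟨true, h⟩
    refine ⟨b, ?_⟩
    rw [e1, e4, e5, List.mem_append, List.mem_map, List.mem_flatMap] at h
    rcases h with ⟨τ, hτ, h⟩ | ⟨P2, hP2, h⟩
    · exact Or.inl ⟨τ, hτ, h.symm⟩
    · rw [List.mem_filter, e6] at hP2
      refine Or.inr ⟨P2, hP2.1, hP2.2, ?_⟩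
      rw [e2, e3] at h
      simp only [List.mem_cons, List.not_mem_nil, or_false] at h
      rcases h with h | h
      · exact ⟨false, h⟩
      · exact ⟨true, h⟩
  · rintro ⟨c, hc, b, h⟩
    refine ⟨c, hc, ?_⟩
    rw [List.mem_flatMap]
    refine ⟨sd b, by cases b <;> simp [sd], ?_⟩
    rw [e1, e4, e5, List.mem_append, List.mem_map, List.mem_flatMap]
    rcases h with ⟨τ, hτ, h⟩ | ⟨P2, hP2, hP3, b', h⟩
    · exact Or.inl ⟨τ, hτ, h.symm⟩
    · refine Or.inr ⟨P2, by rw [List.mem_filter, e6]; exact ⟨hP2, hP3⟩, ?_⟩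
      rw [e2, e3, h]
      cases b' <;> simp

theorem wf_chX {Q : Pt} {cyc : List (ℕ × ℕ)} (hW : WF Q) (h1 : cycOK Q cyc = true) :
    ∀ Q' ∈ chX Q cyc, WF Q' := by
  intro Q' hQ'
  obtain ⟨hne, hcyc⟩ := qx_cyc h1
  obtain ⟨c, hc, b, h⟩ := mem_chX.1 hQ'
  have hadj := (hcyc c hc).1
  have hperm := qx_rls_perm hW.nodup (x := Q.R) (qx_adj_mem hadj).1
  have hsd : ∀ (r : ℕ) (b : Bool), (2 * r + sd b) / 2 = r := by
    intro r b
    cases b <;> simp [sd] <;> omega
  have hnd : (Q.R :: rls Q.P).Nodup := List.nodup_cons.2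
    ⟨fun h => absurd (hW.lt _ h) (lt_irrefl _), hW.nodup⟩
  rcases h with ⟨τ, hτ, rfl⟩ | ⟨P2, hP2, -, b', rfl⟩
  · have hmem : ∀ r, r ∈ rls (insAfter c.1 Q.R Q.P) ↔ r = Q.R ∨ r ∈ rls Q.P := fun r => by
      rw [hperm.mem_iff, List.mem_cons]
    refine qa_wf_child hW _ (hperm.nodup_iff.2 hnd) (fun r hr => ?_) (fun r hr => ?_) ?_ ?_
    · rcases (hmem r).1 hr with h | h
      · omega
      · have := hW.lt r h
        omega
    · exact (hmem r).2 (Or.inr hr)
    · rw [hsd]
      exact (hmem _).2 (Or.inl rfl)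
    · exact (hmem _).2 (Or.inr (qa_mem_free.1 hτ).1)
  · have hperm2 := (rls_ins hP2).trans (hperm.cons _)
    have hmem : ∀ r, r ∈ rls P2 ↔ r = Q.R + 1 ∨ r = Q.R ∨ r ∈ rls Q.P := fun r => by
      rw [hperm2.mem_iff, List.mem_cons, List.mem_cons]
    refine qa_wf_child hW _ (hperm2.nodup_iff.2 (List.nodup_cons.2 ⟨fun h => ?_, hnd⟩))
      (fun r hr => ?_) (fun r hr => ?_) ?_ ?_
    · rcases List.mem_cons.1 h with h | h
      · omega
      · have := hW.lt _ h
        omega
    · rcases (hmem r).1 hr with h | h | h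
      · omega
      · omega
      · have := hW.lt r h
        omega
    · exact (hmem r).2 (Or.inr (Or.inr hr))
    · rw [hsd]
      exact (hmem _).2 (Or.inr (Or.inl rfl))
    · rw [hsd]
      exact (hmem _).2 (Or.inl rfl)

theorem win_chX {Q : Pt} {cyc : List (ℕ × ℕ)} (hW : WF Q) (h1 : cycOK Q cyc = true)
    (h : ∀ Q' ∈ chX Q cyc, Win Q') : Win Q := by
  obtain ⟨hne, hcyc⟩ := qx_cyc h1
  obtain ⟨N1, hN1⟩ := exists_forall_win h
  have hsd : ∀ (r : ℕ) (b : Bool), (2 * r + sd b) / 2 = r := by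
    intro r b
    cases b <;> simp [sd] <;> omega
  -- the extended patterns
  have hnd : (Q.R :: rls Q.P).Nodup := List.nodup_cons.2
    ⟨fun h => absurd (hW.lt _ h) (lt_irrefl _), hW.nodup⟩
  have hperm : ∀ c ∈ cyc, (rls (insAfter c.1 Q.R Q.P)).Perm (Q.R :: rls Q.P) := fun c hc =>
    qx_rls_perm hW.nodup (x := Q.R) (qx_adj_mem (hcyc c hc).1).1
  have hmem : ∀ c ∈ cyc, ∀ r, r ∈ rls (insAfter c.1 Q.R Q.P) ↔ r = Q.R ∨ r ∈ rls Q.P :=
    fun c hc r => by rw [(hperm c hc).mem_iff, List.mem_cons]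
  have hins : ∀ᶠ N in Filter.atTop, ∀ c ∈ {c | c ∈ cyc}, ∀ (g : ℕ → ℕ → ℕ) (y : ℕ → ℕ),
      Emb (insAfter c.1 Q.R Q.P) N g →
      (∀ i j k, i < j → j < k → k < N → ¬(y i = y j ∧ y j = y k)) →
      ∃ ι, Sel (N1 + 1) N ι ∧
        ((∃ r ∈ rls (insAfter c.1 Q.R Q.P), ∀ i < N1 + 1, y (ι i) = g r (ι i)) ∨
        ∃ P' ∈ ins (Q.R + 1) (insAfter c.1 Q.R Q.P),
          Emb P' (N1 + 1) fun r i => if r = Q.R + 1 then y (ι i) else g r (ι i)) := by
    rw [Filter.eventually_all_finite (List.finite_toSet cyc)]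
    intro c hc
    refine insert_eventually _ _ ((hperm c hc).nodup_iff.2 hnd) (fun r hr => ?_) _
    rcases (hmem c hc r).1 hr with h | h
    · omega
    · have := hW.lt r h
      omega
  obtain ⟨N2, hN2⟩ := Filter.eventually_atTop.1 hins
  -- selection of the columns with the same data
  have : Finite {c : ℕ × ℕ // c ∈ cyc} := (List.finite_toSet cyc).to_subtype
  have : Nonempty {c : ℕ × ℕ // c ∈ cyc} := by
    obtain ⟨c0, hc0⟩ := List.exists_mem_of_ne_nil _ hne
    exact ⟨⟨c0, hc0⟩⟩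
  obtain ⟨N3, hN3⟩ := select (κ := {c : ℕ × ℕ // c ∈ cyc} × Bool × Option Bool) (N2 + 2)
  refine ⟨N3, fun n s hs ⟨g, hg⟩ => ?_⟩
  have hcol : ∀ i, ∃ (k : {c : ℕ × ℕ // c ∈ cyc} × Bool × Option Bool) (x y : ℕ), i < N3 →
      g k.1.1.1 i < x ∧ x < g k.1.1.2 i ∧ Opn s x ∧
      (k.2.2 = none → par (prt s k.2.1 x) = s.1) ∧
      (∀ sy, k.2.2 = some sy → Opn s y ∧ par (prt s k.2.1 x) = prt s sy y ∧ y ≠ x ∧
        ∀ d ∈ cyc, ¬(g d.1 i < y ∧ y < g d.2 i)) := by
    intro i
    by_cases hi : i < N3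
    · obtain ⟨c, hc, sx, x, a1, a2, a3, a4 | ⟨sy, y, a4, a5, a6, a7⟩⟩ := qx_col hs hW h1 hg hi
      · exact ⟨⟨⟨c, hc⟩, sx, none⟩, x, 0, fun _ => ⟨a1, a2, a3, fun _ => a4, fun sy h => by
          simp at h⟩⟩
      · refine ⟨⟨⟨c, hc⟩, sx, some sy⟩, x, y, fun _ => ⟨a1, a2, a3, fun h => by simp at h,
          fun sy' h => ?_⟩⟩
        have : sy = sy' := by simpa using h
        subst this
        exact ⟨a4, a5, a6, a7⟩
    · exact ⟨Classical.arbitrary _, 0, 0, fun h => absurd h hi⟩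
  choose kc x y hprop using hcol
  obtain ⟨ι, hι, ⟨⟨c, hc⟩, sx, o⟩, hk⟩ := hN3 kc
  -- the selected columns
  set g1 : ℕ → ℕ → ℕ := fun r i => g r (ι i) with hg1
  set x1 : ℕ → ℕ := fun i => x (ι i) with hx1
  set y1 : ℕ → ℕ := fun i => y (ι i) with hy1
  have hG : ContG s Q (N2 + 2) g1 := hg.sel hι
  have hp : ∀ i < N2 + 2, g1 c.1 i < x1 i ∧ x1 i < g1 c.2 i ∧ Opn s (x1 i) ∧
      (o = none → par (prt s sx (x1 i)) = s.1) ∧
      (∀ sy, o = some sy → Opn s (y1 i) ∧ par (prt s sx (x1 i)) = prt s sy (y1 i) ∧ y1 i ≠ x1 i ∧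
        ∀ d ∈ cyc, ¬(g1 d.1 i < y1 i ∧ y1 i < g1 d.2 i)) := by
    intro i hi
    have h2 := hprop (ι i) (hι.2 i hi)
    rw [hk i hi] at h2
    exact h2
  have hadj := (hcyc c hc).1
  have hcr := qx_adj_mem hadj
  have hxinj : ∀ i < N2 + 2, ∀ j < N2 + 2, x1 i = x1 j → i = j := by
    intro i hi j hj hij
    have a1 := hp i hi
    have a2 := hp j hj
    have b1 := (qx_adj hadj hj hG.emb).2 (c.1, i) (mem_word.2 ⟨hcr.1, hi⟩)
    have b2 := (qx_adj hadj hi hG.emb).2 (c.1, j) (mem_word.2 ⟨hcr.1, hj⟩)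
    simp only at b1 b2
    have a11 := a1.1
    have a12 := a1.2.1
    have a21 := a2.1
    have a22 := a2.2.1
    have e : g1 c.1 i = g1 c.1 j := by
      rcases b1 with b1 | b1 <;> rcases b2 with b2 | b2 <;> omega
    exact (hG.emb.inj hW.nodup hcr.1 hcr.1 hi hj e).2
  have hxn : ∀ i < N2 + 2, x1 i < n := fun i hi => (hp i hi).2.2.1.lt hs
  have hpinj : ∀ i < N2 + 2, ∀ j < N2 + 2, par (prt s sx (x1 i)) = par (prt s sx (x1 j)) →
      i = j := fun i hi j hj e =>
    hxinj i hi j hj (par_prt_inj hs (hxn i hi) (hxn j hj) e).2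
  rcases o with _ | sy
  · -- the top port: two columns
    exfalso
    have b0 := (hp 0 (by omega)).2.2.2.1 rfl
    have b1 := (hp 1 (by omega)).2.2.2.1 rfl
    exact absurd (hpinj 0 (by omega) 1 (by omega) (b0.trans b1.symm)) (by omega)
  · have hq : ∀ i < N2 + 2, Opn s (y1 i) ∧ par (prt s sx (x1 i)) = prt s sy (y1 i) ∧
        y1 i ≠ x1 i ∧ ∀ d ∈ cyc, ¬(g1 d.1 i < y1 i ∧ y1 i < g1 d.2 i) := fun i hi =>
      (hp i hi).2.2.2.2 sy rfl
    have hyinj : ∀ i < N2 + 2, ∀ j < N2 + 2, y1 i = y1 j → i = j := by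
      intro i hi j hj hij
      refine hpinj i hi j hj ?_
      rw [(hq i hi).2.1, (hq j hj).2.1, hij]
    -- the pattern with `x`
    have hE := qx_emb hW.nodup hW.lt hadj hG.emb (x := x1) fun i hi => ⟨(hp i hi).1, (hp i hi).2.1⟩
    obtain ⟨κ, hκ, halt⟩ := hN2 (N2 + 2) (by omega) c hc _ y1 hE (fun i j k hij hjk hk he => by
      have := hyinj i (by omega) j (by omega) he.1
      omega)
    set g2 : ℕ → ℕ → ℕ := fun r i => if r = Q.R then x1 (κ i) else g1 r (κ i) with hg2
    have hG2 : ContG s Q (N1 + 1) fun r i => g1 r (κ i) := hG.sel hκ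
    have hE2 : Emb (insAfter c.1 Q.R Q.P) (N1 + 1) g2 := hE.sel hκ
    have hag : ∀ r ∈ rls Q.P, ∀ i < N1 + 1, g2 r i = g1 r (κ i) := by
      intro r hr i _
      have := hW.lt r hr
      simp only [hg2]
      rw [if_neg (by omega)]
    have hg2R : ∀ i, g2 Q.R i = x1 (κ i) := fun i => by simp only [hg2, if_true]
    rcases halt with ⟨r, hr, hyr⟩ | ⟨P', hP', hE'⟩
    · -- the partner is at an old role
      have hr' : r ∈ rls Q.P := by
        rcases (hmem c hc r).1 hr with h | h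
        · exfalso
          have h2 := hyr 0 (by omega)
          simp only [h, if_true] at h2
          exact (hq _ (hκ.2 0 (by omega))).2.2.1 h2
        · exact h
      have hrR : r ≠ Q.R := by
        have := hW.lt r hr'
        omega
      have hyr' : ∀ i < N1 + 1, y1 (κ i) = g1 r (κ i) := by
        intro i hi
        have h2 := hyr i hi
        simp only [if_neg hrR] at h2
        exact h2
      have hfree : 2 * r + sd sy ∈ free Q := by
        rw [qa_mem_free, hsd]
        refine ⟨hr', ?_⟩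
        by_contra hcon
        rw [Bool.not_eq_false] at hcon
        have h0 : (0 : ℕ) < N1 + 1 := by omega
        obtain ⟨τ, hτ1, -, hτ2⟩ := hG2.mtd_partner hs hW h0 hcon
        rw [port_sd] at hτ2
        have h3 := (hq _ (hκ.2 0 h0)).2.1
        rw [hyr' 0 h0] at h3
        rw [← h3, par_par (by have := two_le_prt hs (hxn _ (hκ.2 0 h0)) sx; omega)] at hτ2
        obtain ⟨b, hb⟩ := exists_sd τ
        rw [hb, port_sd] at hτ2
        have hrn := (hG2.opn _ hτ1 0 h0).lt hs
        have h4 := (prt_inj hs (hxn _ (hκ.2 0 h0)) hrn hτ2).2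
        have h5 := (qx_adj hadj (hκ.2 0 h0) hG.emb).2 (τ / 2, κ 0)
          (mem_word.2 ⟨hτ1, hκ.2 0 h0⟩)
        have h6 := hp _ (hκ.2 0 h0)
        simp only at h4 h5 h6
        rw [← h4] at h5
        rcases h5 with h5 | h5 <;> omega
      refine hN1 _ (mem_chX.2 ⟨c, hc, sx, Or.inl ⟨_, hfree, rfl⟩⟩) n s hs (Cont.mono ?_
        (Nat.le_succ N1))
      refine ⟨g2, hG2.child hW _ hE2 (fun q hq' => ?_) hag fun i hi => ?_⟩
      · rcases (hmem c hc q).1 hq' with h | h
        · right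
          intro i hi
          rw [h, hg2R]
          exact (hp _ (hκ.2 i hi)).2.2.1
        · exact Or.inl h
      · simp only
        rw [port_sd, port_sd, hg2R, hag r hr' i hi, ← hyr' i hi]
        exact (hq _ (hκ.2 i hi)).2.1
    · -- a new role
      set g3 : ℕ → ℕ → ℕ := fun r i => if r = Q.R + 1 then y1 (κ i) else g2 r i with hg3
      have hE3 : Emb P' (N1 + 1) g3 := hE'
      have hmem' : ∀ r, r ∈ rls P' ↔ r = Q.R + 1 ∨ r = Q.R ∨ r ∈ rls Q.P := fun r => by
        rw [((rls_ins hP').trans ((hperm c hc).cons _)).mem_iff, List.mem_cons, List.mem_cons]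
      have hg3R : ∀ i, g3 (Q.R + 1) i = y1 (κ i) := fun i => by simp only [hg3, if_true]
      have hg3R' : ∀ i, g3 Q.R i = x1 (κ i) := fun i => by
        simp only [hg3]
        rw [if_neg (by omega), hg2R]
      have hag3 : ∀ r ∈ rls Q.P, ∀ i < N1 + 1, g3 r i = g1 r (κ i) := by
        intro r hr i hi
        have := hW.lt r hr
        simp only [hg3]
        rw [if_neg (by omega), hag r hr i hi]
      have hbetw : (cyc.any fun d => betw P' d.1 (Q.R + 1) d.2) = false := by
        rw [Bool.eq_false_iff]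
        intro hcon
        rw [List.any_eq_true] at hcon
        obtain ⟨d, hd, hcon⟩ := hcon
        unfold betw at hcon
        rw [List.any_eq_true] at hcon
        obtain ⟨b, hb, hcon⟩ := hcon
        have hsub := isSub_sound hcon
        have h0 : (0 : ℕ) < N1 + 1 := by omega
        have hdr := qx_adj_mem (hcyc d hd).1
        have s1 : [d.1, Q.R + 1].Sublist [d.1, Q.R + 1, d.2] := by
          simp
        have s2 : [Q.R + 1, d.2].Sublist [d.1, Q.R + 1, d.2] := by
          simp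
        have t1 := hE3.lt_of_sub hb (s1.trans hsub) h0
        have t2 := hE3.lt_of_sub hb (s2.trans hsub) h0
        rw [hg3R, hag3 _ hdr.1 0 h0] at t1
        rw [hg3R, hag3 _ hdr.2 0 h0] at t2
        exact (hq _ (hκ.2 0 h0)).2.2.2 d hd ⟨t1, t2⟩
      refine hN1 _ (mem_chX.2 ⟨c, hc, sx, Or.inr ⟨P', hP', hbetw, sy, rfl⟩⟩) n s hs (Cont.mono ?_
        (Nat.le_succ N1))
      refine ⟨g3, hG2.child hW _ hE3 (fun q hq' => ?_) hag3 fun i hi => ?_⟩
      · rcases (hmem' q).1 hq' with h | h | h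
        · right
          intro i hi
          rw [h, hg3R]
          exact (hq _ (hκ.2 i hi)).1
        · right
          intro i hi
          rw [h, hg3R']
          exact (hp _ (hκ.2 i hi)).2.2.1
        · exact Or.inl h
      · rw [port_sd, port_sd, hg3R, hg3R']
        exact (hq _ (hκ.2 i hi)).2.1

end BP
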