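import Pool.Agent.Work.MP_475aca_co.EmbL

/-! # Ramsey's theorem for pairs, and the pigeonhole principle -/

namespace BP

theorem Sel.trans {L M N : ℕ} {ι κ : ℕ → ℕ} (h1 : Sel M N ι) (h2 : Sel L M κ) :
    Sel L N fun i => ι (κ i) :=
  ⟨fun i j hij hj => h1.1 _ _ (h2.1 i j hij hj) (h2.2 j hj), fun i hi => h1.2 _ (h2.2 i hi)⟩

/-- a finite set of at least `M` numbers `< N` is enumerated by a selection -/
theorem ram_enum {M N : ℕ} {S : Finset ℕ} (hS : ∀ x ∈ S, x < N) (hM : M ≤ S.card) :
    ∃ ι, Sel M N ι ∧ ∀ i < M, ι i ∈ S := by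
  classical
  let e := S.orderEmbOfFin rfl
  refine ⟨fun i => if h : i < S.card then e ⟨i, h⟩ else 0, ⟨?_, ?_⟩, ?_⟩
  · intro i j hij hj
    have hj' : j < S.card := by omega
    have hi' : i < S.card := by omega
    simp only [hi', hj', dif_pos]
    exact e.strictMono hij
  · intro i hi
    have hi' : i < S.card := by omega
    simp only [hi', dif_pos]
    exact hS _ (S.orderEmbOfFin_mem rfl _)
  · intro i hi
    have hi' : i < S.card := by omega
    simp only [hi', dif_pos]
    exact S.orderEmbOfFin_mem rfl _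

/-- pigeonhole in a finite set -/
theorem ram_pigeon {κ : Type} [Fintype κ] [DecidableEq κ] (M : ℕ) (S : Finset ℕ)
    (hS : Fintype.card κ * M < S.card) (c : ℕ → κ) : ∃ k, M < (S.filter fun x => c x = k).card := by
  obtain ⟨k, _, hk⟩ := Finset.exists_lt_card_fiber_of_mul_lt_card_of_maps_to (s := S)
    (t := (Finset.univ : Finset κ)) (f := c) (n := M) (fun _ _ => Finset.mem_univ _)
    (by simpa using hS)
  exact ⟨k, hk⟩

theorem select {κ : Type} [Finite κ] (M : ℕ) : ∃ N, ∀ c : ℕ → κ, ∃ ι, Sel M N ι ∧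
    ∃ k, ∀ i < M, c (ι i) = k := by
  classical
  have := Fintype.ofFinite κ
  refine ⟨Fintype.card κ * M + 1, fun c => ?_⟩
  obtain ⟨k, hk⟩ := ram_pigeon M (Finset.range (Fintype.card κ * M + 1)) (by simp) c
  obtain ⟨ι, h1, h2⟩ := ram_enum (M := M) (N := Fintype.card κ * M + 1)
    (S := (Finset.range (Fintype.card κ * M + 1)).filter fun x => c x = k)
    (fun x hx => by simpa using (Finset.mem_filter.1 hx).1) hk.le
  exact ⟨ι, h1, k, fun i hi => (Finset.mem_filter.1 (h2 i hi)).2⟩

/-- a set of `L` elements such that the colour of a pair depends only on the smaller element -/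
theorem ram_pre {κ : Type} [Fintype κ] [DecidableEq κ] (L : ℕ) : ∃ N, ∀ S : Finset ℕ, N ≤ S.card →
    ∀ c : ℕ → ℕ → κ, ∃ T : Finset ℕ, T ⊆ S ∧ L ≤ T.card ∧ ∃ d : ℕ → κ,
      ∀ x ∈ T, ∀ y ∈ T, x < y → c x y = d x := by
  induction L with
  | zero => exact ⟨0, fun S _ c => ⟨∅, by simp, by simp, fun x => c x x, by simp⟩⟩
  | succ L ih =>
    obtain ⟨N, hN⟩ := ih
    refine ⟨Fintype.card κ * N + 2, fun S hS c => ?_⟩
    have hne : S.Nonempty := Finset.card_pos.1 (by omega)
    set a := S.min' hne with ha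
    have h1 : (S.erase a).card = S.card - 1 := Finset.card_erase_of_mem (S.min'_mem hne)
    obtain ⟨k, hk⟩ := ram_pigeon N (S.erase a) (by omega) fun x => c a x
    obtain ⟨T, hT, hL, d, hd⟩ := hN _ hk.le c
    have haT : a ∉ T := fun h => by
      have := hT h
      simp at this
    refine ⟨insert a T, ?_, ?_, Function.update d a k, ?_⟩
    · intro x hx
      rw [Finset.mem_insert] at hx
      rcases hx with rfl | hx
      · exact S.min'_mem hne
      · exact Finset.mem_of_mem_erase (Finset.mem_filter.1 (hT hx)).1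
    · rw [Finset.card_insert_of_notMem haT]
      omega
    · intro x hx y hy hxy
      rw [Finset.mem_insert] at hx hy
      have hmin : ∀ z ∈ T, a < z := by
        intro z hz
        have h2 := (Finset.mem_filter.1 (hT hz)).1
        rw [Finset.mem_erase] at h2
        exact lt_of_le_of_ne (S.min'_le z h2.2) (Ne.symm h2.1)
      rcases hx with rfl | hx
      · rcases hy with rfl | hy
        · exact (lt_irrefl _ hxy).elim
        · rw [Function.update_self]
          exact (Finset.mem_filter.1 (hT hy)).2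
      · rcases hy with rfl | hy
        · exact (lt_asymm hxy (hmin x hx)).elim
        · rw [Function.update_of_ne (hmin x hx).ne']
          exact hd x hx y hy hxy

theorem ramsey {κ : Type} [Finite κ] (M : ℕ) : ∃ N, ∀ c : ℕ → ℕ → κ, ∃ ι, Sel M N ι ∧
    ∃ k, ∀ i j, i < j → j < M → c (ι i) (ι j) = k := by
  classical
  have := Fintype.ofFinite κ
  obtain ⟨N, hN⟩ := ram_pre (κ := κ) (Fintype.card κ * M + 1)
  refine ⟨N, fun c => ?_⟩
  obtain ⟨T, hT, hL, d, hd⟩ := hN (Finset.range N) (by simp) c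
  obtain ⟨k, hk⟩ := ram_pigeon M T (by omega) d
  obtain ⟨ι, h1, h2⟩ := ram_enum (M := M) (N := N) (S := T.filter fun x => d x = k)
    (fun x hx => by simpa using hT (Finset.mem_filter.1 hx).1) hk.le
  refine ⟨ι, h1, k, fun i j hij hj => ?_⟩
  have h3 := Finset.mem_filter.1 (h2 i (hij.trans hj))
  have h4 := Finset.mem_filter.1 (h2 j hj)
  rw [hd _ h3.1 _ h4.1 (h1.1 i j hij hj)]
  exact h3.2

end BP
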