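import Pool.Agent.Work.MP_475aca_co.Insert

/-! # Case A : many joinable gaps -/

namespace BP

/-- `k` is the upper gap of a joinable chord -/
def Jn (s : St) (k : ℕ) : Prop :=
  Opn s k ∧ ∃ k', k < k' ∧ Opn s k' ∧ (par (up s k) = up s k' ∨ par (up s k) = lo s k')

/-- the six roots -/
def rootsA : List Pt :=
  [⟨2, [(true, [0, 1])], [(0, 2)]⟩, ⟨2, [(true, [0]), (true, [1])], [(0, 2)]⟩,
   ⟨2, [(true, [0]), (false, [1])], [(0, 2)]⟩, ⟨2, [(true, [0, 1])], [(0, 3)]⟩,
   ⟨2, [(true, [0]), (true, [1])], [(0, 3)]⟩, ⟨2, [(true, [0]), (false, [1])], [(0, 3)]⟩]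

theorem wf_rootsA : ∀ Q ∈ rootsA, WF Q := by
  intro Q hQ
  simp only [rootsA, List.mem_cons, List.not_mem_nil, or_false] at hQ
  rcases hQ with rfl | rfl | rfl | rfl | rfl | rfl <;>
  · refine ⟨by decide, by decide, by decide⟩

theorem RootA_word (m : ℕ) : word [(true, [0])] m = (List.range m).map fun i => (0, i) := by
  simp only [word, cols, List.flatMap_cons, List.flatMap_nil, List.append_nil, if_true,
    List.map_cons, List.map_nil]
  induction List.range m with
  | nil => rfl
  | cons a l ih => rw [List.flatMap_cons, ih, List.map_cons]; rfl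

/-- Hint: enumerate the gaps `k` with `Jn s k` increasingly: role `0`. Let `y i` be the gap of the
partner; `select` its side; `insert_lemma` for the pattern `[(true, [0])]`. -/
theorem rootA (h : ∀ Q ∈ rootsA, Win Q) : ∃ N, ∀ n s, IsSt n s → N ≤ {k | Jn s k}.ncard →
    Prof s := by
  classical
  obtain ⟨M, hM⟩ := exists_forall_win h
  obtain ⟨N1, hN1⟩ := insert_lemma [(true, [0])] 1 (by decide) (by decide) (M + 1)
  obtain ⟨N2, hN2⟩ := select (κ := Bool) N1
  refine ⟨N2, fun n s hs hJ => ?_⟩
  have hlen := hs.length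
  have hf : (Set.ofPred (Jn s)).Finite := (Set.finite_lt_nat n).subset fun k hk => by
    show k < n
    rw [← hlen]
    exact hk.1.1
  have hD : {k | Jn s k}.ncard = hf.toFinset.card := Set.ncard_eq_toFinset_card _ hf
  rw [hD] at hJ
  obtain ⟨x, hx⟩ : ∃ x : ℕ → ℕ, x = Nat.nth (Jn s) := ⟨_, rfl⟩
  have xmem : ∀ i < N2, Jn s (x i) := by
    intro i hi
    rw [hx]
    exact Nat.nth_mem_of_lt_card hf (by omega)
  have xmono : ∀ i j, i < j → j < N2 → x i < x j := by
    intro i j hij hj
    rw [hx]
    exact Nat.nth_lt_nth_of_lt_card hf hij (by omega)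
  have hy : ∀ i, ∃ y : ℕ, i < N2 → x i < y ∧ Opn s y ∧
      (par (up s (x i)) = up s y ∨ par (up s (x i)) = lo s y) := by
    intro i
    by_cases hi : i < N2
    · obtain ⟨-, y, h1, h2, h3⟩ := xmem i hi
      exact ⟨y, fun _ => ⟨h1, h2, h3⟩⟩
    · exact ⟨0, fun h => absurd h hi⟩
  choose y hy using hy
  obtain ⟨ι, hι, c, hc⟩ := hN2 fun i => decide (par (up s (x i)) = up s (y i))
  have hxn : ∀ i < N2, x i < n := fun i hi => by rw [← hlen]; exact (xmem i hi).1.1
  have hyn : ∀ i < N2, y i < n := fun i hi => by rw [← hlen]; exact (hy i hi).2.1.1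
  have xinj : ∀ i < N2, ∀ j < N2, par (up s (x i)) = par (up s (x j)) → i = j := by
    intro i hi j hj e
    have h1 := hs.up_inj (hxn i hi) (hxn j hj) (par_inj
      (le_trans (by norm_num) (hs.two_le_up (hxn i hi)))
      (le_trans (by norm_num) (hs.two_le_up (hxn j hj))) e)
    rcases lt_trichotomy i j with h2 | h2 | h2
    · exact absurd h1 (xmono i j h2 hj).ne
    · exact h2
    · exact absurd h1.symm (xmono j i h2 hi).ne
  -- the side of the partner
  have hside : (∀ i < N1, par (up s (x (ι i))) = up s (y (ι i))) ∨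
      (∀ i < N1, par (up s (x (ι i))) = lo s (y (ι i))) := by
    rcases c with _ | _
    · refine Or.inr fun i hi => ?_
      have h1 := of_decide_eq_false (hc i hi)
      exact ((hy _ (hι.2 i hi)).2.2).resolve_left h1
    · exact Or.inl fun i hi => of_decide_eq_true (hc i hi)
  have hyy : ∀ i j, i < j → j < N1 → y (ι i) ≠ y (ι j) := by
    intro i j hij hj e
    have h1 := hι.2 i (by omega)
    have h2 := hι.2 j hj
    have h3 := hι.1 i j hij hj
    rcases hside with hs' | hs'
    · have := xinj _ h1 _ h2 (by rw [hs' i (by omega), hs' j hj, e])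
      omega
    · have := xinj _ h1 _ h2 (by rw [hs' i (by omega), hs' j hj, e])
      omega
  have hE : Emb [(true, [0])] N1 fun _ i => x (ι i) := by
    rw [Emb, RootA_word, List.map_map, List.pairwise_map]
    refine List.Pairwise.imp_of_mem ?_ List.pairwise_lt_range
    intro a b ha hb hab
    rw [List.mem_range] at ha hb
    exact xmono _ _ (hι.1 a b hab hb) (hι.2 b hb)
  obtain ⟨κ, hκ, hcase⟩ := hN1 (fun _ i => x (ι i)) (fun i => y (ι i)) hE
    (fun i j k hij hjk hk hh => hyy i j hij (by omega) hh.1)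
  have hlt : ∀ i < M + 1, x (ι (κ i)) < y (ι (κ i)) := fun i hi =>
    (hy _ (hι.2 _ (hκ.2 i hi))).1
  rcases hcase with ⟨r, -, hr⟩ | ⟨P', hP', hE'⟩
  · exact absurd (hr 0 (by omega)) (hlt 0 (by omega)).ne'
  · obtain ⟨G, hG⟩ : ∃ G : ℕ → ℕ → ℕ, G = fun r i => if r = 1 then y (ι (κ i))
        else x (ι (κ i)) := ⟨_, rfl⟩
    have hE2 : Emb P' (M + 1) G := by rw [hG]; exact hE'
    have G0 : ∀ i, G 0 i = x (ι (κ i)) := fun i => by rw [hG]; simp
    have G1 : ∀ i, G 1 i = y (ι (κ i)) := fun i => by rw [hG]; simp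
    have hopn : ∀ r i, i < M + 1 → (r = 0 ∨ r = 1) → Opn s (G r i) := by
      intro r i hi hr
      have h1 := hι.2 _ (hκ.2 i hi)
      rcases hr with rfl | rfl
      · rw [G0]; exact (xmem _ h1).1
      · rw [G1]; exact (hy _ h1).2.1
    -- bad patterns
    have hP'' : P' = [(true, [0, 1])] ∨ P' = [(true, [0]), (true, [1])] ∨
        P' = [(true, [0]), (false, [1])] := by
      have hlt0 := hlt 0 (by omega)
      rw [← G0, ← G1] at hlt0
      simp only [ins, insL, List.map_cons, List.map_nil, List.cons_append, List.nil_append,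
        List.mem_cons, List.not_mem_nil, or_false] at hP'
      rcases hP' with rfl | rfl | rfl | rfl | rfl | rfl
      · have h1 := Emb.lt_of_bundle (P1 := [(true, [1])]) (P2 := [(true, [0])]) hE2
          (b := (true, [1])) (b' := (true, [0])) (by simp) (by simp) (r := 1) (r' := 0) (by simp)
          (by simp) (i := 0) (i' := 0) (by omega) (by omega)
        omega
      · have h1 := Emb.lt_of_bundle (P1 := [(false, [1])]) (P2 := [(true, [0])]) hE2
          (b := (false, [1])) (b' := (true, [0])) (by simp) (by simp) (r := 1) (r' := 0) (by simp)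
          (by simp) (i := 0) (i' := 0) (by omega) (by omega)
        omega
      · have h1 := Emb.lt_of_sub hE2 (b := (true, [1, 0])) (by simp) (r := 1) (r' := 0)
          (by simp) (i := 0) (by omega)
        omega
      · exact Or.inl rfl
      · exact Or.inr (Or.inl rfl)
      · exact Or.inr (Or.inr rfl)
    have hrls : ∀ r ∈ rls P', r = 0 ∨ r = 1 := by
      intro r hr
      rcases hP'' with rfl | rfl | rfl <;>
      · simp [rls] at hr
        exact hr
    rcases hside with hs' | hs'
    · have hcont : Cont s ⟨2, P', [(0, 2)]⟩ (M + 1) := by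
        refine ⟨G, hE2, fun r hr i hi => hopn r i hi (hrls r hr), ?_⟩
        intro c hc i hi
        rw [List.mem_singleton] at hc
        subst hc
        show par (up s (G 0 i)) = up s (G 1 i)
        rw [G0, G1]
        exact hs' _ (hκ.2 i hi)
      refine hM ⟨2, P', [(0, 2)]⟩ ?_ n s hs (hcont.mono (by omega))
      rcases hP'' with rfl | rfl | rfl <;> simp [rootsA]
    · have hcont : Cont s ⟨2, P', [(0, 3)]⟩ (M + 1) := by
        refine ⟨G, hE2, fun r hr i hi => hopn r i hi (hrls r hr), ?_⟩
        intro c hc i hi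
        rw [List.mem_singleton] at hc
        subst hc
        show par (up s (G 0 i)) = lo s (G 1 i)
        rw [G0, G1]
        exact hs' _ (hκ.2 i hi)
      refine hM ⟨2, P', [(0, 3)]⟩ ?_ n s hs (hcont.mono (by omega))
      rcases hP'' with rfl | rfl | rfl <;> simp [rootsA]

end BP
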