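import Pool.Agent.Work.MP_475aca_co.Leaf
import Pool.Agent.Work.MP_475aca_co.QueryP
import Pool.Agent.Work.MP_475aca_co.QueryX
import Pool.Agent.Work.MP_475aca_co.Dbl

/-! # Soundness of the certificates of case A -/

namespace BP

theorem RunA_rdL {k : List ℕ → List ℕ → Bool} : ∀ (n : ℕ) (s acc : List ℕ),
    rdL k n s acc = true → ∃ a b, k a b = true := by
  intro n
  induction n with
  | zero => intro s acc h; rw [rdL] at h; exact ⟨_, _, h⟩
  | succ n ih =>
    intro s acc h
    rcases s with _ | ⟨x, s⟩
    · rw [rdL] at h; exact ⟨_, _, h⟩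
    · rw [rdL] at h; exact ih _ _ h

theorem RunA_rdl {k : List ℕ → List ℕ → Bool} {s : List ℕ} (h : rdl s k = true) :
    ∃ a b, k a b = true := by
  rcases s with _ | ⟨n, s⟩
  · exact ⟨_, _, h⟩
  · exact RunA_rdL n s [] h

theorem RunA_cons {Q : Pt} {todo : List Pt} {A : Pt → Prop} (h1 : A Q) (h2 : ∀ Q' ∈ todo, A Q') :
    ∀ Q' ∈ Q :: todo, A Q' := by
  intro Q' hQ'
  rcases List.mem_cons.1 hQ' with rfl | hQ'
  · exact h1
  · exact h2 _ hQ'

theorem RunA_app {l todo : List Pt} {A : Pt → Prop} (h1 : ∀ Q' ∈ l, A Q')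
    (h2 : ∀ Q' ∈ todo, A Q') : ∀ Q' ∈ l ++ todo, A Q' := by
  intro Q' hQ'
  rcases List.mem_append.1 hQ' with hQ' | hQ'
  · exact h1 _ hQ'
  · exact h2 _ hQ'

theorem run_sound {f : ℕ} {c : List ℕ} {todo : List Pt} (h : run f c todo = true)
    (hW : ∀ Q ∈ todo, WF Q) : ∀ Q ∈ todo, Win Q := by
  induction f generalizing c todo with
  | zero =>
    rcases todo with _ | ⟨Q, todo⟩
    · intro Q hQ; simp at hQ
    · simp [run] at h
  | succ f ih =>
    rcases todo with _ | ⟨Q, todo⟩
    · intro Q hQ; simp at hQ
    · have hQ : WF Q := hW Q List.mem_cons_self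
      have hT : ∀ Q' ∈ todo, WF Q' := fun Q' hQ' => hW Q' (List.mem_cons_of_mem _ hQ')
      unfold run at h
      split at h
      · obtain ⟨us, s1, h⟩ := RunA_rdl h
        obtain ⟨π, s2, h⟩ := RunA_rdl h
        split at h
        · rename_i hc
          exact RunA_cons (leaf_win hQ hc) (ih h hT)
        · exact absurd h (by simp)
      · split at h
        · rename_i hcond
          rw [Bool.and_eq_true, Bool.not_eq_true', List.any_eq_true] at hcond
          obtain ⟨hc1, x, hx, hc2⟩ := hcond
          have hc3 := Nat.eq_of_beq_eq_true hc2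
          rw [← hc3] at hx
          have hall := ih h (RunA_app (wf_chP hQ hx) hT)
          exact RunA_cons (win_chP hQ hc1 hx fun Q' hQ' => hall _ (List.mem_append_left _ hQ'))
            fun Q' hQ' => hall _ (List.mem_append_right _ hQ')
        · exact absurd h (by simp)
      · obtain ⟨l, s1, h⟩ := RunA_rdl h
        split at h
        · rename_i hcond
          have hall := ih h (RunA_app (wf_chX hQ hcond) hT)
          exact RunA_cons (win_chX hQ hcond fun Q' hQ' => hall _ (List.mem_append_left _ hQ'))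
            fun Q' hQ' => hall _ (List.mem_append_right _ hQ')
        · exact absurd h (by simp)
      · have hall := ih h (RunA_cons (wf_dbl hQ) hT)
        exact RunA_cons (win_dbl hQ (hall _ List.mem_cons_self))
          fun Q' hQ' => hall _ (List.mem_cons_of_mem _ hQ')
      · exact absurd h (by simp)

end BP
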