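import Pool.Agent.Work.MP_475aca_co.RunA

/-! # Certificates with a library of known patterns -/

namespace BP

def eqN : List ℕ → List ℕ → Bool
  | [], [] => true
  | a :: l, b :: l' => match Nat.beq a b with | true => eqN l l' | false => false
  | _, _ => false

def eqC : List (ℕ × ℕ) → List (ℕ × ℕ) → Bool
  | [], [] => true
  | a :: l, b :: l' =>
    match Nat.beq a.1 b.1 && Nat.beq a.2 b.2 with | true => eqC l l' | false => false
  | _, _ => false

def eqP : Pat → Pat → Bool
  | [], [] => true
  | a :: l, b :: l' =>
    match (match a.1, b.1 with
        | true, true => true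
        | false, false => true
        | _, _ => false) && eqN a.2 b.2 with
    | true => eqP l l'
    | false => false
  | _, _ => false

/-- equality of patterns -/
def eqPt (Q Q' : Pt) : Bool := Nat.beq Q.R Q'.R && eqP Q.P Q'.P && eqC Q.ch Q'.ch

theorem eqN_sound {l l' : List ℕ} (h : eqN l l' = true) : l = l' := by
  induction l generalizing l' with
  | nil => cases l' with
    | nil => rfl
    | cons b l' => simp [eqN] at h
  | cons a l ih => cases l' with
    | nil => simp [eqN] at h
    | cons b l' =>
      simp only [eqN] at h
      split at h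
      · rename_i e
        rw [Nat.eq_of_beq_eq_true e, ih h]
      · simp at h

theorem eqC_sound {l l' : List (ℕ × ℕ)} (h : eqC l l' = true) : l = l' := by
  induction l generalizing l' with
  | nil => cases l' with
    | nil => rfl
    | cons b l' => simp [eqC] at h
  | cons a l ih => cases l' with
    | nil => simp [eqC] at h
    | cons b l' =>
      simp only [eqC] at h
      split at h
      · rename_i e
        rw [Bool.and_eq_true] at e
        rw [Prod.ext (Nat.eq_of_beq_eq_true e.1) (Nat.eq_of_beq_eq_true e.2), ih h]
      · simp at h

theorem eqP_sound {l l' : Pat} (h : eqP l l' = true) : l = l' := by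
  induction l generalizing l' with
  | nil => cases l' with
    | nil => rfl
    | cons b l' => simp [eqP] at h
  | cons a l ih => cases l' with
    | nil => simp [eqP] at h
    | cons b l' =>
      simp only [eqP] at h
      obtain ⟨a1, a2⟩ := a
      obtain ⟨b1, b2⟩ := b
      split at h
      · rename_i e
        rw [Bool.and_eq_true] at e
        obtain ⟨e1, e2⟩ := e
        have e3 : a2 = b2 := eqN_sound e2
        rw [e3, ih h]
        rcases a1 with _ | _ <;> rcases b1 with _ | _ <;> simp_all
      · simp at h

theorem eqPt_sound {Q Q' : Pt} (h : eqPt Q Q' = true) : Q = Q' := by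
  unfold eqPt at h
  rw [Bool.and_eq_true, Bool.and_eq_true] at h
  obtain ⟨R, P, ch⟩ := Q
  obtain ⟨R', P', ch'⟩ := Q'
  have h1 : R = R' := Nat.eq_of_beq_eq_true h.1.1
  have h2 : P = P' := eqP_sound h.1.2
  have h3 : ch = ch' := eqC_sound h.2
  rw [h1, h2, h3]

/-- run the certificate `s` on the patterns `todo`, with the library `lib` -/
def runL (lib : List Pt) : ℕ → List ℕ → List Pt → Bool
  | _, _, [] => true
  | 0, _, _ :: _ => false
  | f + 1, s, Q :: todo =>
    match s with
    | 0 :: s => rdl s fun us s => rdl s fun π s =>
      match leafOK Q us π with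
      | true => runL lib f s todo
      | false => false
    | 1 :: σ :: s =>
      match !mtd Q.ch σ && (rls Q.P).any (Nat.beq (Nat.div σ 2)) with
      | true => runL lib f s (chP Q σ ++ todo)
      | false => false
    | 2 :: s => rdl s fun l s =>
      match cycOK Q (pairs l) with
      | true => runL lib f s (chX Q (pairs l) ++ todo)
      | false => false
    | 3 :: s => runL lib f s (dbl Q :: todo)
    | 4 :: k :: s =>
      match lib[k]? with
      | some Q' =>
        match eqPt Q Q' with
        | true => runL lib f s todo
        | false => false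
      | none => false
    | _ => false

theorem runL_sound {lib : List Pt} (hlib : ∀ Q ∈ lib, Win Q) {f : ℕ} {c : List ℕ}
    {todo : List Pt} (h : runL lib f c todo = true)
    (hW : ∀ Q ∈ todo, WF Q) : ∀ Q ∈ todo, Win Q := by
  induction f generalizing c todo with
  | zero =>
    rcases todo with _ | ⟨Q, todo⟩
    · intro Q hQ; simp at hQ
    · simp [runL] at h
  | succ f ih =>
    rcases todo with _ | ⟨Q, todo⟩
    · intro Q hQ; simp at hQ
    · have hQ : WF Q := hW Q List.mem_cons_self
      have hT : ∀ Q' ∈ todo, WF Q' := fun Q' hQ' => hW Q' (List.mem_cons_of_mem _ hQ')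
      unfold runL at h
      split at h
      · obtain ⟨us, s1, h⟩ := RunA_rdl h
        obtain ⟨π, s2, h⟩ := RunA_rdl h
        split at h
        · rename_i hc
          exact RunA_cons (leaf_win hQ hc) (ih h hT)
        · exact absurd h (by simp)
      · split at h
        · rename_i hcond
          rw [Bool.and_eq_true, Bool.not_eq_true', List.any_eq_true] at hcond
          obtain ⟨hc1, x, hx, hc2⟩ := hcond
          have hc3 := Nat.eq_of_beq_eq_true hc2
          rw [← hc3] at hx
          have hall := ih h (RunA_app (wf_chP hQ hx) hT)
          exact RunA_cons (win_chP hQ hc1 hx fun Q' hQ' => hall _ (List.mem_append_left _ hQ'))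
            fun Q' hQ' => hall _ (List.mem_append_right _ hQ')
        · exact absurd h (by simp)
      · obtain ⟨l, s1, h⟩ := RunA_rdl h
        split at h
        · rename_i hcond
          have hall := ih h (RunA_app (wf_chX hQ hcond) hT)
          exact RunA_cons (win_chX hQ hcond fun Q' hQ' => hall _ (List.mem_append_left _ hQ'))
            fun Q' hQ' => hall _ (List.mem_append_right _ hQ')
        · exact absurd h (by simp)
      · have hall := ih h (RunA_cons (wf_dbl hQ) hT)
        exact RunA_cons (win_dbl hQ (hall _ List.mem_cons_self))
          fun Q' hQ' => hall _ (List.mem_cons_of_mem _ hQ')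
      · split at h
        · rename_i Q' hQ'
          split at h
          · rename_i e
            rw [eqPt_sound e] at hQ ⊢
            exact RunA_cons (hlib _ (List.mem_of_getElem? hQ')) (ih h hT)
          · exact absurd h (by simp)
        · exact absurd h (by simp)
      · exact absurd h (by simp)

/-! ### well formed patterns -/

def ltAll (R : ℕ) : List ℕ → Bool
  | [] => true
  | r :: l => match Nat.ble (Nat.succ r) R with | true => ltAll R l | false => false

def ndup : List ℕ → Bool
  | [] => true
  | r :: l => match l.any (Nat.beq r) with | true => false | false => ndup l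

def wfB (Q : Pt) : Bool :=
  ndup (rls Q.P) && ltAll Q.R (rls Q.P) && Q.ch.all fun c =>
    (rls Q.P).any (Nat.beq (Nat.div c.1 2)) && (rls Q.P).any (Nat.beq (Nat.div c.2 2))

theorem any_beq {l : List ℕ} {x : ℕ} : l.any (Nat.beq x) = true ↔ x ∈ l := by
  rw [List.any_eq_true]
  constructor
  · rintro ⟨y, hy, h⟩
    rw [Nat.eq_of_beq_eq_true h]
    exact hy
  · intro h
    exact ⟨x, h, Nat.beq_refl x⟩

theorem ltAll_sound {R : ℕ} {l : List ℕ} (h : ltAll R l = true) : ∀ r ∈ l, r < R := by
  induction l with
  | nil => simp
  | cons a l ih =>
    simp only [ltAll] at h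
    split at h
    · rename_i e
      intro r hr
      rw [List.mem_cons] at hr
      rcases hr with rfl | hr
      · exact Nat.le_of_ble_eq_true e
      · exact ih h r hr
    · simp at h

theorem ndup_sound {l : List ℕ} (h : ndup l = true) : l.Nodup := by
  induction l with
  | nil => exact List.nodup_nil
  | cons a l ih =>
    simp only [ndup] at h
    split at h
    · simp at h
    · rename_i e
      refine List.nodup_cons.2 ⟨fun hm => ?_, ih h⟩
      rw [any_beq.2 hm] at e
      simp at e

theorem wfB_sound {Q : Pt} (h : wfB Q = true) : WF Q := by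
  unfold wfB at h
  rw [Bool.and_eq_true, Bool.and_eq_true, List.all_eq_true] at h
  refine ⟨ndup_sound h.1.1, ltAll_sound h.1.2, fun c hc => ?_⟩
  have h1 := h.2 c hc
  rw [Bool.and_eq_true, any_beq, any_beq] at h1
  exact h1

theorem win_of_runL {lib : List Pt} {Q : Pt} {f : ℕ} {c : List ℕ} (hW : wfB Q = true)
    (h : runL lib f c [Q] = true) (hlib : ∀ Q ∈ lib, Win Q) : Win Q :=
  runL_sound hlib h (fun Q' hQ' => by
    rw [List.mem_singleton] at hQ'
    rw [hQ']
    exact wfB_sound hW) Q (List.mem_singleton_self Q)

end BP
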