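import Pool.Agent.Work.MP_475aca_co.Check

/-! # Soundness of the simulation -/

namespace BP

theorem sim_cut {K : List (ℕ × ℕ)} {p : ℕ} {acc : List (ℕ × ℕ)} {g : ℕ × ℕ}
    {acc' K2 : List (ℕ × ℕ)} (h : cut K p acc = some (g, acc', K2)) :
    ∃ K1, K = K1 ++ g :: K2 ∧ acc' = (K1.map Prod.swap).reverse ++ acc := by
  induction K generalizing p acc with
  | nil => simp [cut] at h
  | cons a K ih =>
    cases p with
    | zero =>
      simp only [cut, Option.some.injEq, Prod.mk.injEq] at h
      obtain ⟨rfl, rfl, rfl⟩ := h
      exact ⟨[], by simp, by simp⟩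
    | succ p =>
      simp only [cut] at h
      obtain ⟨K1, h1, h2⟩ := ih h
      refine ⟨a :: K1, by simp [h1], ?_⟩
      rw [h2]
      simp [Prod.swap]

theorem sim_dd_append (G H : List Gap) : dd (G ++ H) = dd G + dd H := by simp [dd]

theorem sim_dd_cons (g : Gap) (H : List Gap) : dd (g :: H) = (if opn g then 1 else 0) + dd H := by
  simp only [dd, List.countP_cons]
  omega

theorem sim_par_iff (u v : ℕ) : par u = v ↔ par v = u := by
  unfold par
  split_ifs <;> omega

theorem sim_opn_swap (g : Gap) : opn g.swap = opn g := by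
  unfold opn
  have h := sim_par_iff g.1 g.2
  by_cases h1 : par g.1 = g.2
  · simp [h1, h.1 h1]
  · have h2 : par g.2 ≠ g.1 := fun e => h1 (h.2 e)
    simp [bne, h1, h2]

theorem sim_dd_rev (G : List Gap) : dd (G.map Prod.swap).reverse = dd G := by
  unfold dd
  rw [List.countP_reverse, List.countP_map]
  exact List.countP_congr fun g _ => by simp [Function.comp, sim_opn_swap]

theorem sim_sflip {G1 G2 : List Gap} {t : ℕ} {g : Gap} :
    sflip G1.length (t, G1 ++ g :: G2) = (g.1, (G1.map Prod.swap).reverse ++ (t, g.2) :: G2) := by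
  simp [sflip]

theorem sim_split {K1 K2 G : List Gap} {g : Gap} (h : (K1 ++ g :: K2).Sublist G) :
    ∃ G1 G2, G = G1 ++ g :: G2 ∧ K1.Sublist G1 ∧ K2.Sublist G2 := by
  rw [List.append_sublist_iff] at h
  obtain ⟨A, B, rfl, h1, h2⟩ := h
  rw [List.cons_sublist_iff] at h2
  obtain ⟨C, D, rfl, h3, h4⟩ := h2
  obtain ⟨C1, C2, rfl⟩ := List.append_of_mem h3
  exact ⟨A ++ C1, C2 ++ D, by simp, h1.trans (List.sublist_append_left _ _),
    h4.trans (List.sublist_append_right _ _)⟩

theorem sim_main (φ : ℕ → ℕ) (isQ : ℕ → ℕ → Bool) (T : Set ℕ)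
    (hP : ∀ a ∈ T, ∀ b ∈ T, isQ a b = true → par (φ a) = φ b) {c h : ℕ} {π : List ℕ} :
    ∀ {K : List (ℕ × ℕ)} {t c0 : ℕ} {s : St}, t ∈ T → (∀ g ∈ K, g.1 ∈ T ∧ g.2 ∈ T) → s.1 = φ t →
      (K.map (Prod.map φ φ)).Sublist s.2 → dd s.2 = dd (K.map (Prod.map φ φ)) + h →
      sim isQ π t K c0 = some c →
    ∃ ks : List ℕ, ks.length = π.length ∧ (∀ k ∈ ks, k < s.2.length) ∧
      ∃ K' : List (ℕ × ℕ), K'.length + c = K.length + c0 ∧ dd (sflips ks s).2 ≤ K'.length + h := by
  induction π with
  | nil =>
    intro K t c0 s _ _ _ _ hd hsim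
    simp only [sim, Option.some.injEq] at hsim
    subst hsim
    refine ⟨[], rfl, by simp, K, rfl, ?_⟩
    simp only [sflips, List.foldl_nil]
    rw [hd]
    have : dd (K.map (Prod.map φ φ)) ≤ (K.map (Prod.map φ φ)).length := List.countP_le_length
    rw [List.length_map] at this
    omega
  | cons p π ih =>
    intro K t c0 s ht hKT hs hK hd hsim
    simp only [sim] at hsim
    rcases hcut : cut K p [] with _ | ⟨g, acc, K2⟩
    · rw [hcut] at hsim
      simp at hsim
    rw [hcut] at hsim
    simp only at hsim
    obtain ⟨K1, rfl, hacc⟩ := sim_cut hcut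
    rw [List.append_nil] at hacc
    subst hacc
    rw [List.map_append, List.map_cons] at hK
    obtain ⟨G1, G2, hG, h1, h2⟩ := sim_split hK
    have hs' : s = (s.1, G1 ++ Prod.map φ φ g :: G2) := Prod.ext rfl hG
    have hfl : sflip G1.length s =
        (φ g.1, (G1.map Prod.swap).reverse ++ (s.1, φ g.2) :: G2) := by
      rw [hs', sim_sflip]
      rfl
    have hlen : (sflip G1.length s).2.length = s.2.length := by
      rw [hfl, hG]
      simp
    have hgT := hKT g (by simp)
    have hmem1 : ∀ x ∈ (K1.map Prod.swap).reverse, x.1 ∈ T ∧ x.2 ∈ T := by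
      intro x hx
      rw [List.mem_reverse, List.mem_map] at hx
      obtain ⟨y, hy, rfl⟩ := hx
      have := hKT y (by simp [hy])
      exact ⟨this.2, this.1⟩
    have hmap : (K1.map Prod.swap).reverse.map (Prod.map φ φ) =
        ((K1.map (Prod.map φ φ)).map Prod.swap).reverse := by
      rw [List.map_reverse, List.map_map, List.map_map]
      congr 1
    rw [hG, List.map_append, List.map_cons, sim_dd_append, sim_dd_cons, sim_dd_append,
      sim_dd_cons] at hd
    rcases hq : isQ t g.2 with _ | _
    · rw [hq] at hsim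
      simp only at hsim
      obtain ⟨ks, h3, h4, K', h5, h6⟩ := ih (K := (K1.map Prod.swap).reverse ++ (t, g.2) :: K2)
        (t := g.1) (c0 := c0) (s := sflip G1.length s) hgT.1 (by
          intro x hx
          rw [List.mem_append, List.mem_cons] at hx
          rcases hx with hx | rfl | hx
          · exact hmem1 x hx
          · exact ⟨ht, hgT.2⟩
          · exact hKT x (by simp [hx])) (by rw [hfl]) (by
          rw [hfl, List.map_append, hmap, List.map_cons]
          refine List.Sublist.append ((h1.map _).reverse) ?_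
          rw [hs]
          exact h2.cons_cons _) (by
          rw [hfl, List.map_append, hmap, List.map_cons]
          simp only [sim_dd_append, sim_dd_cons, sim_dd_rev]
          rw [hs]
          simp only [Prod.map_apply]
          omega) hsim
      refine ⟨G1.length :: ks, by simp [h3], ?_, K', ?_, ?_⟩
      · intro k hk
        rw [List.mem_cons] at hk
        rcases hk with rfl | hk
        · rw [hG]
          simp
        · rw [← hlen]
          exact h4 k hk
      · simp only [List.length_append, List.length_reverse, List.length_map,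
          List.length_cons] at h5 ⊢
        omega
      · exact h6
    · rw [hq] at hsim
      simp only at hsim
      have hpar := hP t ht g.2 hgT.2 hq
      have hop : opn (s.1, φ g.2) = false := by
        unfold opn
        rw [hs, hpar]
        simp
      obtain ⟨ks, h3, h4, K', h5, h6⟩ := ih (K := (K1.map Prod.swap).reverse ++ K2)
        (t := g.1) (c0 := Nat.succ c0) (s := sflip G1.length s) hgT.1 (by
          intro x hx
          rw [List.mem_append] at hx
          rcases hx with hx | hx
          · exact hmem1 x hx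
          · exact hKT x (by simp [hx])) (by rw [hfl]) (by
          rw [hfl, List.map_append, hmap]
          exact List.Sublist.append ((h1.map _).reverse) (h2.cons _)) (by
          rw [hfl, List.map_append, hmap]
          simp only [sim_dd_append, sim_dd_cons, sim_dd_rev]
          rw [hop]
          simp only [Bool.false_eq_true, if_false]
          omega) hsim
      refine ⟨G1.length :: ks, by simp [h3], ?_, K', ?_, ?_⟩
      · intro k hk
        rw [List.mem_cons] at hk
        rcases hk with rfl | hk
        · rw [hG]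
          simp
        · rw [← hlen]
          exact h4 k hk
      · simp only [List.length_append, List.length_reverse, List.length_map,
          List.length_cons] at h5 ⊢
        omega
      · exact h6

/-- Soundness of `sim`: `φ` sends tokens to ports, `T` is the set of the tokens in use, `K` is a
list of token pairs whose image is a sublist of the list of gaps. The number of open gaps drops by
at least the number `c` of gains. -/
theorem sim_sound {s : St} (φ : ℕ → ℕ) (isQ : ℕ → ℕ → Bool) (T : Set ℕ)
    (hP : ∀ a ∈ T, ∀ b ∈ T, isQ a b = true → par (φ a) = φ b)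
    {K : List (ℕ × ℕ)} {t : ℕ} (ht : t ∈ T) (hKT : ∀ g ∈ K, g.1 ∈ T ∧ g.2 ∈ T) (hs : s.1 = φ t)
    (hK : (K.map (Prod.map φ φ)).Sublist s.2) (hopen : ∀ g ∈ K, par (φ g.1) ≠ φ g.2)
    {π : List ℕ} {c : ℕ} (h : sim isQ π t K 0 = some c) :
    ∃ ks : List ℕ, ks.length = π.length ∧ (∀ k ∈ ks, k < s.2.length) ∧
      dd (sflips ks s).2 + c ≤ dd s.2 := by
  have h1 : dd (K.map (Prod.map φ φ)) = K.length := by
    unfold dd
    rw [List.countP_eq_length.2, List.length_map]
    intro x hx
    obtain ⟨g, hg, rfl⟩ := List.mem_map.1 hx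
    unfold opn
    simpa using hopen g hg
  have h2 : dd (K.map (Prod.map φ φ)) ≤ dd s.2 := hK.countP_le
  obtain ⟨ks, h3, h4, K', h5, h6⟩ := sim_main φ isQ T hP (h := dd s.2 - K.length) ht hKT hs hK
    (by omega) h
  exact ⟨ks, h3, h4, by omega⟩

end BP
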